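import Mathlib

set_option autoImplicit false

open TensorProduct

namespace Pool.Agent.LNDHom

/-- Top term of an iterated derivation on a product. -/
theorem iter_mul_top {k S : Type*} [CommRing k] [CommRing S] [Algebra k S]
    (E : Derivation k S S) : ∀ (n a b : ℕ) (x y : S), a + b = n →
      (⇑E)^[a + 1] x = 0 → (⇑E)^[b + 1] y = 0 →
      (⇑E)^[n] (x * y) = (n.choose a : S) * ((⇑E)^[a] x * (⇑E)^[b] y) ∧
        (⇑E)^[n + 1] (x * y) = 0 := by
  intro n
  induction n with
  | zero =>
    intro a b x y hab hx hy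
    obtain ⟨rfl, rfl⟩ : a = 0 ∧ b = 0 := by omega
    simp only [Function.iterate_succ, Function.iterate_zero, Function.comp, id] at hx hy ⊢
    simp [hx, hy]
  | succ n ih =>
    intro a b x y hab hx hy
    have key : ∀ m, (⇑E)^[m + 1] (x * y) = (⇑E)^[m] (x * E y) + (⇑E)^[m] (E x * y) := by
      intro m
      rw [Function.iterate_succ_apply, Derivation.leibniz]
      have : ∀ u v : S, (⇑E)^[m] (u + v) = (⇑E)^[m] u + (⇑E)^[m] v := by
        intro u v
        exact iterate_map_add E m u v
      rw [this]
      simp [smul_eq_mul, mul_comm]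
    rcases Nat.eq_zero_or_pos a with ha | ha
    · subst ha
      have hEx : E x = 0 := by simpa using hx
      obtain rfl : b = n + 1 := by omega
      have h1 := ih 0 n x (E y) (by omega) hx (by
        simpa [Function.iterate_succ_apply] using hy)
      rw [key, key, hEx]
      simp only [zero_mul, iterate_map_zero, add_zero]
      refine ⟨?_, h1.2⟩
      rw [h1.1]
      simp [Function.iterate_succ_apply]
    · rcases Nat.eq_zero_or_pos b with hb | hb
      · subst hb
        have hEy : E y = 0 := by simpa using hy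
        obtain rfl : a = n + 1 := by omega
        have h1 := ih n 0 (E x) y (by omega) (by
          simpa [Function.iterate_succ_apply] using hx) hy
        rw [key, key, hEy]
        simp only [mul_zero, iterate_map_zero, zero_add]
        refine ⟨?_, h1.2⟩
        rw [h1.1]
        simp [Function.iterate_succ_apply]
      · obtain ⟨a, rfl⟩ : ∃ a', a = a' + 1 := ⟨a - 1, by omega⟩
        obtain ⟨b, rfl⟩ : ∃ b', b = b' + 1 := ⟨b - 1, by omega⟩
        have h1 := ih (a + 1) b x (E y) (by omega) hx (by
          simpa [Function.iterate_succ_apply] using hy)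
        have h2 := ih a (b + 1) (E x) y (by omega) (by
          simpa [Function.iterate_succ_apply] using hx) hy
        rw [key, key, h1.1, h1.2, h2.1, h2.2]
        refine ⟨?_, by simp⟩
        rw [Nat.choose_succ_succ n a]
        simp only [← Function.iterate_succ_apply]
        push_cast
        ring

theorem iter_zero_of_le {k S : Type*} [CommRing k] [CommRing S] [Algebra k S]
    (E : Derivation k S S) {m n : ℕ} {x : S} (h : (⇑E)^[m] x = 0) (hmn : m ≤ n) :
    (⇑E)^[n] x = 0 := by
  obtain ⟨d, rfl⟩ := Nat.exists_eq_add_of_le hmn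
  rw [add_comm, Function.iterate_add_apply, h, iterate_map_zero]

/-- If `E` is locally nilpotent and `t ≠ 0`, there is a last nonzero iterate. -/
theorem exists_top {k S : Type*} [CommRing k] [CommRing S] [Algebra k S]
    (E : Derivation k S S) {t : S} (ht : t ≠ 0) (h : ∃ n, (⇑E)^[n] t = 0) :
    ∃ n, (⇑E)^[n] t ≠ 0 ∧ (⇑E)^[n + 1] t = 0 := by
  classical
  have hn := Nat.find_spec h
  have h0 : Nat.find h ≠ 0 := by
    intro h0
    rw [h0] at hn
    exact ht hn
  refine ⟨Nat.find h - 1, Nat.find_min h (by omega), ?_⟩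
  have : Nat.find h - 1 + 1 = Nat.find h := by omega
  rw [this]
  exact hn

theorem sq_top {k S : Type*} [CommRing k] [CommRing S] [Algebra k S] [Algebra ℚ S]
    (E : Derivation k S S) {t : S} {n : ℕ} (h2 : t * t = 0) (h : (⇑E)^[n + 1] t = 0) :
    (⇑E)^[n] t * (⇑E)^[n] t = 0 := by
  have h1 := (iter_mul_top E (n + n) n n t t rfl h h).1
  rw [h2, iterate_map_zero] at h1
  have hu : IsUnit (((n + n).choose n : ℕ) : S) := by
    have : (((n + n).choose n : ℕ) : S) = algebraMap ℚ S ((n + n).choose n : ℕ) := by simp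
    rw [this]
    apply IsUnit.map
    rw [isUnit_iff_ne_zero]
    exact_mod_cast (Nat.choose_pos (by omega)).ne'
  exact (hu.mul_right_eq_zero.mp h1.symm)

/-- A finite-dimensional domain `L` over a field of characteristic zero has reduced square. -/
theorem red_fin (κ L : Type*) [Field κ] [CharZero κ] [CommRing L] [IsDomain L] [Algebra κ L]
    [FiniteDimensional κ L] : IsReduced (L ⊗[κ] L) := by
  have hf : IsField L := (Algebra.IsIntegral.isField_iff_isField
    (FaithfulSMul.algebraMap_injective κ L)).mp (Field.toIsField κ)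
  let _ : Field L := hf.toField
  have _ : Algebra.IsSeparable κ L := inferInstance
  have _ : Algebra.FormallyUnramified κ L := Algebra.FormallyUnramified.of_isSeparable κ L
  exact Algebra.FormallyUnramified.isReduced_of_field L (L ⊗[κ] L)


section Tensor

variable {V Λ : Type*} [CommRing V] [CommRing Λ] [Algebra V Λ]

/-- The derivation `D ⊗ 1`. -/
noncomputable def D1 (D : Derivation V Λ Λ) : Derivation V (Λ ⊗[V] Λ) (Λ ⊗[V] Λ) :=
  Derivation.mk' (LinearMap.rTensor Λ (D : Λ →ₗ[V] Λ)) (by
    intro x y
    induction x using TensorProduct.induction_on with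
    | zero => simp
    | tmul a b =>
      induction y using TensorProduct.induction_on with
      | zero => simp
      | tmul c d =>
        simp only [Algebra.TensorProduct.tmul_mul_tmul, LinearMap.rTensor_tmul,
          Derivation.coeFn_coe, Derivation.leibniz, smul_eq_mul, TensorProduct.add_tmul]
        rw [mul_comm d b]
      | add y z hy hz =>
        rw [mul_add, map_add, hy, hz, map_add, smul_add, add_smul]
        abel
    | add x z hx hz =>
      rw [add_mul, map_add, hx, hz, map_add, smul_add, add_smul]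
      abel)

/-- The derivation `1 ⊗ D`. -/
noncomputable def D2 (D : Derivation V Λ Λ) : Derivation V (Λ ⊗[V] Λ) (Λ ⊗[V] Λ) :=
  Derivation.mk' (LinearMap.lTensor Λ (D : Λ →ₗ[V] Λ)) (by
    intro x y
    induction x using TensorProduct.induction_on with
    | zero => simp
    | tmul a b =>
      induction y using TensorProduct.induction_on with
      | zero => simp
      | tmul c d =>
        simp only [Algebra.TensorProduct.tmul_mul_tmul, LinearMap.lTensor_tmul,
          Derivation.coeFn_coe, Derivation.leibniz, smul_eq_mul, TensorProduct.tmul_add]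
        rw [mul_comm c a]
      | add y z hy hz =>
        rw [mul_add, map_add, hy, hz, map_add, smul_add, add_smul]
        abel
    | add x z hx hz =>
      rw [add_mul, map_add, hx, hz, map_add, smul_add, add_smul]
      abel)

theorem D1_tmul (D : Derivation V Λ Λ) (a b : Λ) : D1 D (a ⊗ₜ b) = D a ⊗ₜ b := rfl

theorem D2_tmul (D : Derivation V Λ Λ) (a b : Λ) : D2 D (a ⊗ₜ b) = a ⊗ₜ D b := rfl

theorem D1_iter_tmul (D : Derivation V Λ Λ) (a b : Λ) (n : ℕ) :
    (⇑(D1 D))^[n] (a ⊗ₜ b) = (⇑D)^[n] a ⊗ₜ b := by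
  induction n with
  | zero => rfl
  | succ n ih => rw [Function.iterate_succ_apply', ih, D1_tmul, Function.iterate_succ_apply']

theorem D2_iter_tmul (D : Derivation V Λ Λ) (a b : Λ) (n : ℕ) :
    (⇑(D2 D))^[n] (a ⊗ₜ b) = a ⊗ₜ (⇑D)^[n] b := by
  induction n with
  | zero => rfl
  | succ n ih => rw [Function.iterate_succ_apply', ih, D2_tmul, Function.iterate_succ_apply']

theorem D1_D2_comm (D : Derivation V Λ Λ) (t : Λ ⊗[V] Λ) :
    D1 D (D2 D t) = D2 D (D1 D t) := by
  induction t using TensorProduct.induction_on with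
  | zero => simp
  | tmul a b => rfl
  | add x y hx hy => simp only [map_add, hx, hy]

theorem D1_iter_D2 (D : Derivation V Λ Λ) (t : Λ ⊗[V] Λ) (n : ℕ) :
    (⇑(D1 D))^[n] (D2 D t) = D2 D ((⇑(D1 D))^[n] t) := by
  induction n generalizing t with
  | zero => rfl
  | succ n ih => rw [Function.iterate_succ_apply, D1_D2_comm, ih, Function.iterate_succ_apply]

theorem D1_lnd (D : Derivation V Λ Λ) (h : ∀ x, ∃ n, (⇑D)^[n] x = 0) (t : Λ ⊗[V] Λ) :
    ∃ n, (⇑(D1 D))^[n] t = 0 := by
  induction t using TensorProduct.induction_on with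
  | zero => exact ⟨0, rfl⟩
  | tmul a b =>
    obtain ⟨n, hn⟩ := h a
    exact ⟨n, by rw [D1_iter_tmul, hn, TensorProduct.zero_tmul]⟩
  | add x y hx hy =>
    obtain ⟨n, hn⟩ := hx
    obtain ⟨m, hm⟩ := hy
    refine ⟨n + m, ?_⟩
    rw [iterate_map_add, iter_zero_of_le _ hn (by omega), iter_zero_of_le _ hm (by omega),
      add_zero]

theorem D2_lnd (D : Derivation V Λ Λ) (h : ∀ x, ∃ n, (⇑D)^[n] x = 0) (t : Λ ⊗[V] Λ) :
    ∃ n, (⇑(D2 D))^[n] t = 0 := by
  induction t using TensorProduct.induction_on with
  | zero => exact ⟨0, rfl⟩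
  | tmul a b =>
    obtain ⟨n, hn⟩ := h b
    exact ⟨n, by rw [D2_iter_tmul, hn, TensorProduct.tmul_zero]⟩
  | add x y hx hy =>
    obtain ⟨n, hn⟩ := hx
    obtain ⟨m, hm⟩ := hy
    refine ⟨n + m, ?_⟩
    rw [iterate_map_add, iter_zero_of_le _ hn (by omega), iter_zero_of_le _ hm (by omega),
      add_zero]

/-- The kernel of a derivation as a subalgebra. -/
def kerAlg (D : Derivation V Λ Λ) : Subalgebra V Λ where
  carrier := {x | D x = 0}
  mul_mem' := by
    intro a b ha hb
    simp only [Set.mem_ofPred_eq] at ha hb ⊢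
    simp [ha, hb]
  add_mem' := by
    intro a b ha hb
    simp only [Set.mem_ofPred_eq] at ha hb ⊢
    simp [ha, hb]
  algebraMap_mem' := by
    intro r
    simp

theorem mem_kerAlg (D : Derivation V Λ Λ) (x : Λ) : x ∈ kerAlg D ↔ D x = 0 := Iff.rfl

end Tensor

/-- Reducedness of the tensor square of a domain with a locally nilpotent derivation with finite
kernel over a field of characteristic zero. -/
theorem red_tensor {κ R : Type*} [Field κ] [CharZero κ] [CommRing R] [IsDomain R] [Algebra κ R]
    (D : Derivation κ R R) (hln : ∀ x, ∃ n, (⇑D)^[n] x = 0)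
    (hfin : FiniteDimensional κ (kerAlg D)) (t : R ⊗[κ] R) (ht : t * t = 0) : t = 0 := by
  by_contra hne
  let _ : Algebra ℚ κ := DivisionRing.toRatAlgebra
  let _ : Algebra ℚ (R ⊗[κ] R) := ((algebraMap κ (R ⊗[κ] R)).comp (algebraMap ℚ κ)).toAlgebra
  obtain ⟨b, hb1, hb2⟩ := exists_top (D2 D) hne (D2_lnd D hln t)
  have hsq1 := sq_top (D2 D) ht hb2
  set t1 := (⇑(D2 D))^[b] t with ht1
  obtain ⟨a, ha1, ha2⟩ := exists_top (D1 D) hb1 (D1_lnd D hln t1)
  have hsq2 := sq_top (D1 D) hsq1 ha2
  set t2 := (⇑(D1 D))^[a] t1 with ht2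
  have hD2 : D2 D t2 = 0 := by
    rw [ht2, ← D1_iter_D2]
    have : D2 D t1 = 0 := by
      rw [ht1, ← Function.iterate_succ_apply' (⇑(D2 D)), hb2]
    rw [this, iterate_map_zero]
  have hD1 : D1 D t2 = 0 := by
    rw [ht2, ← Function.iterate_succ_apply' (⇑(D1 D)), ha2]
  -- exactness
  have hex : Function.Exact ((kerAlg D).val.toLinearMap) (D : R →ₗ[κ] R) := by
    intro x
    constructor
    · intro hx
      exact ⟨⟨x, hx⟩, rfl⟩
    · rintro ⟨y, rfl⟩
      exact y.2
  obtain ⟨t3, ht3⟩ := (Module.Flat.lTensor_exact R hex t2).mp hD2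
  have hinj : Function.Injective (LinearMap.lTensor R (kerAlg D).val.toLinearMap) :=
    Module.Flat.lTensor_preserves_injective_linearMap _ Subtype.val_injective
  have hcomm : ∀ z : R ⊗[κ] (kerAlg D),
      LinearMap.lTensor R (kerAlg D).val.toLinearMap
        (LinearMap.rTensor (kerAlg D) (D : R →ₗ[κ] R) z) =
      D1 D (LinearMap.lTensor R (kerAlg D).val.toLinearMap z) := by
    intro z
    induction z using TensorProduct.induction_on with
    | zero => simp
    | tmul a b => rfl
    | add x y hx hy => simp only [map_add, hx, hy]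
  have h3 : LinearMap.rTensor (kerAlg D) (D : R →ₗ[κ] R) t3 = 0 := by
    apply hinj
    rw [hcomm, ht3, hD1, map_zero]
  obtain ⟨t4, ht4⟩ := (Module.Flat.rTensor_exact (kerAlg D) hex t3).mp h3
  -- now `t2` is the image of `t4`
  let φ : (kerAlg D) ⊗[κ] (kerAlg D) →ₐ[κ] R ⊗[κ] R :=
    Algebra.TensorProduct.map (kerAlg D).val (kerAlg D).val
  have hφ : ∀ z, φ z = LinearMap.lTensor R (kerAlg D).val.toLinearMap
      (LinearMap.rTensor (kerAlg D) (kerAlg D).val.toLinearMap z) := by
    intro z
    induction z using TensorProduct.induction_on with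
    | zero => simp
    | tmul a b => rfl
    | add x y hx hy => simp only [map_add, hx, hy]
  have hφinj : Function.Injective φ := by
    have h1 : Function.Injective (LinearMap.rTensor (kerAlg D) (kerAlg D).val.toLinearMap) :=
      Module.Flat.rTensor_preserves_injective_linearMap _ Subtype.val_injective
    intro x y hxy
    rw [hφ, hφ] at hxy
    exact h1 (hinj hxy)
  have h4 : φ t4 = t2 := by rw [hφ, ht4, ht3]
  have h5 : t4 * t4 = 0 := by
    apply hφinj
    rw [map_mul, h4, hsq2, map_zero]
  have hred := red_fin κ (kerAlg D)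
  have h6 : t4 = 0 := by
    have : IsNilpotent t4 := ⟨2, by rw [pow_two, h5]⟩
    exact this.eq_zero
  apply ha1
  rw [← h4, h6, map_zero]

end Pool.Agent.LNDHom
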