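import Mathlib
import Pool.Agent.LNDHom.Red

set_option autoImplicit false

open TensorProduct

namespace Pool.Agent.LNDHom

theorem pow_top {k S : Type*} [CommRing k] [CommRing S] [Algebra k S]
    (E : Derivation k S S) {σ : S} (h : E (E σ) = 0) (n : ℕ) :
    (⇑E)^[n] (σ ^ n) = (n.factorial : S) * (E σ) ^ n ∧ (⇑E)^[n + 1] (σ ^ n) = 0 := by
  induction n with
  | zero => simp
  | succ n ih =>
    have h1 := iter_mul_top E (n + 1) n 1 (σ ^ n) σ rfl ih.2 (by
      simpa [Function.iterate_succ_apply] using h)
    rw [pow_succ, h1.1, h1.2, ih.1]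
    refine ⟨?_, rfl⟩
    rw [Nat.choose_succ_self_right, Nat.factorial_succ]
    simp only [Function.iterate_succ, Function.iterate_zero, Function.comp, id]
    push_cast
    ring

theorem ker_mul_pow {k S : Type*} [CommRing k] [CommRing S] [Algebra k S]
    (E : Derivation k S S) {σ c : S} (h : E (E σ) = 0) (hc : E c = 0) (n : ℕ) :
    (⇑E)^[n] (c * σ ^ n) = c * ((n.factorial : S) * (E σ) ^ n) ∧
      (⇑E)^[n + 1] (c * σ ^ n) = 0 := by
  have h2 := pow_top E h n
  have h1 := iter_mul_top E n 0 n c (σ ^ n) (by omega) (by simpa using hc) h2.2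
  rw [h1.1, h1.2, h2.1]
  simp

theorem ker_indep {k S : Type*} [CommRing k] [CommRing S] [IsDomain S] [CharZero S] [Algebra k S]
    (E : Derivation k S S) {σ : S} (h : E (E σ) = 0) (h0 : E σ ≠ 0) (J : ℕ) (c : ℕ → S)
    (hc : ∀ j, E (c j) = 0) (hs : ∑ j ∈ Finset.range J, c j * σ ^ j = 0) :
    ∀ j < J, c j = 0 := by
  induction J with
  | zero => intro j hj; omega
  | succ J ih =>
    have hJ : c J = 0 := by
      have h1 : (⇑E)^[J] (∑ j ∈ Finset.range (J + 1), c j * σ ^ j) = 0 := by
        rw [hs, iterate_map_zero]
      have h2 : ∀ s : Finset ℕ, (⇑E)^[J] (∑ j ∈ s, c j * σ ^ j) =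
          ∑ j ∈ s, (⇑E)^[J] (c j * σ ^ j) := by
        intro s
        classical
        induction s using Finset.induction_on with
        | empty => simp
        | insert a s ha ih2 => rw [Finset.sum_insert ha, Finset.sum_insert ha, iterate_map_add, ih2]
      rw [h2, Finset.sum_range_succ, Finset.sum_eq_zero, zero_add, (ker_mul_pow E h (hc J) J).1] at h1
      · rcases mul_eq_zero.mp h1 with h3 | h3
        · exact h3
        · exfalso
          rcases mul_eq_zero.mp h3 with h4 | h4
          · exact (Nat.factorial_ne_zero J) (by exact_mod_cast h4)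
          · exact h0 (eq_zero_of_pow_eq_zero h4)
      · intro j hj
        exact iter_zero_of_le E (ker_mul_pow E h (hc j) j).2 (by simpa using hj)
    intro j hj
    rcases Nat.lt_succ_iff_lt_or_eq.mp hj with h1 | h1
    · apply ih _ j h1
      rw [Finset.sum_range_succ, hJ] at hs
      simpa using hs
    · rw [h1, hJ]

/-- The kernel of a nonzero locally nilpotent derivation is finite-dimensional if the algebra has
a filtration of linear growth. -/
theorem ker_fin {κ R : Type*} [Field κ] [CharZero κ] [CommRing R] [IsDomain R] [Algebra κ R]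
    (D : Derivation κ R R) (hln : ∀ x, ∃ n, (⇑D)^[n] x = 0)
    (F : ℕ → Submodule κ R) (hmono : Monotone F) (hFin : ∀ n, FiniteDimensional κ (F n))
    (hF : ∀ n, Module.finrank κ (F n) ≤ n + 1)
    (hmul : ∀ m n x y, x ∈ F m → y ∈ F n → x * y ∈ F (m + n)) (h1 : (1 : R) ∈ F 0)
    (htop : ∀ x, ∃ n, x ∈ F n) (hD : ∃ x, D x ≠ 0) :
    FiniteDimensional κ (kerAlg D) := by
  classical
  have hchar : CharZero R := charZero_of_injective_algebraMap (algebraMap κ R).injective
  obtain ⟨x, hx⟩ := hD
  obtain ⟨n, hn1, hn2⟩ := exists_top D (t := D x) hx (hln (D x))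
  obtain ⟨N, hN⟩ := htop ((⇑D)^[n] x)
  set σ := (⇑D)^[n] x with hσ
  have hσ1 : D σ = (⇑D)^[n] (D x) := by
    rw [hσ, ← Function.iterate_succ_apply' (⇑D), Function.iterate_succ_apply]
  have hσ0 : D σ ≠ 0 := by rw [hσ1]; exact hn1
  have hσ2 : D (D σ) = 0 := by
    rw [hσ1, ← Function.iterate_succ_apply' (⇑D)]; exact hn2
  have hpow : ∀ j, σ ^ j ∈ F (j * N) := by
    intro j
    induction j with
    | zero => simpa using h1
    | succ j ih =>
      rw [pow_succ, Nat.succ_mul]
      exact hmul _ _ _ _ ih hN
  have hrank : Module.rank κ (kerAlg D) ≤ (N : ℕ) := by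
    apply rank_le
    intro s hs
    by_contra hcon
    have hcon : N < s.card := not_le.mp hcon
    -- common bound
    obtain ⟨L, hL⟩ : ∃ L, ∀ y ∈ s, (y : R) ∈ F L := by
      have : ∀ s : Finset (kerAlg D), ∃ L, ∀ y ∈ s, (y : R) ∈ F L := by
        intro s
        induction s using Finset.induction_on with
        | empty => exact ⟨0, by simp⟩
        | insert a s ha ih =>
          obtain ⟨L, hL⟩ := ih
          obtain ⟨M, hM⟩ := htop (a : R)
          refine ⟨L + M, ?_⟩
          intro y hy
          rcases Finset.mem_insert.mp hy with h | h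
          · rw [h]; exact hmono (by omega) hM
          · exact hmono (by omega) (hL y h)
      exact this s
    let W : Submodule κ (kerAlg D) := Submodule.span κ (s : Set (kerAlg D))
    have hWrank : Module.finrank κ W = s.card := by
      have := finrank_span_finset_eq_card hs
      exact this
    have hWL : ∀ w ∈ W, (w : R) ∈ F L := by
      intro w hw
      induction hw using Submodule.span_induction with
      | mem x hx => exact hL x hx
      | zero => exact (F L).zero_mem
      | add x y _ _ hx hy => exact (F L).add_mem hx hy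
      | smul a x _ hx => exact (F L).smul_mem a hx
    let Φ : (Fin (L + 2) → W) →ₗ[κ] F (L + (L + 1) * N) :=
      { toFun := fun c => ⟨∑ j : Fin (L + 2), ((c j : kerAlg D) : R) * σ ^ (j : ℕ), by
          apply Submodule.sum_mem
          intro j _
          apply hmono _ (hmul _ _ _ _ (hWL _ (c j).2) (hpow (j : ℕ)))
          have : (j : ℕ) ≤ L + 1 := by omega
          exact Nat.add_le_add_left (Nat.mul_le_mul_right N this) L⟩
        map_add' := by
          intro c d
          ext
          simp [add_mul, Finset.sum_add_distrib]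
        map_smul' := by
          intro a c
          ext
          simp [Finset.smul_sum] }
    have hΦ : Function.Injective Φ := by
      rw [← LinearMap.ker_eq_bot, LinearMap.ker_eq_bot']
      intro c hc
      have h3 : ∑ j : Fin (L + 2), ((c j : kerAlg D) : R) * σ ^ (j : ℕ) = 0 :=
        congrArg Subtype.val hc
      let c' : ℕ → R := fun j => if h : j < L + 2 then ((c ⟨j, h⟩ : kerAlg D) : R) else 0
      have h4 : ∑ j ∈ Finset.range (L + 2), c' j * σ ^ j = 0 := by
        rw [Finset.sum_range, ← h3]
        apply Finset.sum_congr rfl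
        intro j _
        simp [c']
      have h5 := ker_indep D hσ2 hσ0 (L + 2) c' (by
        intro j
        by_cases h : j < L + 2
        · simp only [c', h, dif_pos]
          exact ((c ⟨j, h⟩ : kerAlg D)).2
        · simp [c', h]) h4
      ext j
      have h6 := h5 j j.2
      simpa [c'] using h6
    have h7 := LinearMap.finrank_le_finrank_of_injective hΦ
    rw [Module.finrank_pi_fintype] at h7
    simp only [hWrank, Finset.sum_const, Finset.card_univ, Fintype.card_fin, smul_eq_mul] at h7
    have h8 := hF (L + (L + 1) * N)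
    have h9 : (L + 2) * (N + 1) ≤ (L + 2) * s.card := Nat.mul_le_mul_left _ hcon
    have h10 : (L + 2) * (N + 1) = L * N + 2 * N + L + 2 := by ring
    have h11 : L + (L + 1) * N + 1 = L * N + N + L + 1 := by ring
    omega
  exact Module.rank_lt_aleph0_iff.mp (lt_of_le_of_lt hrank (Cardinal.natCast_lt_aleph0))

end Pool.Agent.LNDHom
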