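import Mathlib
import Pool.Agent.LNDHom.KerFin

set_option autoImplicit false
set_option linter.unusedSectionVars false

open TensorProduct

namespace Pool.Agent.LNDHom

/-- Local data: `V` is a discrete valuation ring with uniformiser `p` containing the rationals,
`Λ` is a domain over `V` with a locally nilpotent derivation with kernel `V`, such that `p` is prime
in `Λ` and `D` is not divisible by `p`. -/
structure LocData (V Λ : Type*) [CommRing V] [IsDomain V] [CommRing Λ] [IsDomain Λ] [Algebra V Λ]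
    (D : Derivation V Λ Λ) (p : V) : Prop where
  inj : Function.Injective (algebraMap V Λ)
  ne : p ≠ 0
  nu : ¬ IsUnit p
  val : ∀ v : V, v ≠ 0 → ∃ (n : ℕ) (u : V), IsUnit u ∧ v = p ^ n * u
  unit : ∀ n : ℕ, n ≠ 0 → IsUnit (n : V)
  lnd : ∀ x, ∃ n, (⇑D)^[n] x = 0
  ker : ∀ x, D x = 0 → ∃ v, algebraMap V Λ v = x
  prime : Prime (algebraMap V Λ p)
  ndvd : ∃ x, ¬ algebraMap V Λ p ∣ D x

variable {V Λ : Type*} [CommRing V] [IsDomain V] [CommRing Λ] [IsDomain Λ] [Algebra V Λ]
  {D : Derivation V Λ Λ} {p : V}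

namespace LocData

theorem charZero (h : LocData V Λ D p) : CharZero V := by
  refine charZero_of_inj_zero ?_
  intro n hn
  by_contra h0
  have := h.unit n h0
  rw [hn] at this
  exact not_isUnit_zero this

theorem charZero' (h : LocData V Λ D p) : CharZero Λ := by
  have := h.charZero
  exact charZero_of_injective_algebraMap h.inj

theorem smul_iter (D : Derivation V Λ Λ) (v : V) (x : Λ) (n : ℕ) :
    (⇑D)^[n] (v • x) = v • (⇑D)^[n] x := by
  induction n generalizing x with
  | zero => rfl
  | succ n ih => rw [Function.iterate_succ_apply, Function.iterate_succ_apply, Derivation.map_smul, ih]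

theorem sum_iter (D : Derivation V Λ Λ) {ι : Type*} (s : Finset ι) (f : ι → Λ) (n : ℕ) :
    (⇑D)^[n] (∑ i ∈ s, f i) = ∑ i ∈ s, (⇑D)^[n] (f i) := by
  classical
  induction s using Finset.induction_on with
  | empty => simp
  | insert a s ha ih => rw [Finset.sum_insert ha, Finset.sum_insert ha, iterate_map_add, ih]

/-- the value at degree `n` -/
theorem exists_q (h : LocData V Λ D p) (n : ℕ) : ∃ (e : ℕ) (q : Λ),
    (⇑D)^[n] q = algebraMap V Λ (p ^ e) ∧
      ∀ x v, (⇑D)^[n] x = algebraMap V Λ v → p ^ e ∣ v := by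
  classical
  have := h.charZero'
  -- a local slice
  obtain ⟨x, hx⟩ := h.ndvd
  have hx0 : D x ≠ 0 := by
    intro h0
    rw [h0] at hx
    exact hx (dvd_zero _)
  obtain ⟨m, hm1, hm2⟩ := exists_top D hx0 (h.lnd (D x))
  set σ := (⇑D)^[m] x with hσ
  have hσ1 : D σ = (⇑D)^[m] (D x) := by
    rw [hσ, ← Function.iterate_succ_apply' (⇑D), Function.iterate_succ_apply]
  have hσ0 : D σ ≠ 0 := by rw [hσ1]; exact hm1
  have hσ2 : D (D σ) = 0 := by
    rw [hσ1, ← Function.iterate_succ_apply' (⇑D)]; exact hm2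
  obtain ⟨w, hw⟩ := h.ker _ hσ2
  have hex : ∃ e : ℕ, ∃ (x : Λ) (u : V), IsUnit u ∧ (⇑D)^[n] x = algebraMap V Λ (p ^ e * u) := by
    have h1 := (pow_top D hσ2 n).1
    have h2 : ((n.factorial : ℕ) : V) * w ^ n ≠ 0 := by
      intro h0
      have h3 := congrArg (algebraMap V Λ) h0
      rw [map_mul, map_pow, hw, map_natCast, map_zero] at h3
      rcases mul_eq_zero.mp h3 with h4 | h4
      · exact Nat.factorial_ne_zero n (by exact_mod_cast h4)
      · exact hσ0 (eq_zero_of_pow_eq_zero h4)
    obtain ⟨e, u, hu, he⟩ := h.val _ h2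
    refine ⟨e, σ ^ n, u, hu, ?_⟩
    rw [← he, h1, map_mul, map_pow, hw, map_natCast]
  obtain ⟨y, u, hu, hy⟩ := Nat.find_spec hex
  obtain ⟨u', rfl⟩ := hu
  refine ⟨Nat.find hex, (↑(u'⁻¹) : V) • y, ?_, ?_⟩
  · rw [smul_iter, hy, Algebra.smul_def, ← map_mul]
    congr 1
    rw [mul_comm, mul_assoc, Units.mul_inv, mul_one]
  · intro z v hz
    by_cases hv : v = 0
    · rw [hv]; exact dvd_zero _
    · obtain ⟨e', u', hu', hv'⟩ := h.val v hv
      rw [hv']
      apply Dvd.dvd.mul_right
      apply pow_dvd_pow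
      apply Nat.find_min' hex
      exact ⟨z, u', hu', by rw [hz, hv']⟩

/-- exponent -/
noncomputable def e (h : LocData V Λ D p) (n : ℕ) : ℕ := (h.exists_q n).choose

/-- adapted element -/
noncomputable def q (h : LocData V Λ D p) (n : ℕ) : Λ := (h.exists_q n).choose_spec.choose

theorem iter_q (h : LocData V Λ D p) (n : ℕ) :
    (⇑D)^[n] (h.q n) = algebraMap V Λ (p ^ h.e n) :=
  (h.exists_q n).choose_spec.choose_spec.1

theorem e_dvd (h : LocData V Λ D p) (n : ℕ) (x : Λ) (v : V)
    (hx : (⇑D)^[n] x = algebraMap V Λ v) : p ^ h.e n ∣ v :=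
  (h.exists_q n).choose_spec.choose_spec.2 x v hx

theorem iter_succ_q (h : LocData V Λ D p) (n : ℕ) : (⇑D)^[n + 1] (h.q n) = 0 := by
  rw [Function.iterate_succ_apply', h.iter_q, Derivation.map_algebraMap]

theorem pne (h : LocData V Λ D p) (n : ℕ) : algebraMap V Λ (p ^ n) ≠ 0 := by
  intro h0
  rw [← map_zero (algebraMap V Λ)] at h0
  exact pow_ne_zero n h.ne (h.inj h0)

theorem linInd (h : LocData V Λ D p) : LinearIndependent V h.q := by
  classical
  rw [linearIndependent_iff']
  intro s g hg
  by_contra hcon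
  push Not at hcon
  obtain ⟨i, hi, hgi⟩ := hcon
  let s' := s.filter (fun i => g i ≠ 0)
  have hne : s'.Nonempty := ⟨i, by simp [s', hi, hgi]⟩
  let N := s'.max' hne
  have hN : N ∈ s' := s'.max'_mem hne
  have hNs : N ∈ s := (Finset.mem_filter.mp hN).1
  have hgN : g N ≠ 0 := (Finset.mem_filter.mp hN).2
  have h1 : (⇑D)^[N] (∑ i ∈ s, g i • h.q i) = 0 := by rw [hg, iterate_map_zero]
  rw [sum_iter, Finset.sum_eq_single N] at h1
  · rw [smul_iter, h.iter_q, Algebra.smul_def] at h1
    rcases mul_eq_zero.mp h1 with h2 | h2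
    · exact hgN (h.inj (by rw [h2, map_zero]))
    · exact h.pne _ h2
  · intro j hj hjN
    rw [smul_iter]
    by_cases hgj : g j = 0
    · rw [hgj, zero_smul]
    · have hj' : j ∈ s' := by simp [s', hj, hgj]
      have hle : j ≤ N := s'.le_max' j hj'
      rw [iter_zero_of_le D (h.iter_succ_q j) (by omega), smul_zero]
  · intro h2
    exact absurd hNs h2

theorem mem_span (h : LocData V Λ D p) (n : ℕ) : ∀ x : Λ, (⇑D)^[n] x = 0 →
    x ∈ Submodule.span V (h.q '' {i | i < n}) := by
  induction n with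
  | zero =>
    intro x hx
    simp only [Function.iterate_zero, id] at hx
    rw [hx]
    exact Submodule.zero_mem _
  | succ n ih =>
    intro x hx
    obtain ⟨v, hv⟩ := h.ker ((⇑D)^[n] x) (by rw [← Function.iterate_succ_apply' (⇑D), hx])
    obtain ⟨w, hw⟩ := h.e_dvd n x v hv.symm
    have h1 : (⇑D)^[n] (x - w • h.q n) = 0 := by
      rw [iterate_map_sub, smul_iter, h.iter_q, ← hv, hw, Algebra.smul_def, map_mul]
      ring
    have h2 := ih _ h1
    have h3 : x = (x - w • h.q n) + w • h.q n := by ring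
    rw [h3]
    apply Submodule.add_mem
    · exact Submodule.span_mono (Set.image_mono (fun i hi => Nat.lt_succ_of_lt hi)) h2
    · apply Submodule.smul_mem
      exact Submodule.subset_span ⟨n, Nat.lt_succ_self n, rfl⟩

/-- the adapted basis -/
noncomputable def basis (h : LocData V Λ D p) : Module.Basis ℕ V Λ :=
  Module.Basis.mk h.linInd (by
    intro x _
    obtain ⟨n, hn⟩ := h.lnd x
    exact Submodule.span_mono (Set.image_subset_range _ _) (h.mem_span n x hn))

theorem basis_apply (h : LocData V Λ D p) (n : ℕ) : h.basis n = h.q n := by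
  simp [basis]

/-- the residue field -/
abbrev kap (_h : LocData V Λ D p) : Type _ := V ⧸ Ideal.span {p}

/-- the special fibre -/
abbrev res (_h : LocData V Λ D p) : Type _ := Λ ⧸ (Ideal.span {p}).map (algebraMap V Λ)

theorem isMax (h : LocData V Λ D p) : (Ideal.span {p}).IsMaximal := by
  rw [Ideal.isMaximal_iff]
  constructor
  · intro h1
    rw [Ideal.mem_span_singleton] at h1
    exact h.nu (isUnit_of_dvd_one h1)
  · intro J x hJ hx hxJ
    have hx0 : x ≠ 0 := by
      rintro rfl
      exact hx (Ideal.zero_mem _)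
    obtain ⟨n, u, hu, hn⟩ := h.val x hx0
    rcases Nat.eq_zero_or_pos n with h0 | h0
    · subst h0
      rw [pow_zero, one_mul] at hn
      rw [← hn] at hu
      have := Ideal.eq_top_of_isUnit_mem J hxJ hu
      rw [this]; trivial
    · exfalso
      apply hx
      rw [Ideal.mem_span_singleton, hn]
      exact Dvd.dvd.mul_right (dvd_pow_self p (by omega)) u

theorem mem_map_iff (x : Λ) : x ∈ (Ideal.span {p}).map (algebraMap V Λ) ↔
    algebraMap V Λ p ∣ x := by
  rw [Ideal.map_span, Set.image_singleton, Ideal.mem_span_singleton]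

theorem isPrime (h : LocData V Λ D p) : ((Ideal.span {p}).map (algebraMap V Λ)).IsPrime := by
  rw [Ideal.map_span, Set.image_singleton]
  exact (Ideal.span_singleton_prime h.prime.ne_zero).mpr h.prime

theorem kap_charZero (h : LocData V Λ D p) : CharZero h.kap := by
  have := h.isMax
  refine charZero_of_inj_zero ?_
  intro n hn
  by_contra h0
  have h1 := (h.unit n h0).map (Ideal.Quotient.mk (Ideal.span {p}))
  rw [map_natCast] at h1
  have h2 : ((n : ℕ) : V ⧸ Ideal.span {p}) = 0 := hn
  rw [h2] at h1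
  exact not_isUnit_zero h1

/-- the function underlying the reduced derivation -/
noncomputable def dbarFun (h : LocData V Λ D p) (x : h.res) : h.res :=
  Ideal.Quotient.mk _ (D (Ideal.Quotient.mk_surjective x).choose)

theorem dbarFun_mk (h : LocData V Λ D p) (y : Λ) :
    h.dbarFun (Ideal.Quotient.mk _ y) = Ideal.Quotient.mk _ (D y) := by
  unfold dbarFun
  have h1 := (Ideal.Quotient.mk_surjective (I := (Ideal.span {p}).map (algebraMap V Λ))
    (Ideal.Quotient.mk _ y)).choose_spec
  rw [Ideal.Quotient.eq] at h1 ⊢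
  rw [mem_map_iff] at h1 ⊢
  obtain ⟨z, hz⟩ := h1
  rw [← map_sub, hz, Derivation.leibniz]
  simp only [Derivation.map_algebraMap, smul_eq_mul]
  exact ⟨D z, by ring⟩

/-- the reduced derivation -/
noncomputable def dbar (h : LocData V Λ D p) : Derivation h.kap h.res h.res where
  toFun := h.dbarFun
  map_add' := by
    intro x y
    obtain ⟨x, rfl⟩ := Ideal.Quotient.mk_surjective x
    obtain ⟨y, rfl⟩ := Ideal.Quotient.mk_surjective y
    rw [← map_add, dbarFun_mk, dbarFun_mk, dbarFun_mk, map_add, map_add]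
  map_smul' := by
    intro c x
    obtain ⟨c, rfl⟩ := Ideal.Quotient.mk_surjective c
    obtain ⟨x, rfl⟩ := Ideal.Quotient.mk_surjective x
    rw [RingHom.id_apply, Ideal.Quotient.mk_smul_mk_quotient_map_quotient, dbarFun_mk, dbarFun_mk,
      Ideal.Quotient.mk_smul_mk_quotient_map_quotient, ← Algebra.smul_def, Derivation.map_smul,
      ← Algebra.smul_def]
  map_one_eq_zero' := by
    change h.dbarFun 1 = 0
    rw [← map_one (Ideal.Quotient.mk _), dbarFun_mk]
    simp
  leibniz' := by
    intro x y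
    obtain ⟨x, rfl⟩ := Ideal.Quotient.mk_surjective x
    obtain ⟨y, rfl⟩ := Ideal.Quotient.mk_surjective y
    change h.dbarFun _ = _ • h.dbarFun _ + _ • h.dbarFun _
    rw [← map_mul, dbarFun_mk, dbarFun_mk, dbarFun_mk, Derivation.leibniz, map_add]
    simp [smul_eq_mul]

theorem dbar_mk (h : LocData V Λ D p) (y : Λ) :
    h.dbar (Ideal.Quotient.mk _ y) = Ideal.Quotient.mk _ (D y) := h.dbarFun_mk y

theorem dbar_iter (h : LocData V Λ D p) (y : Λ) (n : ℕ) :
    (⇑h.dbar)^[n] (Ideal.Quotient.mk _ y) = Ideal.Quotient.mk _ ((⇑D)^[n] y) := by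
  induction n generalizing y with
  | zero => rfl
  | succ n ih => rw [Function.iterate_succ_apply, dbar_mk, ih, Function.iterate_succ_apply]

/-- the filtration of the special fibre -/
noncomputable def F (h : LocData V Λ D p) (n : ℕ) : Submodule h.kap h.res := by
  classical
  exact Submodule.span h.kap
    (((Finset.range (n + 1)).image (fun i => (Ideal.Quotient.mk _ (h.q i) : h.res)) :
      Finset h.res) : Set h.res)

theorem mem_F (h : LocData V Λ D p) (n : ℕ) (x : h.res) :
    x ∈ h.F n ↔ ∃ y : Λ, (⇑D)^[n + 1] y = 0 ∧ Ideal.Quotient.mk _ y = x := by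
  classical
  unfold F
  constructor
  · intro hx
    induction hx using Submodule.span_induction with
    | mem x hx =>
      simp only [Finset.coe_image, Set.mem_image, Finset.mem_coe, Finset.mem_range] at hx
      obtain ⟨i, hi, rfl⟩ := hx
      exact ⟨h.q i, iter_zero_of_le D (h.iter_succ_q i) (by omega), rfl⟩
    | zero => exact ⟨0, by rw [iterate_map_zero], map_zero _⟩
    | add x y _ _ hx hy =>
      obtain ⟨x', hx', rfl⟩ := hx
      obtain ⟨y', hy', rfl⟩ := hy
      exact ⟨x' + y', by rw [iterate_map_add, hx', hy', add_zero], map_add _ _ _⟩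
    | smul a x _ hx =>
      obtain ⟨x', hx', rfl⟩ := hx
      obtain ⟨a, rfl⟩ := Ideal.Quotient.mk_surjective a
      refine ⟨a • x', by rw [smul_iter, hx', smul_zero], ?_⟩
      rw [Ideal.Quotient.mk_smul_mk_quotient_map_quotient, Algebra.smul_def]
  · rintro ⟨y, hy, rfl⟩
    have h1 := h.mem_span (n + 1) y hy
    clear hy
    induction h1 using Submodule.span_induction with
    | mem x hx =>
      obtain ⟨i, hi, rfl⟩ := hx
      apply Submodule.subset_span
      simp only [Finset.coe_image, Set.mem_image, Finset.mem_coe, Finset.mem_range]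
      exact ⟨i, hi, rfl⟩
    | zero => rw [map_zero]; exact Submodule.zero_mem _
    | add x y hx hy hx' hy' =>
      rw [map_add]
      exact Submodule.add_mem _ hx' hy'
    | smul a x _ hx =>
      rw [Algebra.smul_def, ← Ideal.Quotient.mk_smul_mk_quotient_map_quotient]
      exact Submodule.smul_mem _ _ hx

/-- field structure on the residue field -/
@[reducible] noncomputable def kapField (h : LocData V Λ D p) : Field h.kap :=
  letI := h.isMax
  Ideal.Quotient.field _

theorem finite_ker (h : LocData V Λ D p) :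
    letI := h.kapField
    FiniteDimensional h.kap (kerAlg h.dbar) := by
  classical
  have hmax := h.isMax
  have hpr := h.isPrime
  have hc := h.kap_charZero
  let _ : Field h.kap := h.kapField
  have _ : IsDomain h.res := Ideal.Quotient.isDomain _
  refine ker_fin h.dbar ?_ h.F ?_ ?_ ?_ ?_ ?_ ?_ ?_
  · intro x
    obtain ⟨y, rfl⟩ := Ideal.Quotient.mk_surjective x
    obtain ⟨n, hn⟩ := h.lnd y
    exact ⟨n, by rw [dbar_iter, hn, map_zero]⟩
  · intro m n hmn x hx
    rw [mem_F] at hx ⊢
    obtain ⟨y, hy, rfl⟩ := hx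
    exact ⟨y, iter_zero_of_le D hy (by omega), rfl⟩
  · intro n
    unfold F
    exact FiniteDimensional.span_finset _ _
  · intro n
    unfold F
    refine (finrank_span_finset_le_card _).trans ?_
    refine Finset.card_image_le.trans ?_
    simp
  · intro m n x y hx hy
    rw [mem_F] at hx hy ⊢
    obtain ⟨x', hx', rfl⟩ := hx
    obtain ⟨y', hy', rfl⟩ := hy
    exact ⟨x' * y', (iter_mul_top D (m + n) m n x' y' rfl hx' hy').2, map_mul _ _ _⟩
  · rw [mem_F]
    exact ⟨1, by simp, map_one _⟩
  · intro x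
    obtain ⟨y, rfl⟩ := Ideal.Quotient.mk_surjective x
    obtain ⟨n, hn⟩ := h.lnd y
    exact ⟨n, (h.mem_F n _).mpr ⟨y, iter_zero_of_le D hn (by omega), rfl⟩⟩
  · obtain ⟨x, hx⟩ := h.ndvd
    refine ⟨Ideal.Quotient.mk _ x, ?_⟩
    rw [dbar_mk]
    intro h0
    rw [Ideal.Quotient.eq_zero_iff_mem, mem_map_iff] at h0
    exact hx h0

/-- the reduction map on tensor squares -/
noncomputable def redMap (h : LocData V Λ D p) : Λ ⊗[V] Λ →ₐ[V] h.res ⊗[h.kap] h.res :=
  Algebra.TensorProduct.productMap
    ((Algebra.TensorProduct.includeLeft : h.res →ₐ[V] h.res ⊗[h.kap] h.res).comp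
      (Ideal.Quotient.mkₐ V _))
    (((Algebra.TensorProduct.includeRight : h.res →ₐ[h.kap] h.res ⊗[h.kap] h.res).restrictScalars
      V).comp (Ideal.Quotient.mkₐ V _))

theorem redMap_tmul (h : LocData V Λ D p) (a b : Λ) :
    h.redMap (a ⊗ₜ b) = (Ideal.Quotient.mk _ a : h.res) ⊗ₜ (Ideal.Quotient.mk _ b : h.res) := by
  simp [redMap]

theorem res_linInd (h : LocData V Λ D p) :
    LinearIndependent h.kap (fun n => (Ideal.Quotient.mk _ (h.q n) : h.res)) := by
  classical
  rw [linearIndependent_iff']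
  intro s g hg i hi
  let g' : ℕ → V := fun i => (Ideal.Quotient.mk_surjective (g i)).choose
  have hg' : ∀ i, Ideal.Quotient.mk _ (g' i) = g i := fun i =>
    (Ideal.Quotient.mk_surjective (g i)).choose_spec
  have h1 : (Ideal.Quotient.mk _ (∑ i ∈ s, g' i • h.q i) : h.res) = 0 := by
    rw [map_sum, ← hg]
    apply Finset.sum_congr rfl
    intro i _
    rw [← hg' i, Ideal.Quotient.mk_smul_mk_quotient_map_quotient, Algebra.smul_def]
  rw [Ideal.Quotient.eq_zero_iff_mem, mem_map_iff] at h1
  obtain ⟨y, hy⟩ := h1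
  rw [← Algebra.smul_def] at hy
  have h2 : h.basis.repr (∑ i ∈ s, g' i • h.q i) i = g' i := by
    rw [map_sum, Finsupp.finsetSum_apply]
    rw [Finset.sum_eq_single i]
    · rw [map_smul, ← h.basis_apply, Module.Basis.repr_self]
      simp
    · intro j _ hj
      rw [map_smul, ← h.basis_apply, Module.Basis.repr_self]
      simp [hj]
    · intro h3
      exact absurd hi h3
  rw [hy, map_smul] at h2
  rw [← hg' i, ← h2, Ideal.Quotient.eq_zero_iff_mem, Ideal.mem_span_singleton]
  simp

/-- adapted basis of the special fibre -/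
noncomputable def resBasis (h : LocData V Λ D p) : Module.Basis ℕ h.kap h.res :=
  Module.Basis.mk h.res_linInd (by
    intro x _
    obtain ⟨y, rfl⟩ := Ideal.Quotient.mk_surjective x
    rw [← h.basis.linearCombination_repr y, Finsupp.linearCombination_apply, Finsupp.sum, map_sum]
    apply Submodule.sum_mem
    intro i _
    rw [Algebra.smul_def, ← Ideal.Quotient.mk_smul_mk_quotient_map_quotient, h.basis_apply]
    exact Submodule.smul_mem _ _ (Submodule.subset_span ⟨i, rfl⟩))

theorem resBasis_apply (h : LocData V Λ D p) (n : ℕ) :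
    h.resBasis n = (Ideal.Quotient.mk _ (h.q n) : h.res) := by
  simp [resBasis]

theorem redMap_ker (h : LocData V Λ D p) (w : Λ ⊗[V] Λ) (hw : h.redMap w = 0) :
    ∃ w', w = p • w' := by
  classical
  obtain ⟨m, rfl⟩ := TensorProduct.eq_repr_basis_left h.basis w
  let m' : ℕ →₀ h.res := m.mapRange (fun x => (Ideal.Quotient.mk _ x : h.res)) (map_zero _)
  have h1 : (m'.sum fun i n => h.resBasis i ⊗ₜ[h.kap] n) = 0 := by
    rw [← hw, Finsupp.sum_mapRange_index (by simp), Finsupp.sum, Finsupp.sum, map_sum]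
    apply Finset.sum_congr rfl
    intro i _
    rw [redMap_tmul, resBasis_apply, basis_apply]
  have h2 := TensorProduct.sum_tmul_basis_left_eq_zero h.resBasis m' h1
  have h3 : ∀ i, ∃ y, m i = p • y := by
    intro i
    have h4 : m' i = 0 := by rw [h2]; rfl
    have h5 : (Ideal.Quotient.mk _ (m i) : h.res) = 0 := h4
    rw [Ideal.Quotient.eq_zero_iff_mem, mem_map_iff] at h5
    obtain ⟨y, hy⟩ := h5
    exact ⟨y, by rw [hy, Algebra.smul_def]⟩
  choose y hy using h3
  refine ⟨∑ i ∈ m.support, h.basis i ⊗ₜ y i, ?_⟩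
  rw [Finsupp.sum, Finset.smul_sum]
  apply Finset.sum_congr rfl
  intro i _
  rw [hy i, TensorProduct.tmul_smul]

theorem p_smul (h : LocData V Λ D p) (z : h.res ⊗[h.kap] h.res) : p • z = 0 := by
  induction z using TensorProduct.induction_on with
  | zero => simp
  | tmul a b =>
    rw [TensorProduct.smul_tmul']
    have : p • a = 0 := by
      obtain ⟨a, rfl⟩ := Ideal.Quotient.mk_surjective a
      rw [Algebra.smul_def, IsScalarTower.algebraMap_apply V Λ h.res,
        Ideal.Quotient.algebraMap_eq, ← map_mul, Ideal.Quotient.eq_zero_iff_mem, mem_map_iff]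
      exact dvd_mul_right _ _
    rw [this, TensorProduct.zero_tmul]
  | add x y hx hy => rw [smul_add, hx, hy, add_zero]

/-- Reducedness of the special fibre of the tensor square. -/
theorem red (h : LocData V Λ D p) (w y : Λ ⊗[V] Λ) (hw : w * w = p • y) :
    ∃ w', w = p • w' := by
  classical
  have hmax := h.isMax
  have hpr := h.isPrime
  have hc := h.kap_charZero
  let _ : Field h.kap := h.kapField
  have _ : IsDomain h.res := Ideal.Quotient.isDomain _
  apply h.redMap_ker
  have hln : ∀ x, ∃ n, (⇑h.dbar)^[n] x = 0 := by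
    intro x
    obtain ⟨y, rfl⟩ := Ideal.Quotient.mk_surjective x
    obtain ⟨n, hn⟩ := h.lnd y
    exact ⟨n, by rw [dbar_iter, hn, map_zero]⟩
  apply red_tensor h.dbar hln h.finite_ker
  rw [← map_mul, hw, map_smul]
  exact h.p_smul _

end LocData

end Pool.Agent.LNDHom
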