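import Mathlib
import Pool.Agent.LNDHom.Loc

set_option autoImplicit false
set_option linter.unusedSectionVars false

open TensorProduct

namespace Pool.Agent.LNDHom

theorem iter_const_mul {k S : Type*} [CommRing k] [CommRing S] [Algebra k S]
    (E : Derivation k S S) {z : S} {c : k} (hz : E z = c • (1 : S)) (w : S) (n : ℕ) :
    (⇑E)^[n + 1] (z * w) = z * (⇑E)^[n + 1] w + ((n + 1 : ℕ) : k) • (c • (⇑E)^[n] w) := by
  induction n with
  | zero =>
    simp only [zero_add, Function.iterate_one, Function.iterate_zero, id, Derivation.leibniz, hz,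
      smul_eq_mul, Nat.cast_one, one_smul]
    rw [mul_smul_comm, mul_one]
  | succ n ih =>
    rw [Function.iterate_succ_apply', ih, map_add, Derivation.leibniz, hz, Derivation.map_smul,
      Derivation.map_smul]
    simp only [smul_eq_mul, ← Function.iterate_succ_apply' (⇑E)]
    rw [mul_smul_comm, mul_one, add_assoc]
    congr 1
    push_cast
    module

namespace LocData

variable {V Λ : Type*} [CommRing V] [IsDomain V] [CommRing Λ] [IsDomain Λ] [Algebra V Λ]
  {D : Derivation V Λ Λ} {p : V}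

theorem tfree (h : LocData V Λ D p) (v : V) (hv : v ≠ 0) (t : Λ ⊗[V] Λ) (ht : v • t = 0) :
    t = 0 := by
  have h1 := (h.basis.tensorProduct h.basis)
  have h2 : h1.repr t = 0 := by
    have h3 : v • h1.repr t = 0 := by rw [← map_smul, ht, map_zero]
    ext i
    have h4 := DFunLike.congr_fun h3 i
    simp only [Finsupp.smul_apply, smul_eq_mul, Finsupp.coe_zero, Pi.zero_apply,
      mul_eq_zero] at h4
    rcases h4 with h4 | h4
    · exact absurd h4 hv
    · exact h4
  exact (LinearEquiv.map_eq_zero_iff h1.repr).mp h2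

theorem tcancel (h : LocData V Λ D p) (v : V) (hv : v ≠ 0) (t t' : Λ ⊗[V] Λ)
    (ht : v • t = v • t') : t = t' := by
  rw [← sub_eq_zero]
  apply h.tfree v hv
  rw [smul_sub, ht, sub_self]

theorem ppow_ne (h : LocData V Λ D p) (n : ℕ) : p ^ n ≠ 0 := pow_ne_zero n h.ne

/-- the local parameter difference `r ⊗ 1 - 1 ⊗ r` -/
noncomputable def z (h : LocData V Λ D p) : Λ ⊗[V] Λ := h.q 1 ⊗ₜ 1 - 1 ⊗ₜ h.q 1

theorem D_q1 (h : LocData V Λ D p) : D (h.q 1) = algebraMap V Λ (p ^ h.e 1) := by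
  have := h.iter_q 1
  simpa using this

theorem D1_z (h : LocData V Λ D p) : D1 D h.z = (p ^ h.e 1) • (1 : Λ ⊗[V] Λ) := by
  unfold z
  rw [map_sub, D1_tmul, D1_tmul, h.D_q1]
  simp only [Derivation.map_one_eq_zero, TensorProduct.zero_tmul, sub_zero]
  rw [Algebra.algebraMap_eq_smul_one, ← TensorProduct.smul_tmul']
  rfl

theorem D2_z (h : LocData V Λ D p) : D2 D h.z = (-(p ^ h.e 1)) • (1 : Λ ⊗[V] Λ) := by
  unfold z
  rw [map_sub, D2_tmul, D2_tmul, h.D_q1]
  simp only [Derivation.map_one_eq_zero, TensorProduct.tmul_zero, zero_sub]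
  rw [Algebra.algebraMap_eq_smul_one, TensorProduct.tmul_smul, neg_smul]
  rfl

theorem div_step (h : LocData V Λ D p) (t : Λ ⊗[V] Λ) (k : ℕ) (hk : h.e 1 ≤ k)
    (hw : ∃ w, h.z * w = p ^ k • t) : ∃ w, h.z * w = p ^ h.e 1 • t := by
  induction k, hk using Nat.le_induction with
  | base => exact hw
  | succ k hk ih =>
    obtain ⟨w, hw⟩ := hw
    have h1 : p ^ h.e 1 • w + h.z * D1 D w = p ^ (k + 1) • D1 D t := by
      have h2 := congrArg (D1 D) hw
      rw [Derivation.leibniz, h.D1_z, Derivation.map_smul] at h2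
      simp only [smul_eq_mul, mul_smul_comm, mul_one] at h2
      rw [← h2, add_comm]
    have h2 : p ^ h.e 1 • (w * w) = p ^ h.e 1 • (p • (p ^ (k - h.e 1) •
        (w * D1 D t - t * D1 D w))) := by
      have h3 : w * (p ^ h.e 1 • w + h.z * D1 D w) = w * (p ^ (k + 1) • D1 D t) := by rw [h1]
      have h4 : w * (h.z * D1 D w) = p ^ (k + 1) • (t * D1 D w) := by
        rw [← mul_assoc, mul_comm w, hw, smul_mul_assoc]
      rw [mul_add, h4, mul_smul_comm, mul_smul_comm] at h3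
      have h5 : p ^ h.e 1 • (w * w) = p ^ (k + 1) • (w * D1 D t - t * D1 D w) := by
        rw [smul_sub, ← h3]; abel
      rw [h5, smul_smul, smul_smul]
      congr 1
      have : k + 1 = h.e 1 + (1 + (k - h.e 1)) := by omega
      rw [this, pow_add, pow_add, pow_one, mul_assoc]
    have h3 := h.tcancel _ (h.ppow_ne _) _ _ h2
    obtain ⟨w', hw'⟩ := h.red w _ h3
    apply ih
    refine ⟨w', ?_⟩
    apply h.tcancel p h.ne
    rw [smul_smul, ← pow_succ', ← hw, hw', mul_smul_comm]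

/-- Every element becomes a polynomial in the slice after multiplication by a power of `p`. -/
theorem exists_poly (h : LocData V Λ D p) (n : ℕ) : ∀ x : Λ, (⇑D)^[n] x = 0 →
    ∃ (N : ℕ) (P : Polynomial V), p ^ N • x = Polynomial.aeval (h.q 1) P := by
  induction n with
  | zero =>
    intro x hx
    simp only [Function.iterate_zero, id] at hx
    exact ⟨0, 0, by rw [hx]; simp⟩
  | succ n ih =>
    intro x hx
    obtain ⟨v, hv⟩ := h.ker ((⇑D)^[n] x) (by rw [← Function.iterate_succ_apply' (⇑D), hx])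
    have hDD : D (D (h.q 1)) = 0 := by rw [h.D_q1, Derivation.map_algebraMap]
    have hpow := (pow_top D hDD n).1
    let y : Λ := (p ^ (h.e 1 * n) * (n.factorial : V)) • x - v • (h.q 1) ^ n
    have hy : (⇑D)^[n] y = 0 := by
      simp only [y]
      rw [iterate_map_sub, smul_iter, smul_iter, hpow, ← hv, h.D_q1, Algebra.smul_def,
        Algebra.smul_def]
      simp only [map_mul, map_pow, map_natCast]
      ring
    obtain ⟨N, P, hP⟩ := ih y hy
    by_cases hn : n.factorial = 0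
    · exact absurd hn (Nat.factorial_ne_zero n)
    obtain ⟨u, hu⟩ := h.unit _ hn
    refine ⟨N + h.e 1 * n, Polynomial.C (↑(u⁻¹) : V) * (P + Polynomial.C (p ^ N * v) *
      Polynomial.X ^ n), ?_⟩
    have h1 : p ^ N • y + (p ^ N * v) • (h.q 1) ^ n =
        (n.factorial : V) • (p ^ (N + h.e 1 * n) • x) := by
      simp only [y]
      rw [pow_add]
      module
    rw [map_mul, Polynomial.aeval_C, map_add, ← hP, map_mul, Polynomial.aeval_C, map_pow,
      Polynomial.aeval_X, ← Algebra.smul_def, ← Algebra.smul_def, h1, ← hu, smul_smul]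
    simp

theorem exists_w0 (h : LocData V Λ D p) (x : Λ) :
    ∃ (N : ℕ) (w : Λ ⊗[V] Λ), h.z * w = p ^ N • (x ⊗ₜ 1 - 1 ⊗ₜ x) := by
  obtain ⟨n, hn⟩ := h.lnd x
  obtain ⟨N, P, hP⟩ := h.exists_poly n x hn
  refine ⟨N, ?_⟩
  have h1 : (p ^ N • (x ⊗ₜ[V] (1 : Λ) - 1 ⊗ₜ x)) =
      Polynomial.aeval (h.q 1 ⊗ₜ[V] (1 : Λ)) P - Polynomial.aeval ((1 : Λ) ⊗ₜ[V] h.q 1) P := by
    have h2 : Polynomial.aeval (h.q 1 ⊗ₜ[V] (1 : Λ)) P =
        (Algebra.TensorProduct.includeLeft : Λ →ₐ[V] Λ ⊗[V] Λ) (Polynomial.aeval (h.q 1) P) := by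
      rw [← Polynomial.aeval_algHom_apply]
      rfl
    have h3 : Polynomial.aeval ((1 : Λ) ⊗ₜ[V] h.q 1) P =
        (Algebra.TensorProduct.includeRight : Λ →ₐ[V] Λ ⊗[V] Λ)
          (Polynomial.aeval (h.q 1) P) := by
      rw [← Polynomial.aeval_algHom_apply]
      rfl
    rw [h2, h3, ← hP, map_smul, map_smul, smul_sub]
    rfl
  rw [h1]
  have h4 := Polynomial.sub_dvd_eval_sub (h.q 1 ⊗ₜ[V] (1 : Λ)) ((1 : Λ) ⊗ₜ[V] h.q 1)
    (P.map (algebraMap V (Λ ⊗[V] Λ)))
  rw [← Polynomial.eval₂_eq_eval_map, ← Polynomial.eval₂_eq_eval_map, ← Polynomial.aeval_def,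
    ← Polynomial.aeval_def] at h4
  obtain ⟨w, hw⟩ := h4
  exact ⟨w, hw.symm⟩

/-- The divided difference, multiplied by `p ^ e 1`, is integral. -/
theorem exists_w (h : LocData V Λ D p) (x : Λ) :
    ∃ w : Λ ⊗[V] Λ, h.z * w = p ^ h.e 1 • (x ⊗ₜ 1 - 1 ⊗ₜ x) := by
  obtain ⟨N, w, hw⟩ := h.exists_w0 x
  apply h.div_step _ (N + h.e 1) (by omega)
  refine ⟨p ^ h.e 1 • w, ?_⟩
  rw [mul_smul_comm, hw, smul_smul, pow_add, mul_comm]

end LocData

end Pool.Agent.LNDHom
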