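import Mathlib
import Pool.Agent.LNDHom.Div

set_option autoImplicit false
set_option linter.unusedSectionVars false

open TensorProduct

namespace Pool.Agent.LNDHom

namespace LocData

variable {V Λ : Type*} [CommRing V] [IsDomain V] [CommRing Λ] [IsDomain Λ] [Algebra V Λ]
  {D : Derivation V Λ Λ} {p : V}

theorem D2_iter_D1_iter (D : Derivation V Λ Λ) (t : Λ ⊗[V] Λ) (a b : ℕ) :
    (⇑(D2 D))^[b] ((⇑(D1 D))^[a] t) = (⇑(D1 D))^[a] ((⇑(D2 D))^[b] t) := by
  induction b with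
  | zero => rfl
  | succ b ih => rw [Function.iterate_succ_apply', ih, ← D1_iter_D2, Function.iterate_succ_apply']

theorem iter_diff (D : Derivation V Λ Λ) (x : Λ) (a : ℕ) :
    (⇑(D1 D))^[a + 1] (x ⊗ₜ 1 - 1 ⊗ₜ x) = ((⇑D)^[a + 1] x) ⊗ₜ[V] (1 : Λ) := by
  rw [iterate_map_sub, D1_iter_tmul, D1_iter_tmul]
  have : (⇑D)^[a + 1] (1 : Λ) = 0 := by
    rw [Function.iterate_succ_apply, Derivation.map_one_eq_zero, iterate_map_zero]
  rw [this, TensorProduct.zero_tmul, sub_zero]

theorem iter_smul1 (D : Derivation V Λ Λ) (v : V) (t : Λ ⊗[V] Λ) (n : ℕ) :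
    (⇑(D1 D))^[n] (v • t) = v • (⇑(D1 D))^[n] t := by
  induction n generalizing t with
  | zero => rfl
  | succ n ih => rw [Function.iterate_succ_apply, Function.iterate_succ_apply,
      Derivation.map_smul, ih]

theorem iter_smul2 (D : Derivation V Λ Λ) (v : V) (t : Λ ⊗[V] Λ) (n : ℕ) :
    (⇑(D2 D))^[n] (v • t) = v • (⇑(D2 D))^[n] t := by
  induction n generalizing t with
  | zero => rfl
  | succ n ih => rw [Function.iterate_succ_apply, Function.iterate_succ_apply,
      Derivation.map_smul, ih]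

/-- Relation between the iterated derivatives of the divided difference. -/
theorem relU (h : LocData V Λ D p) {x : Λ} {w : Λ ⊗[V] Λ}
    (hw : h.z * w = p ^ h.e 1 • (x ⊗ₜ 1 - 1 ⊗ₜ x)) (a : ℕ) :
    h.z * (⇑(D1 D))^[a + 1] w + ((a + 1 : ℕ) : V) • (p ^ h.e 1 • (⇑(D1 D))^[a] w) =
      p ^ h.e 1 • (((⇑D)^[a + 1] x) ⊗ₜ[V] (1 : Λ)) := by
  rw [← iter_const_mul (D1 D) h.D1_z w a, hw, iter_smul1, iter_diff]

theorem U_zero (h : LocData V Λ D p) {x : Λ} {w : Λ ⊗[V] Λ}
    (hw : h.z * w = p ^ h.e 1 • (x ⊗ₜ 1 - 1 ⊗ₜ x)) {m : ℕ} (hx : (⇑D)^[m + 1] x = 0) :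
    (⇑(D1 D))^[m] w = 0 := by
  obtain ⟨n, hn⟩ := D1_lnd D h.lnd w
  have hmn : (⇑(D1 D))^[m + n] w = 0 := iter_zero_of_le _ hn (by omega)
  clear hn
  induction n with
  | zero => exact hmn
  | succ n ih =>
    apply ih
    have h1 := h.relU hw (m + n)
    have h2 : (⇑(D1 D))^[m + n + 1] w = 0 := by rw [← hmn]; rfl
    have h3 : (⇑D)^[m + n + 1] x = 0 := iter_zero_of_le D hx (by omega)
    rw [h2, h3, mul_zero, zero_add, TensorProduct.zero_tmul, smul_zero, smul_smul] at h1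
    refine h.tfree _ ?_ _ h1
    apply mul_ne_zero _ (h.ppow_ne _)
    exact (h.unit _ (by omega)).ne_zero

theorem U_prop (h : LocData V Λ D p) {x : Λ} {w : Λ ⊗[V] Λ}
    (hw : h.z * w = p ^ h.e 1 • (x ⊗ₜ 1 - 1 ⊗ₜ x)) {m : ℕ} {v : V}
    (hx : (⇑D)^[m + 1] x = algebraMap V Λ v) (d : ℕ) (hd : d ≤ m) :
    (∀ b, d + 1 ≤ b → (⇑(D2 D))^[b] ((⇑(D1 D))^[m - d] w) = 0) ∧
    ∃ γ : V, IsUnit γ ∧ (⇑(D2 D))^[d] ((⇑(D1 D))^[m - d] w) = (γ * v) • (1 : Λ ⊗[V] Λ) := by
  have hx2 : (⇑D)^[m + 2] x = 0 := by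
    rw [Function.iterate_succ_apply', hx, Derivation.map_algebraMap]
  induction d with
  | zero =>
    have h1 := h.relU hw m
    rw [h.U_zero hw hx2, hx, mul_zero, zero_add, smul_comm] at h1
    have h2 := h.tcancel _ (h.ppow_ne _) _ _ h1
    obtain ⟨u, hu⟩ := h.unit (m + 1) (by omega)
    have h3 : (⇑(D1 D))^[m] w = ((↑(u⁻¹) : V) * v) • (1 : Λ ⊗[V] Λ) := by
      have h4 : (↑(u⁻¹) : V) • (((m + 1 : ℕ) : V) • (⇑(D1 D))^[m] w) =
          (↑(u⁻¹) : V) • (algebraMap V Λ v ⊗ₜ[V] (1 : Λ)) := by rw [h2]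
      rw [smul_smul, ← hu, Units.inv_mul, one_smul] at h4
      rw [h4, Algebra.algebraMap_eq_smul_one, ← TensorProduct.smul_tmul', smul_smul]
      rfl
    constructor
    · intro b hb
      rw [Nat.sub_zero, h3]
      apply iter_zero_of_le _ _ hb
      simp
    · exact ⟨↑(u⁻¹), Units.isUnit _, by rw [Nat.sub_zero, h3]; rfl⟩
  | succ d ih =>
    obtain ⟨ih1, γ, hγ, ih2⟩ := ih (by omega)
    have h1 := h.relU hw (m - (d + 1))
    have h2 : m - (d + 1) + 1 = m - d := by omega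
    rw [h2] at h1
    have key : ∀ b, d ≤ b → ((m - d : ℕ) : V) • (⇑(D2 D))^[b + 1] ((⇑(D1 D))^[m - (d + 1)] w) =
        ((b + 1 : ℕ) : V) • (⇑(D2 D))^[b] ((⇑(D1 D))^[m - d] w) := by
      intro b hb
      have h3 := congrArg (⇑(D2 D))^[b + 1] h1
      rw [iterate_map_add, iter_const_mul (D2 D) h.D2_z, ih1 (b + 1) (by omega), mul_zero,
        zero_add, iter_smul2, iter_smul2, iter_smul2, D2_iter_tmul] at h3
      have h4 : (⇑D)^[b + 1] (1 : Λ) = 0 := by
        rw [Function.iterate_succ_apply, Derivation.map_one_eq_zero, iterate_map_zero]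
      rw [h4, TensorProduct.tmul_zero, smul_zero] at h3
      apply h.tcancel _ (h.ppow_ne (h.e 1))
      rw [neg_smul, smul_neg] at h3
      rw [smul_comm (p ^ h.e 1) ((b + 1 : ℕ) : V), smul_comm (p ^ h.e 1) ((m - d : ℕ) : V)]
      rw [neg_add_eq_zero] at h3
      exact h3.symm
    obtain ⟨u, hu⟩ := h.unit (m - d) (by omega)
    have hinv : ∀ t t' : Λ ⊗[V] Λ, ((m - d : ℕ) : V) • t = t' → t = (↑(u⁻¹) : V) • t' := by
      intro t t' ht
      rw [← ht, smul_smul, ← hu, Units.inv_mul, one_smul]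
    constructor
    · intro b hb
      obtain ⟨b, rfl⟩ : ∃ b', b = b' + 1 := ⟨b - 1, by omega⟩
      have h5 := hinv _ _ (key b (by omega))
      rw [h5, ih1 b (by omega), smul_zero, smul_zero]
    · have h5 := hinv _ _ (key d le_rfl)
      refine ⟨↑(u⁻¹) * (((d + 1 : ℕ) : V) * γ),
        (Units.isUnit _).mul ((h.unit _ (by omega)).mul hγ), ?_⟩
      rw [h5, ih2, smul_smul, smul_smul]
      congr 1
      ring

theorem D1_iter_sum (D : Derivation V Λ Λ) {ι : Type*} (s : Finset ι) (f : ι → Λ ⊗[V] Λ)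
    (n : ℕ) : (⇑(D1 D))^[n] (∑ i ∈ s, f i) = ∑ i ∈ s, (⇑(D1 D))^[n] (f i) := by
  classical
  induction s using Finset.induction_on with
  | empty => simp
  | insert a s ha ih => rw [Finset.sum_insert ha, Finset.sum_insert ha, iterate_map_add, ih]

theorem D2_iter_sum (D : Derivation V Λ Λ) {ι : Type*} (s : Finset ι) (f : ι → Λ ⊗[V] Λ)
    (n : ℕ) : (⇑(D2 D))^[n] (∑ i ∈ s, f i) = ∑ i ∈ s, (⇑(D2 D))^[n] (f i) := by
  classical
  induction s using Finset.induction_on with
  | empty => simp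
  | insert a s ha ih => rw [Finset.sum_insert ha, Finset.sum_insert ha, iterate_map_add, ih]

/-- The local divisibility. -/
theorem main (h : LocData V Λ D p) (i j : ℕ) (x : Λ) (v : V)
    (hx : (⇑D)^[i + j + 1] x = algebraMap V Λ v) : p ^ (h.e i + h.e j) ∣ v := by
  classical
  obtain ⟨w, hw⟩ := h.exists_w x
  set m := i + j with hm
  have hx2 : (⇑D)^[m + 2] x = 0 := by
    rw [Function.iterate_succ_apply', hx, Derivation.map_algebraMap]
  obtain ⟨c, hc⟩ := TensorProduct.eq_repr_basis_left h.basis w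
  have hc' : w = ∑ k ∈ c.support, h.q k ⊗ₜ[V] c k := by
    rw [← hc, Finsupp.sum]
    apply Finset.sum_congr rfl
    intro k _
    rw [basis_apply]
  have hU : ∀ a b, (⇑(D2 D))^[b] ((⇑(D1 D))^[a] w) =
      ∑ k ∈ c.support, ((⇑D)^[a] (h.q k)) ⊗ₜ[V] ((⇑D)^[b] (c k)) := by
    intro a b
    rw [hc', D1_iter_sum, D2_iter_sum]
    apply Finset.sum_congr rfl
    intro k _
    rw [D1_iter_tmul, D2_iter_tmul]
  have hvan : ∀ a b, m + 1 ≤ a + b → (⇑(D2 D))^[b] ((⇑(D1 D))^[a] w) = 0 := by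
    intro a b hab
    rcases Nat.lt_or_ge m a with h1 | h1
    · rw [iter_zero_of_le _ (h.U_zero hw hx2) (show m + 1 ≤ a from h1), iterate_map_zero]
    · have h2 := (h.U_prop hw hx (m - a) (by omega)).1 b (by omega)
      rwa [show m - (m - a) = a by omega] at h2
  -- the coefficients have small degree
  have hdeg' : ∀ d k, c.support.sup id + 1 ≤ k + d → ∀ b, m + 1 ≤ b + k →
      (⇑D)^[b] (c k) = 0 := by
    intro d
    induction d with
    | zero =>
      intro k hk b _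
      have h1 : k ∉ c.support := by
        intro h2
        have h3 : k ≤ c.support.sup id := Finset.le_sup (f := id) h2
        omega
      rw [Finsupp.notMem_support_iff.mp h1, iterate_map_zero]
    | succ d ih =>
      intro k hk b hb
      by_cases hks : k ∈ c.support
      · have h1 := hvan k b (by omega)
        rw [hU, Finset.sum_eq_single k] at h1
        · rw [h.iter_q] at h1
          have h5 := congrArg (Algebra.TensorProduct.lmul' (S := Λ) V) h1
          rw [Algebra.TensorProduct.lmul'_apply_tmul, map_zero] at h5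
          rcases mul_eq_zero.mp h5 with h6 | h6
          · exact absurd h6 (h.pne _)
          · exact h6
        · intro k' _ hk'
          rcases Nat.lt_or_ge k' k with h2 | h2
          · rw [iter_zero_of_le D (h.iter_succ_q k') (show k' + 1 ≤ k from h2),
              TensorProduct.zero_tmul]
          · rw [ih k' (by omega) b (by omega), TensorProduct.tmul_zero]
        · intro h2
          exact absurd hks h2
      · rw [Finsupp.notMem_support_iff.mp hks, iterate_map_zero]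
  have hdeg : ∀ k b, m + 1 ≤ b + k → (⇑D)^[b] (c k) = 0 := fun k b hb =>
    hdeg' (c.support.sup id + 1) k (by omega) b hb
  -- extraction
  obtain ⟨γ, hγ, h3⟩ := (h.U_prop hw hx j (by omega)).2
  rw [show m - j = i by omega, hU, Finset.sum_eq_single i] at h3
  · rw [h.iter_q] at h3
    have h4 : (⇑D)^[j + 1] (c i) = 0 := hdeg i (j + 1) (by omega)
    obtain ⟨v', hv'⟩ := h.ker ((⇑D)^[j] (c i)) (by rw [← Function.iterate_succ_apply' (⇑D), h4])
    obtain ⟨v'', hv''⟩ := h.e_dvd j _ _ hv'.symm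
    rw [← hv', hv''] at h3
    have h5 := congrArg (Algebra.TensorProduct.lmul' (S := Λ) V) h3
    rw [Algebra.TensorProduct.lmul'_apply_tmul, map_smul, map_one, ← map_mul,
      ← Algebra.algebraMap_eq_smul_one] at h5
    have h6 := h.inj h5
    have h7 : p ^ (h.e i + h.e j) ∣ γ * v := ⟨v'', by rw [← h6, pow_add]; ring⟩
    exact (hγ.dvd_mul_left).mp h7
  · intro k _ hk
    rcases Nat.lt_or_ge k i with h1 | h1
    · rw [iter_zero_of_le D (h.iter_succ_q k) (show k + 1 ≤ i from h1), TensorProduct.zero_tmul]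
    · rw [hdeg k j (by omega), TensorProduct.tmul_zero]
  · intro hi
    rw [Finsupp.notMem_support_iff.mp hi, iterate_map_zero, TensorProduct.tmul_zero]

/-- The local divisibility without reference to the exponents. -/
theorem main' (h : LocData V Λ D p) (i j s t : ℕ)
    (hs : ∀ x v, (⇑D)^[i] x = algebraMap V Λ v → p ^ s ∣ v)
    (ht : ∀ x v, (⇑D)^[j] x = algebraMap V Λ v → p ^ t ∣ v)
    (x : Λ) (v : V) (hx : (⇑D)^[i + j + 1] x = algebraMap V Λ v) : p ^ (s + t) ∣ v := by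
  have h1 : s ≤ h.e i := (pow_dvd_pow_iff h.ne h.nu).mp (hs _ _ (h.iter_q i))
  have h2 : t ≤ h.e j := (pow_dvd_pow_iff h.ne h.nu).mp (ht _ _ (h.iter_q j))
  exact (pow_dvd_pow p (by omega)).trans (h.main i j x v hx)

end LocData

end Pool.Agent.LNDHom
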