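import Mathlib
import Pool.Agent.LNDHom.Main

set_option autoImplicit false
set_option linter.unusedSectionVars false

namespace Pool.Agent.LNDHom

section

variable {k B : Type*} [Field k] [CommRing B] [IsDomain B] [Algebra k B]

/-- the multiplicative set of constants prime to `p` -/
def locM (D : Derivation k B B) (p : B) (hp : Prime p) : Submonoid B where
  carrier := {s | D s = 0 ∧ ¬ p ∣ s}
  mul_mem' := by
    rintro a b ⟨ha, ha'⟩ ⟨hb, hb'⟩
    refine ⟨by simp [ha, hb], fun h => ?_⟩
    rcases hp.dvd_or_dvd h with h | h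
    · exact ha' h
    · exact hb' h
  one_mem' := ⟨by simp, fun h => hp.not_isUnit (isUnit_of_dvd_one h)⟩

variable (D : Derivation k B B) (p : B) (hp : Prime p)

theorem D_pow_mul (D : Derivation k B B) {p : B} (hDp : D p = 0) (n : ℕ) (c : B) :
    D (p ^ n * c) = p ^ n * D c := by
  rw [Derivation.leibniz, Derivation.leibniz_pow, hDp]
  simp

theorem locM_le : locM D p hp ≤ nonZeroDivisors B := by
  rintro s ⟨_, h2⟩
  rw [mem_nonZeroDivisors_iff_ne_zero]
  rintro rfl
  exact h2 (dvd_zero _)

/-- the localization -/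
abbrev Loc : Type _ := Localization (locM D p hp)

instance : IsDomain (Loc D p hp) := IsLocalization.isDomain_localization (locM_le D p hp)

theorem Loc.inj : Function.Injective (algebraMap B (Loc D p hp)) :=
  IsLocalization.injective _ (locM_le D p hp)

/-- the extended derivation as a function -/
noncomputable def dL (x : Loc D p hp) : Loc D p hp :=
  IsLocalization.mk' _ (D (IsLocalization.sec (locM D p hp) x).1)
    (IsLocalization.sec (locM D p hp) x).2

theorem dL_mk (b : B) (s : locM D p hp) :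
    dL D p hp (IsLocalization.mk' _ b s) = IsLocalization.mk' _ (D b) s := by
  unfold dL
  set c := (IsLocalization.sec (locM D p hp) (IsLocalization.mk' (Loc D p hp) b s)).1 with hc
  set t := (IsLocalization.sec (locM D p hp) (IsLocalization.mk' (Loc D p hp) b s)).2 with ht
  have h1 : IsLocalization.mk' (Loc D p hp) c t = IsLocalization.mk' (Loc D p hp) b s :=
    IsLocalization.mk'_sec _ _
  rw [IsLocalization.mk'_eq_iff_eq] at h1 ⊢
  have h2 := Loc.inj D p hp h1
  congr 1
  have h3 := congrArg D h2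
  rw [Derivation.leibniz, Derivation.leibniz, s.2.1, t.2.1] at h3
  simpa using h3

theorem dL_add (x y : Loc D p hp) : dL D p hp (x + y) = dL D p hp x + dL D p hp y := by
  obtain ⟨b, s, rfl⟩ := IsLocalization.exists_mk'_eq (locM D p hp) x
  obtain ⟨c, t, rfl⟩ := IsLocalization.exists_mk'_eq (locM D p hp) y
  rw [← IsLocalization.mk'_add, dL_mk, dL_mk, dL_mk, ← IsLocalization.mk'_add]
  congr 1
  rw [map_add, Derivation.leibniz, Derivation.leibniz, s.2.1, t.2.1]
  simp [mul_comm]

theorem dL_mul (x y : Loc D p hp) :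
    dL D p hp (x * y) = x * dL D p hp y + y * dL D p hp x := by
  obtain ⟨b, s, rfl⟩ := IsLocalization.exists_mk'_eq (locM D p hp) x
  obtain ⟨c, t, rfl⟩ := IsLocalization.exists_mk'_eq (locM D p hp) y
  rw [← IsLocalization.mk'_mul, dL_mk, dL_mk, dL_mk, ← IsLocalization.mk'_mul,
    ← IsLocalization.mk'_mul, mul_comm t s, Derivation.leibniz,
    IsLocalization.mk'_eq_mul_mk'_one, IsLocalization.mk'_eq_mul_mk'_one (b * D c),
    IsLocalization.mk'_eq_mul_mk'_one (c * D b), ← add_mul, ← map_add]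
  rfl

/-- the extended derivation -/
noncomputable def derL : Derivation k (Loc D p hp) (Loc D p hp) where
  toFun := dL D p hp
  map_add' := dL_add D p hp
  map_smul' := by
    intro c x
    rw [RingHom.id_apply, Algebra.smul_def, dL_mul]
    have h1 : dL D p hp (algebraMap k (Loc D p hp) c) = 0 := by
      rw [IsScalarTower.algebraMap_apply k B (Loc D p hp),
        ← IsLocalization.mk'_one (M := locM D p hp), dL_mk, Derivation.map_algebraMap]
      exact IsLocalization.mk'_zero _
    rw [h1, mul_zero, add_zero, Algebra.smul_def]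
  map_one_eq_zero' := by
    change dL D p hp 1 = 0
    rw [← map_one (algebraMap B (Loc D p hp)), ← IsLocalization.mk'_one (M := locM D p hp), dL_mk,
      Derivation.map_one_eq_zero]
    exact IsLocalization.mk'_zero _
  leibniz' := by
    intro x y
    exact dL_mul D p hp x y

theorem derL_mk (b : B) (s : locM D p hp) :
    derL D p hp (IsLocalization.mk' _ b s) = IsLocalization.mk' _ (D b) s := dL_mk D p hp b s

theorem derL_alg (b : B) :
    derL D p hp (algebraMap B _ b) = algebraMap B _ (D b) := by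
  rw [← IsLocalization.mk'_one (M := locM D p hp), derL_mk, IsLocalization.mk'_one]

theorem derL_iter_mk (b : B) (s : locM D p hp) (n : ℕ) :
    (⇑(derL D p hp))^[n] (IsLocalization.mk' _ b s) = IsLocalization.mk' _ ((⇑D)^[n] b) s := by
  induction n generalizing b with
  | zero => rfl
  | succ n ih => rw [Function.iterate_succ_apply, derL_mk, ih, Function.iterate_succ_apply]

theorem mk_eq_zero (b : B) (s : locM D p hp) (h : IsLocalization.mk' (Loc D p hp) b s = 0) :
    b = 0 := by
  rw [IsLocalization.mk'_eq_zero_iff] at h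
  obtain ⟨t, ht⟩ := h
  rcases mul_eq_zero.mp ht with h1 | h1
  · exact absurd t.2.2 (by rw [h1]; simp)
  · exact h1

/-- The ring of constants of the localization. -/
noncomputable abbrev VL : Subalgebra k (Loc D p hp) := kerAlg (derL D p hp)

/-- the derivation over the constants -/
noncomputable def derV : Derivation (VL D p hp) (Loc D p hp) (Loc D p hp) where
  toFun := derL D p hp
  map_add' := map_add _
  map_smul' := by
    intro c x
    have hc : derL D p hp (c : Loc D p hp) = 0 := c.2
    rw [RingHom.id_apply, Algebra.smul_def, Derivation.leibniz]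
    change _ • _ + x • derL D p hp (c : Loc D p hp) = _
    rw [hc, smul_zero, add_zero, smul_eq_mul, Algebra.smul_def]
  map_one_eq_zero' := (derL D p hp).map_one_eq_zero
  leibniz' := (derL D p hp).leibniz

theorem derV_apply (x : Loc D p hp) : derV D p hp x = derL D p hp x := rfl

theorem derV_iter (x : Loc D p hp) (n : ℕ) :
    (⇑(derV D p hp))^[n] x = (⇑(derL D p hp))^[n] x := rfl

theorem dvd_mk_iff (hDp : D p = 0) (b : B) (s : locM D p hp) :
    algebraMap B (Loc D p hp) p ∣ IsLocalization.mk' _ b s ↔ p ∣ b := by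
  constructor
  · rintro ⟨y, hy⟩
    obtain ⟨c, t, rfl⟩ := IsLocalization.exists_mk'_eq (locM D p hp) y
    rw [← IsLocalization.mk'_one (M := locM D p hp), ← IsLocalization.mk'_mul, one_mul,
      IsLocalization.mk'_eq_iff_eq] at hy
    have h2 := Loc.inj D p hp hy
    have h3 : p ∣ (t : B) * b := ⟨s * c, by rw [h2]; ring⟩
    rcases hp.dvd_or_dvd h3 with h4 | h4
    · exact absurd h4 t.2.2
    · exact h4
  · rintro ⟨c, rfl⟩
    refine ⟨IsLocalization.mk' _ c s, ?_⟩
    rw [← IsLocalization.mk'_one (M := locM D p hp), ← IsLocalization.mk'_mul, one_mul]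

theorem locData [CharZero k] [WfDvdMonoid B] (hDp : D p = 0)
    (hln : ∀ x, ∃ n, (⇑D)^[n] x = 0) (hnd : ∃ x, ¬ p ∣ D x) :
    LocData (VL D p hp) (Loc D p hp) (derV D p hp)
      ⟨algebraMap B (Loc D p hp) p, by rw [mem_kerAlg, derL_alg, hDp, map_zero]⟩ where
  inj := Subtype.val_injective
  ne := by
    intro h0
    have h1 := congrArg Subtype.val h0
    exact hp.ne_zero (Loc.inj D p hp (by rw [map_zero]; exact h1))
  nu := by
    rintro ⟨u, hu⟩
    have h1 : algebraMap B (Loc D p hp) p ∣ IsLocalization.mk' _ 1 (1 : locM D p hp) := by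
      refine ⟨((↑(u⁻¹) : VL D p hp) : Loc D p hp), ?_⟩
      have h2 : (u : VL D p hp) * (↑(u⁻¹) : VL D p hp) = 1 := Units.mul_inv u
      rw [hu] at h2
      have h3 := congrArg Subtype.val h2
      rw [IsLocalization.mk'_one, map_one]
      exact h3.symm
    rw [dvd_mk_iff D p hp hDp] at h1
    exact hp.not_isUnit (isUnit_of_dvd_one h1)
  val := by
    rintro ⟨v, hv⟩ hv0
    obtain ⟨b, s, rfl⟩ := IsLocalization.exists_mk'_eq (locM D p hp) v
    have hb0 : b ≠ 0 := by
      rintro rfl
      apply hv0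
      apply Subtype.ext
      exact IsLocalization.mk'_zero _
    have hDb : D b = 0 := by
      rw [mem_kerAlg, derL_mk] at hv
      exact mk_eq_zero D p hp _ _ hv
    obtain ⟨n, c, hpc, hbc⟩ := WfDvdMonoid.max_power_factor hb0 hp.irreducible
    have hDc : D c = 0 := by
      rw [hbc, D_pow_mul D hDp] at hDb
      rcases mul_eq_zero.mp hDb with h1 | h1
      · exact absurd h1 (pow_ne_zero n hp.ne_zero)
      · exact h1
    have hcM : c ∈ locM D p hp := ⟨hDc, hpc⟩
    refine ⟨n, ⟨IsLocalization.mk' _ c s, by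
      rw [mem_kerAlg, derL_mk, hDc]; exact IsLocalization.mk'_zero _⟩, ?_, ?_⟩
    · refine IsUnit.of_mul_eq_one ⟨IsLocalization.mk' _ (s : B) ⟨c, hcM⟩, by
        rw [mem_kerAlg, derL_mk, s.2.1]; exact IsLocalization.mk'_zero _⟩ ?_
      apply Subtype.ext
      exact IsLocalization.mk'_mul_mk'_eq_one' c s hcM
    · apply Subtype.ext
      simp only [MulMemClass.mk_mul_mk, SubmonoidClass.mk_pow]
      rw [hbc, ← IsLocalization.mk'_one (M := locM D p hp), ← IsLocalization.mk'_pow, one_pow,
        ← IsLocalization.mk'_mul, one_mul]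
  unit := by
    intro n hn
    have h1 : ((n : ℕ) : VL D p hp) = algebraMap k (VL D p hp) (n : k) := by simp
    rw [h1]
    apply IsUnit.map
    rw [isUnit_iff_ne_zero]
    exact_mod_cast hn
  lnd := by
    intro x
    obtain ⟨b, s, rfl⟩ := IsLocalization.exists_mk'_eq (locM D p hp) x
    obtain ⟨n, hn⟩ := hln b
    refine ⟨n, ?_⟩
    rw [derV_iter, derL_iter_mk, hn]
    exact IsLocalization.mk'_zero _
  ker := fun x hx => ⟨⟨x, hx⟩, rfl⟩
  prime := by
    have h0 : algebraMap (VL D p hp) (Loc D p hp) ⟨algebraMap B (Loc D p hp) p, by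
        rw [mem_kerAlg, derL_alg, hDp, map_zero]⟩ = algebraMap B (Loc D p hp) p := rfl
    rw [h0]
    refine ⟨?_, ?_, ?_⟩
    · intro h1
      exact hp.ne_zero (Loc.inj D p hp (by rw [map_zero]; exact h1))
    · intro h1
      have h2 : algebraMap B (Loc D p hp) p ∣ IsLocalization.mk' _ 1 (1 : locM D p hp) :=
        h1.dvd
      rw [dvd_mk_iff D p hp hDp] at h2
      exact hp.not_isUnit (isUnit_of_dvd_one h2)
    · intro x y hxy
      obtain ⟨b, s, rfl⟩ := IsLocalization.exists_mk'_eq (locM D p hp) x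
      obtain ⟨c, t, rfl⟩ := IsLocalization.exists_mk'_eq (locM D p hp) y
      rw [← IsLocalization.mk'_mul, dvd_mk_iff D p hp hDp] at hxy
      rw [dvd_mk_iff D p hp hDp, dvd_mk_iff D p hp hDp]
      exact hp.dvd_or_dvd hxy
  ndvd := by
    obtain ⟨x, hx⟩ := hnd
    refine ⟨algebraMap B _ x, ?_⟩
    intro h1
    have h2 : algebraMap B (Loc D p hp) p ∣ derL D p hp (algebraMap B (Loc D p hp) x) := h1
    rw [derL_alg, ← IsLocalization.mk'_one (M := locM D p hp) (Loc D p hp) (D x)] at h2
    exact hx ((dvd_mk_iff D p hp hDp _ _).mp h2)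

include hp in
/-- The divisibility for a prime constant `p` such that `D` is not divisible by `p`. -/
theorem loc_prime [CharZero k] [WfDvdMonoid B] (hDp : D p = 0)
    (hln : ∀ x, ∃ n, (⇑D)^[n] x = 0) (hnd : ∃ x, ¬ p ∣ D x) (i j s t : ℕ)
    (hs : ∀ x, (⇑D)^[i + 1] x = 0 → p ^ s ∣ (⇑D)^[i] x)
    (ht : ∀ x, (⇑D)^[j + 1] x = 0 → p ^ t ∣ (⇑D)^[j] x)
    (x : B) (hx : (⇑D)^[i + j + 2] x = 0) : p ^ (s + t) ∣ (⇑D)^[i + j + 1] x := by
  have hL := locData D p hp hDp hln hnd
  have hpV : derL D p hp (algebraMap B (Loc D p hp) p) = 0 := by rw [derL_alg, hDp, map_zero]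
  set P : VL D p hp := ⟨algebraMap B (Loc D p hp) p, hpV⟩ with hP
  -- transfer of divisibility
  have key : ∀ (n s : ℕ), (∀ x, (⇑D)^[n + 1] x = 0 → p ^ s ∣ (⇑D)^[n] x) →
      ∀ x v, (⇑(derV D p hp))^[n] x = algebraMap (VL D p hp) (Loc D p hp) v → P ^ s ∣ v := by
    intro n s hs x v hxv
    obtain ⟨b, σ, rfl⟩ := IsLocalization.exists_mk'_eq (locM D p hp) x
    rw [derV_iter, derL_iter_mk] at hxv
    have hv : derL D p hp (v : Loc D p hp) = 0 := v.2
    have h1 : D ((⇑D)^[n] b) = 0 := by
      have h2 : derL D p hp (IsLocalization.mk' (Loc D p hp) ((⇑D)^[n] b) σ) = 0 := by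
        rw [hxv]; exact hv
      rw [derL_mk] at h2
      exact mk_eq_zero D p hp _ _ h2
    obtain ⟨c, hc⟩ := hs b (by rw [Function.iterate_succ_apply', h1])
    have hDc : D c = 0 := by
      rw [hc, D_pow_mul D hDp] at h1
      rcases mul_eq_zero.mp h1 with h1 | h1
      · exact absurd h1 (pow_ne_zero s hp.ne_zero)
      · exact h1
    refine ⟨⟨IsLocalization.mk' _ c σ, by
      rw [mem_kerAlg, derL_mk, hDc]; exact IsLocalization.mk'_zero _⟩, ?_⟩
    apply Subtype.ext
    change (v : Loc D p hp) = (algebraMap B (Loc D p hp) p) ^ s * IsLocalization.mk' _ c σ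
    have h3 : (v : Loc D p hp) = IsLocalization.mk' (Loc D p hp) ((⇑D)^[n] b) σ := hxv.symm
    rw [h3, hc, ← IsLocalization.mk'_one (M := locM D p hp), ← IsLocalization.mk'_pow, one_pow,
      ← IsLocalization.mk'_mul, one_mul]
  have hDx : D ((⇑D)^[i + j + 1] x) = 0 := by
    rw [← Function.iterate_succ_apply' (⇑D)]; exact hx
  have h1 := hL.main' i j s t (key i s hs) (key j t ht) (algebraMap B _ x)
    ⟨algebraMap B _ ((⇑D)^[i + j + 1] x), by rw [mem_kerAlg, derL_alg, hDx, map_zero]⟩ (by
      rw [derV_iter, ← IsLocalization.mk'_one (M := locM D p hp), derL_iter_mk,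
        IsLocalization.mk'_one]
      rfl)
  obtain ⟨w, hw⟩ := h1
  have h2 := congrArg Subtype.val hw
  have h3 : algebraMap B (Loc D p hp) ((⇑D)^[i + j + 1] x) =
      (algebraMap B (Loc D p hp) p) ^ (s + t) * (w : Loc D p hp) := h2
  obtain ⟨c, σ, hcσ⟩ := IsLocalization.exists_mk'_eq (locM D p hp) (w : Loc D p hp)
  rw [← hcσ, ← map_pow, ← IsLocalization.mk'_one (M := locM D p hp),
    ← IsLocalization.mk'_one (M := locM D p hp) (Loc D p hp) (p ^ (s + t)),
    ← IsLocalization.mk'_mul, one_mul, IsLocalization.mk'_eq_iff_eq] at h3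
  have h4 := Loc.inj D p hp h3
  have h5 : p ^ (s + t) ∣ (σ : B) * (⇑D)^[i + j + 1] x := ⟨c, by rw [h4]; simp⟩
  exact hp.pow_dvd_of_dvd_mul_left _ σ.2.2 h5

end

end Pool.Agent.LNDHom
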