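import Mathlib
import Pool.Agent.LNDHom.LocB

set_option autoImplicit false
set_option linter.unusedSectionVars false

namespace Pool.Agent.LNDHom

section

variable {k B : Type*} [Field k] [CommRing B] [IsDomain B] [Algebra k B]

/-- Dividing a derivation by an element. -/
theorem exists_div (D : Derivation k B B) (c : B) (hc : c ≠ 0) (h : ∀ x, c ∣ D x) :
    ∃ D' : Derivation k B B, ∀ x, D x = c * D' x := by
  choose f hf using h
  let L : B →ₗ[k] B :=
    { toFun := f
      map_add' := by
        intro x y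
        apply mul_left_cancel₀ hc
        rw [← hf, map_add, hf x, hf y]; ring
      map_smul' := by
        intro r x
        apply mul_left_cancel₀ hc
        rw [← hf, Derivation.map_smul, hf x, RingHom.id_apply, mul_smul_comm] }
  refine ⟨Derivation.mk' L ?_, hf⟩
  intro x y
  apply mul_left_cancel₀ hc
  change c * f (x * y) = c * (x • f y + y • f x)
  rw [← hf, Derivation.leibniz, hf x, hf y]
  simp only [smul_eq_mul]
  ring

theorem div_iter (D D' : Derivation k B B) (c : B) (hc : D' c = 0)
    (h : ∀ x, D x = c * D' x) (n : ℕ) (x : B) : (⇑D)^[n] x = c ^ n * (⇑D')^[n] x := by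
  induction n generalizing x with
  | zero => simp
  | succ n ih =>
    rw [Function.iterate_succ_apply, ih, h]
    have h1 : ∀ m y, (⇑D')^[m] (c * y) = c * (⇑D')^[m] y := by
      intro m
      induction m with
      | zero => intro y; rfl
      | succ m ih2 =>
        intro y
        rw [Function.iterate_succ_apply, Derivation.leibniz, hc, smul_zero, add_zero, smul_eq_mul,
          ih2, Function.iterate_succ_apply]
    rw [h1, Function.iterate_succ_apply]
    ring

/-- The divisibility for an arbitrary prime constant. -/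
theorem loc_gen [CharZero k] [WfDvdMonoid B] {p : B} (hp : Prime p) (x0 : B) (n : ℕ) :
    ∀ (D : Derivation k B B), D p = 0 → (∀ x, ∃ n, (⇑D)^[n] x = 0) → ¬ p ^ (n + 1) ∣ D x0 →
    ∀ (i j s t : ℕ), (∀ x, (⇑D)^[i + 1] x = 0 → p ^ s ∣ (⇑D)^[i] x) →
    (∀ x, (⇑D)^[j + 1] x = 0 → p ^ t ∣ (⇑D)^[j] x) →
    ∀ x, (⇑D)^[i + j + 2] x = 0 → p ^ (s + t) ∣ (⇑D)^[i + j + 1] x := by
  induction n with
  | zero =>
    intro D hDp hln hnd i j s t hs ht x hx
    exact loc_prime D p hp hDp hln ⟨x0, by simpa using hnd⟩ i j s t hs ht x hx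
  | succ n ih =>
    intro D hDp hln hnd i j s t hs ht x hx
    by_cases hall : ∃ x, ¬ p ∣ D x
    · exact loc_prime D p hp hDp hln hall i j s t hs ht x hx
    · push Not at hall
      obtain ⟨D', hD'⟩ := exists_div D p hp.ne_zero hall
      have hD'p : D' p = 0 := by
        have h1 := hD' p
        rw [hDp] at h1
        rcases mul_eq_zero.mp h1.symm with h2 | h2
        · exact absurd h2 hp.ne_zero
        · exact h2
      have hit := div_iter D D' p hD'p hD'
      have hz : ∀ n x, (⇑D)^[n] x = 0 ↔ (⇑D')^[n] x = 0 := by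
        intro n x
        rw [hit]
        constructor
        · intro h1
          rcases mul_eq_zero.mp h1 with h2 | h2
          · exact absurd h2 (pow_ne_zero n hp.ne_zero)
          · exact h2
        · intro h1
          rw [h1, mul_zero]
      have key : ∀ (i s : ℕ), (∀ x, (⇑D)^[i + 1] x = 0 → p ^ s ∣ (⇑D)^[i] x) →
          (∀ x, (⇑D')^[i + 1] x = 0 → p ^ (s - i) ∣ (⇑D')^[i] x) := by
        intro i s hs x hx
        rcases Nat.lt_or_ge i s with h1 | h1
        · have h2 := hs x ((hz _ _).mpr hx)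
          rw [hit, show s = i + (s - i) by omega, pow_add] at h2
          have h3 := (mul_dvd_mul_iff_left (pow_ne_zero i hp.ne_zero)).mp h2
          simpa using h3
        · rw [show s - i = 0 by omega, pow_zero]
          exact one_dvd _
      have h1 := ih D' hD'p (fun x => by
        obtain ⟨n, hn⟩ := hln x
        exact ⟨n, (hz _ _).mp hn⟩) (by
        intro h2
        apply hnd
        rw [hD', pow_succ']
        exact mul_dvd_mul_left p h2) i j (s - i) (t - j) (key i s hs) (key j t ht) x
        ((hz _ _).mp hx)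
      rw [hit]
      have h2 : p ^ (s + t) ∣ p ^ (i + j + 1) * p ^ (s - i + (t - j)) := by
        rw [← pow_add]
        exact pow_dvd_pow p (by omega)
      exact h2.trans (mul_dvd_mul_left _ h1)

/-- The general divisibility: if the constants `c`, `c'` divide the ideals `I_i`, `I_j`, then
`c c'` divides `I_(i+j+1)`. -/
theorem dvd_gen [CharZero k] [UniqueFactorizationMonoid B] (D : Derivation k B B)
    (hln : ∀ x, ∃ n, (⇑D)^[n] x = 0) {c c' : B} (hc0 : c ≠ 0) (hc0' : c' ≠ 0)
    (hc : D c = 0) (hc' : D c' = 0) (hker : ∀ x y, D (x * y) = 0 → x * y ≠ 0 → D x = 0)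
    (i j : ℕ)
    (h1 : ∀ x, (⇑D)^[i + 1] x = 0 → c ∣ (⇑D)^[i] x)
    (h2 : ∀ x, (⇑D)^[j + 1] x = 0 → c' ∣ (⇑D)^[j] x)
    (x : B) (hx : (⇑D)^[i + j + 2] x = 0) : c * c' ∣ (⇑D)^[i + j + 1] x := by
  classical
  by_cases hD : ∃ x0, D x0 ≠ 0
  swap
  · push Not at hD
    rw [Function.iterate_succ_apply', hD]
    exact dvd_zero _
  obtain ⟨x0, hx0⟩ := hD
  rw [UniqueFactorizationMonoid.dvd_iff_emultiplicity_le (mul_ne_zero hc0 hc0')]
  intro p hp
  rw [emultiplicity_le_emultiplicity_iff]
  intro n hn
  have hpp : Prime p := hp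
  -- multiplicities
  have hfin : ∀ y : B, y ≠ 0 → FiniteMultiplicity p y := fun y hy =>
    FiniteMultiplicity.of_not_isUnit hpp.not_isUnit hy
  set s := multiplicity p c with hs
  set t := multiplicity p c' with ht
  have hnst : n ≤ s + t := by
    have h3 := (hfin _ (mul_ne_zero hc0 hc0')).le_multiplicity_of_pow_dvd hn
    rwa [multiplicity_mul hpp (hfin _ (mul_ne_zero hc0 hc0'))] at h3
  rcases Nat.eq_zero_or_pos n with h0 | h0
  · rw [h0, pow_zero]; exact one_dvd _
  have hDp : D p = 0 := by
    have h3 : p ∣ c * c' := (dvd_pow_self p (by omega)).trans hn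
    obtain ⟨y, hy⟩ := h3
    apply hker p y
    · rw [← hy, Derivation.leibniz, hc, hc']; simp
    · rw [← hy]; exact mul_ne_zero hc0 hc0'
  have h4 := loc_gen hpp x0 (multiplicity p (D x0)) D hDp hln
    ((hfin _ hx0).not_pow_dvd_of_multiplicity_lt (Nat.lt_succ_self _)) i j s t
    (fun y hy => (pow_multiplicity_dvd p c).trans (h1 y hy))
    (fun y hy => (pow_multiplicity_dvd p c').trans (h2 y hy)) x hx
  exact (pow_dvd_pow p hnst).trans h4

end

end Pool.Agent.LNDHom
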