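import Mathlib
import Pool.Agent.LNDHom.Gen

set_option autoImplicit false
set_option linter.unusedSectionVars false

namespace Pool.Agent.LNDHom

/-- A nonnegative grading of a `k`-algebra given by its component maps. -/
structure Gr (k B : Type*) [Field k] [CommRing B] [Algebra k B] where
  comp : ℤ → B →ₗ[k] B
  comp_self : ∀ d x, comp d (comp d x) = comp d x
  comp_ne : ∀ d e x, e ≠ d → comp e (comp d x) = 0
  fin : ∀ x, ∃ s : Finset ℤ, (∀ d, d ∉ s → comp d x = 0) ∧ x = ∑ d ∈ s, comp d x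
  mul_comp : ∀ d e x y, comp d x = x → comp e (x * y) = x * comp (e - d) y
  one : comp 0 1 = 1
  nonneg : ∀ d x, comp d x ≠ 0 → 0 ≤ d
  zero : ∀ x, ∃ r, comp 0 x = algebraMap k B r

namespace Gr

variable {k B : Type*} [Field k] [CommRing B] [IsDomain B] [Algebra k B] (G : Gr k B)

/-- homogeneous of degree `d` -/
def H (d : ℤ) (x : B) : Prop := G.comp d x = x

theorem H_comp (d : ℤ) (x : B) : G.H d (G.comp d x) := G.comp_self d x

theorem H_zero (d : ℤ) : G.H d 0 := map_zero _

theorem H_one : G.H 0 1 := G.one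

theorem H_ne {d e : ℤ} {x : B} (h : G.H d x) (hne : e ≠ d) : G.comp e x = 0 := by
  rw [← h]; exact G.comp_ne d e x hne

theorem H_mul {d e : ℤ} {x y : B} (hx : G.H d x) (hy : G.H e y) : G.H (d + e) (x * y) := by
  unfold H at *
  rw [G.mul_comp d _ x y hx, show d + e - d = e by ring, hy]

theorem H_pow {d : ℤ} {x : B} (hx : G.H d x) (n : ℕ) : G.H (n * d) (x ^ n) := by
  induction n with
  | zero => simpa using G.H_one
  | succ n ih =>
    rw [pow_succ, show ((n + 1 : ℕ) : ℤ) * d = n * d + d by push_cast; ring]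
    exact G.H_mul ih hx

theorem H_add {d : ℤ} {x y : B} (hx : G.H d x) (hy : G.H d y) : G.H d (x + y) := by
  unfold H at *
  rw [map_add, hx, hy]

theorem H_sub {d : ℤ} {x y : B} (hx : G.H d x) (hy : G.H d y) : G.H d (x - y) := by
  unfold H at *
  rw [map_sub, hx, hy]

theorem H_smul {d : ℤ} {x : B} (hx : G.H d x) (c : k) : G.H d (c • x) := by
  unfold H at *
  rw [map_smul, hx]

theorem H_inj {d e : ℤ} {x : B} (hx : x ≠ 0) (h1 : G.H d x) (h2 : G.H e x) : d = e := by
  by_contra hne
  apply hx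
  rw [← h1]
  exact G.H_ne h2 hne

theorem H_nonneg {d : ℤ} {x : B} (hx : x ≠ 0) (h : G.H d x) : 0 ≤ d := by
  apply G.nonneg d x
  rw [h]; exact hx

/-- cancellation of a homogeneous factor -/
theorem H_cancel {d e : ℤ} {x y : B} (hx0 : x ≠ 0) (hx : G.H d x) (hxy : G.H e (x * y)) :
    G.H (e - d) y := by
  have h1 := G.mul_comp d e x y hx
  rw [hxy] at h1
  exact (mul_left_cancel₀ hx0 h1).symm

theorem comp_mul (E : ℤ) (x y : B) {s : Finset ℤ}
    (hs : x = ∑ d ∈ s, G.comp d x) :
    G.comp E (x * y) = ∑ d ∈ s, G.comp d x * G.comp (E - d) y := by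
  conv_lhs => rw [hs]
  rw [Finset.sum_mul, map_sum]
  apply Finset.sum_congr rfl
  intro d _
  exact G.mul_comp d E _ y (G.H_comp d x)

/-- top degree -/
theorem exists_top {x : B} (hx : x ≠ 0) : ∃ P : ℤ, G.comp P x ≠ 0 ∧ ∀ d, P < d →
    G.comp d x = 0 := by
  classical
  obtain ⟨s, hs1, hs2⟩ := G.fin x
  let s' := s.filter (fun d => G.comp d x ≠ 0)
  have hne : s'.Nonempty := by
    by_contra h
    rw [Finset.not_nonempty_iff_eq_empty, Finset.filter_eq_empty_iff] at h
    apply hx
    rw [hs2]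
    apply Finset.sum_eq_zero
    intro d hd
    have := h hd
    push Not at this
    exact this
  refine ⟨s'.max' hne, (Finset.mem_filter.mp (s'.max'_mem hne)).2, ?_⟩
  intro d hd
  by_contra h
  have h1 : d ∈ s' := by
    refine Finset.mem_filter.mpr ⟨?_, h⟩
    by_contra h2
    exact h (hs1 d h2)
  exact absurd (s'.le_max' d h1) (not_le.mpr hd)

theorem top_mul {x y : B} {P Y : ℤ} (hP : ∀ d, P < d → G.comp d x = 0)
    (hY : ∀ d, Y < d → G.comp d y = 0) :
    G.comp (P + Y) (x * y) = G.comp P x * G.comp Y y := by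
  classical
  obtain ⟨s, hs1, hs2⟩ := G.fin x
  rw [G.comp_mul (P + Y) x y hs2, Finset.sum_eq_single P]
  · rw [show P + Y - P = Y by ring]
  · intro d _ hdP
    rcases lt_or_gt_of_ne hdP with h | h
    · rw [hY (P + Y - d) (by omega), mul_zero]
    · rw [hP d h, zero_mul]
  · intro h
    rw [hs1 P h, zero_mul]

/-- The top component of a factor of a homogeneous element is a factor. -/
theorem top_dvd {x y : B} {e P : ℤ} (hz : G.H e (x * y)) (hz0 : x * y ≠ 0)
    (hP1 : G.comp P x ≠ 0) (hP : ∀ d, P < d → G.comp d x = 0) : G.comp P x ∣ x * y := by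
  obtain ⟨Y, hY1, hY⟩ := G.exists_top (right_ne_zero_of_mul hz0)
  have h1 := G.top_mul hP hY
  have h2 : P + Y = e := by
    by_contra hne
    rw [G.H_ne hz hne] at h1
    exact mul_ne_zero hP1 hY1 h1.symm
  rw [h2, hz] at h1
  exact ⟨_, h1⟩

/-- an element all of whose components divide by `c` (homogeneous) -/
theorem comp_dvd {c x : B} {d : ℤ} (hc : G.H d c) (h : c ∣ x) (e : ℤ) : c ∣ G.comp e x := by
  obtain ⟨y, rfl⟩ := h
  rw [G.mul_comp d e c y hc]
  exact dvd_mul_right _ _

theorem dvd_of_comp {c x : B} (h : ∀ e, c ∣ G.comp e x) : c ∣ x := by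
  obtain ⟨s, _, hs2⟩ := G.fin x
  rw [hs2]
  exact Finset.dvd_sum (fun d _ => h d)

/-- homogeneous derivation -/
def HD (D : Derivation k B B) (δ : ℤ) : Prop := ∀ d x, D (G.comp d x) = G.comp (d + δ) (D x)

theorem HD_iter {D : Derivation k B B} {δ : ℤ} (hD : G.HD D δ) (n : ℕ) (d : ℤ) (x : B) :
    (⇑D)^[n] (G.comp d x) = G.comp (d + n * δ) ((⇑D)^[n] x) := by
  induction n generalizing d x with
  | zero => simp
  | succ n ih =>
    rw [Function.iterate_succ_apply, hD, ih, Function.iterate_succ_apply]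
    congr 2
    push_cast; ring

theorem HD_H {D : Derivation k B B} {δ : ℤ} (hD : G.HD D δ) (n : ℕ) {d : ℤ} {x : B}
    (hx : G.H d x) : G.H (d + n * δ) ((⇑D)^[n] x) := by
  unfold H
  rw [← G.HD_iter hD, hx]

end Gr

section

variable {k B : Type*} [Field k] [CommRing B] [IsDomain B] [Algebra k B]

/-- kernels of locally nilpotent derivations are factorially closed -/
theorem fact_closed [CharZero k] (D : Derivation k B B) (hln : ∀ x, ∃ n, (⇑D)^[n] x = 0)
    (x y : B) (h : D (x * y) = 0) (hne : x * y ≠ 0) : D x = 0 := by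
  have hchar : CharZero B := charZero_of_injective_algebraMap (algebraMap k B).injective
  obtain ⟨a, ha1, ha2⟩ := exists_top D (left_ne_zero_of_mul hne) (hln x)
  obtain ⟨b, hb1, hb2⟩ := exists_top D (right_ne_zero_of_mul hne) (hln y)
  have h1 := (iter_mul_top D (a + b) a b x y rfl ha2 hb2).1
  rcases Nat.eq_zero_or_pos a with h0 | h0
  · subst h0
    simpa using ha2
  · exfalso
    have h2 : (⇑D)^[a + b] (x * y) = 0 := by
      obtain ⟨m, hm⟩ : ∃ m, a + b = m + 1 := ⟨a + b - 1, by omega⟩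
      rw [hm, Function.iterate_succ_apply, h, iterate_map_zero]
    rw [h2] at h1
    have h3 : (((a + b).choose a : ℕ) : B) ≠ 0 := by
      exact_mod_cast (Nat.choose_pos (by omega)).ne'
    exact mul_ne_zero h3 (mul_ne_zero ha1 hb1) h1.symm

/-- Decomposition of an element into a part dividing a power of `f` and a part prime to `f`. -/
theorem exists_part [UniqueFactorizationMonoid B] (f x : B) (hx : x ≠ 0) :
    ∃ u h : B, ∃ s : ℕ, x = u * h ∧ IsRelPrime h f ∧ u ∣ f ^ s := by
  induction x using UniqueFactorizationMonoid.induction_on_prime with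
  | h₁ => exact absurd rfl hx
  | h₂ x hxu =>
    exact ⟨1, x, 0, by simp, fun d hd _ => isUnit_of_dvd_unit hd hxu, by simp⟩
  | h₃ a p ha hp ih =>
    obtain ⟨u, h, s, hu, hh, hs⟩ := ih ha
    by_cases hpf : p ∣ f
    · refine ⟨p * u, h, s + 1, by rw [hu]; ring, hh, ?_⟩
      rw [pow_succ']
      exact mul_dvd_mul hpf hs
    · refine ⟨u, p * h, s, by rw [hu]; ring, ?_, hs⟩
      have h1 : IsRelPrime p f := (hp.irreducible.isRelPrime_iff_not_dvd).mpr hpf
      exact IsRelPrime.mul_left h1 hh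

end

end Pool.Agent.LNDHom
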