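import Mathlib
import Pool.Agent.LNDHom.Gr

set_option autoImplicit false
set_option linter.unusedSectionVars false

namespace Pool.Agent.LNDHom

variable {k B : Type*} [Field k] [CommRing B] [IsDomain B] [Algebra k B]

/-- span of the monomials `f ^ i * g ^ j` of degree `N` with `j < m` -/
def Sp (k : Type*) {B : Type*} [Field k] [CommRing B] [Algebra k B] (f g : B) (a b : ℤ) (N : ℤ)
    (m : ℕ) : Submodule k B :=
  Submodule.span k {x | ∃ i j : ℕ, a * i + b * j = N ∧ j < m ∧ x = f ^ i * g ^ j}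

variable {f g : B} {a b : ℤ}

theorem Sp_mono (N : ℤ) {m n : ℕ} (h : m ≤ n) : Sp k f g a b N m ≤ Sp k f g a b N n := by
  apply Submodule.span_mono
  rintro x ⟨i, j, h1, h2, h3⟩
  exact ⟨i, j, h1, by omega, h3⟩

theorem Sp_zero (N : ℤ) : Sp k f g a b N 0 = ⊥ := by
  unfold Sp
  rw [Submodule.span_eq_bot]
  rintro x ⟨i, j, _, h2, _⟩
  omega

theorem Sp_mul (N : ℤ) (m : ℕ) (i j : ℕ) {x : B} (hx : x ∈ Sp k f g a b N m) :
    f ^ i * g ^ j * x ∈ Sp k f g a b (N + (a * i + b * j)) (m + j) := by
  unfold Sp at hx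
  induction hx using Submodule.span_induction with
  | mem x hx =>
    obtain ⟨i', j', h1, h2, rfl⟩ := hx
    apply Submodule.subset_span
    refine ⟨i + i', j + j', ?_, by omega, by ring⟩
    push_cast
    rw [← h1]; ring
  | zero => rw [mul_zero]; exact Submodule.zero_mem _
  | add x y _ _ hx hy => rw [mul_add]; exact Submodule.add_mem _ hx hy
  | smul c x _ hx => rw [mul_smul_comm]; exact Submodule.smul_mem _ _ hx

theorem Sp_succ (ha : 0 < a) (N : ℤ) (m : ℕ) {x : B} (hx : x ∈ Sp k f g a b N (m + 1)) :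
    x ∈ Sp k f g a b N m ∨ ∃ (i : ℕ) (c : k) (y : B), a * i + b * m = N ∧ c ≠ 0 ∧
      y ∈ Sp k f g a b N m ∧ x = c • (f ^ i * g ^ m) + y := by
  unfold Sp at hx
  by_cases hi : ∃ i : ℕ, a * i + b * m = N
  · obtain ⟨i, hi⟩ := hi
    have key : ∃ (c : k) (y : B), y ∈ Sp k f g a b N m ∧ x = c • (f ^ i * g ^ m) + y := by
      induction hx using Submodule.span_induction with
      | mem x hx =>
        obtain ⟨i', j', h1, h2, rfl⟩ := hx
        rcases Nat.lt_succ_iff_lt_or_eq.mp h2 with h3 | h3
        · exact ⟨0, f ^ i' * g ^ j', Submodule.subset_span ⟨i', j', h1, h3, rfl⟩, by simp⟩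
        · have h4 : i' = i := by
            subst h3
            have : a * (i' : ℤ) = a * i := by linarith
            exact_mod_cast mul_left_cancel₀ ha.ne' this
          subst h4
          subst h3
          exact ⟨1, 0, Submodule.zero_mem _, by simp⟩
      | zero => exact ⟨0, 0, Submodule.zero_mem _, by simp⟩
      | add x y _ _ hx hy =>
        obtain ⟨c, x', hx', rfl⟩ := hx
        obtain ⟨d, y', hy', rfl⟩ := hy
        exact ⟨c + d, x' + y', Submodule.add_mem _ hx' hy', by module⟩
      | smul r x _ hx =>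
        obtain ⟨c, x', hx', rfl⟩ := hx
        exact ⟨r * c, r • x', Submodule.smul_mem _ _ hx', by module⟩
    obtain ⟨c, y, hy, hxy⟩ := key
    by_cases hc : c = 0
    · left
      rw [hxy, hc, zero_smul, zero_add]
      exact hy
    · right
      exact ⟨i, c, y, hi, hc, hy, hxy⟩
  · left
    refine Submodule.span_mono ?_ hx
    rintro x ⟨i', j', h1, h2, h3⟩
    refine ⟨i', j', h1, ?_, h3⟩
    rcases Nat.lt_succ_iff_lt_or_eq.mp h2 with h4 | h4
    · exact h4
    · subst h4
      exact absurd ⟨i', h1⟩ hi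

/-- Homogeneous elements of `k[f,g]` are combinations of monomials. -/
theorem mem_Sp (G : Gr k B) (hf : G.H a f) (hg : G.H b g) (ha : 0 < a) (hb : 0 < b)
    {x : B} (hx : x ∈ Algebra.adjoin k {f, g}) (N : ℤ) :
    ∃ m, G.comp N x ∈ Sp k f g a b N m := by
  classical
  -- first forget the bound on `j`
  let S : ℤ → Submodule k B := fun N =>
    Submodule.span k {x | ∃ i j : ℕ, a * i + b * j = N ∧ x = f ^ i * g ^ j}
  have hS1 : ∀ N M x y, x ∈ S N → y ∈ S M → x * y ∈ S (N + M) := by
    intro N M x y hx hy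
    induction hx using Submodule.span_induction with
    | mem x hx =>
      obtain ⟨i, j, h1, rfl⟩ := hx
      induction hy using Submodule.span_induction with
      | mem y hy =>
        obtain ⟨i', j', h2, rfl⟩ := hy
        apply Submodule.subset_span
        refine ⟨i + i', j + j', ?_, by ring⟩
        push_cast
        rw [← h1, ← h2]; ring
      | zero => rw [mul_zero]; exact Submodule.zero_mem _
      | add x y _ _ hx hy => rw [mul_add]; exact Submodule.add_mem _ hx hy
      | smul c x _ hx => rw [mul_smul_comm]; exact Submodule.smul_mem _ _ hx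
    | zero => rw [zero_mul]; exact Submodule.zero_mem _
    | add x y _ _ hx hy => rw [add_mul]; exact Submodule.add_mem _ hx hy
    | smul c x _ hx => rw [smul_mul_assoc]; exact Submodule.smul_mem _ _ hx
  have hS2 : ∀ x ∈ Algebra.adjoin k {f, g}, ∀ N, G.comp N x ∈ S N := by
    intro x hx
    induction hx using Algebra.adjoin_induction with
    | mem x hx =>
      intro N
      rcases hx with rfl | hx
      · by_cases hN : N = a
        · subst hN
          rw [show G.comp N x = x from hf]
          exact Submodule.subset_span ⟨1, 0, by simp, by simp⟩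
        · rw [G.H_ne hf hN]; exact Submodule.zero_mem _
      · rw [Set.mem_singleton_iff.mp hx]
        by_cases hN : N = b
        · subst hN
          rw [show G.comp N g = g from hg]
          exact Submodule.subset_span ⟨0, 1, by simp, by simp⟩
        · rw [G.H_ne hg hN]; exact Submodule.zero_mem _
    | algebraMap r =>
      intro N
      rw [Algebra.algebraMap_eq_smul_one, map_smul]
      by_cases hN : N = 0
      · subst hN
        rw [G.one]
        exact Submodule.smul_mem _ _ (Submodule.subset_span ⟨0, 0, by simp, by simp⟩)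
      · rw [G.H_ne G.H_one hN, smul_zero]; exact Submodule.zero_mem _
    | add x y _ _ hx hy =>
      intro N
      rw [map_add]
      exact Submodule.add_mem _ (hx N) (hy N)
    | mul x y _ _ hx hy =>
      intro N
      obtain ⟨s, _, hs2⟩ := G.fin x
      rw [G.comp_mul N x y hs2]
      apply Submodule.sum_mem
      intro d _
      have := hS1 d (N - d) _ _ (hx d) (hy (N - d))
      rwa [show d + (N - d) = N by ring] at this
  refine ⟨N.toNat + 1, ?_⟩
  refine Submodule.span_mono ?_ (hS2 x hx N)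
  rintro x ⟨i, j, h1, h2⟩
  refine ⟨i, j, h1, ?_, h2⟩
  have h3 : (0 : ℤ) ≤ a * i := mul_nonneg ha.le (by positivity)
  have h4 : (j : ℤ) ≤ b * j := by nlinarith [Int.natCast_nonneg j]
  omega

theorem exists_pow_mem [UniqueFactorizationMonoid B] (G : Gr k B) (hf : G.H a f) (hg : G.H b g)
    (ha : 0 < a) (hb : 0 < b) (hf0 : f ≠ 0)
    (A : Subalgebra k B) (hA : A = Algebra.adjoin k {f, g})
    (hfc : ∀ x y, x * y ∈ A → x * y ≠ 0 → x ∈ A) (hAc : ∀ x ∈ A, ∀ e, G.comp e x ∈ A)
    (J : Set B) (hJA : ∀ x ∈ J, x ∈ A) (hJadd : ∀ x ∈ J, ∀ y ∈ J, x + y ∈ J)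
    (hJmul : ∀ c ∈ A, ∀ x ∈ J, c * x ∈ J) (hJcomp : ∀ x ∈ J, ∀ e, G.comp e x ∈ J)
    (hJne : ∃ x ∈ J, x ≠ 0)
    (hmax : ∀ c ∈ A, ∀ d, G.H d c → c ≠ 0 → (∀ x ∈ J, c ∣ x) → d = 0) :
    ∃ α : ℕ, f ^ α ∈ J := by
  classical
  have hfA : f ∈ A := by rw [hA]; exact Algebra.subset_adjoin (by simp)
  have hgA : g ∈ A := by rw [hA]; exact Algebra.subset_adjoin (by simp)
  have hsm : ∀ (c : k), ∀ x ∈ J, c • x ∈ J := by
    intro c x hx
    rw [Algebra.smul_def]
    exact hJmul _ (A.algebraMap_mem c) x hx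
  -- minimal `g`-degree
  have hex : ∃ m : ℕ, ∃ (N : ℤ) (h0 : B), h0 ∈ J ∧ h0 ≠ 0 ∧ G.H N h0 ∧
      h0 ∈ Sp k f g a b N m := by
    obtain ⟨x, hx, hx0⟩ := hJne
    obtain ⟨P, hP, _⟩ := G.exists_top hx0
    obtain ⟨m, hm⟩ := mem_Sp G hf hg ha hb (hA ▸ hJA x hx) P
    exact ⟨m, P, G.comp P x, hJcomp x hx P, hP, G.H_comp P x, hm⟩
  obtain ⟨N, h0, hJ0, h00, hH0, hS0⟩ := Nat.find_spec hex
  have hmin := fun n (hn : n < Nat.find hex) => Nat.find_min hex hn
  set m := Nat.find hex with hm
  obtain ⟨n, hn⟩ : ∃ n, m = n + 1 := by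
    rcases Nat.eq_zero_or_pos m with h | h
    · exfalso
      rw [h, Sp_zero] at hS0
      exact h00 ((Submodule.mem_bot k).mp hS0)
    · exact ⟨m - 1, by omega⟩
  rw [hn] at hS0
  rcases Sp_succ ha N n hS0 with h1 | ⟨i0, c0, y0, hi0, hc0, hy0, hxy0⟩
  · exact absurd ⟨N, h0, hJ0, h00, hH0, h1⟩ (hmin n (by omega))
  -- pseudo-division
  have hdiv : ∀ (q : ℕ) (h : B) (N' : ℤ), h ∈ J → G.H N' h → h ∈ Sp k f g a b N' q →
      ∃ M : ℕ, h0 ∣ f ^ M * h := by
    intro q
    induction q with
    | zero =>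
      intro h N' _ _ hS
      rw [Sp_zero] at hS
      rw [(Submodule.mem_bot k).mp hS]
      exact ⟨0, by simp⟩
    | succ q ih =>
      intro h N' hhJ hhH hS
      rcases Nat.lt_or_ge q n with hq | hq
      · -- below the minimum
        by_cases hh0 : h = 0
        · rw [hh0]; exact ⟨0, by simp⟩
        · exact absurd ⟨N', h, hhJ, hh0, hhH, hS⟩ (hmin (q + 1) (by omega))
      · rcases Sp_succ ha N' q hS with h1 | ⟨i1, c1, y1, hi1, hc1, hy1, hxy1⟩
        · exact ih h N' hhJ hhH h1
        · obtain ⟨l, rfl⟩ := Nat.exists_eq_add_of_le hq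
          let h2 : B := f ^ i0 * h - (c1 * c0⁻¹) • (f ^ i1 * g ^ l * h0)
          have hh2 : h2 = f ^ i0 * y1 - (c1 * c0⁻¹) • (f ^ i1 * g ^ l * y0) := by
            simp only [h2]
            rw [hxy1, hxy0, pow_add]
            simp only [mul_add, mul_smul_comm, smul_add, smul_smul]
            rw [show c1 * c0⁻¹ * c0 = c1 by field_simp]
            ring_nf
          have hJ2 : h2 ∈ J := by
            simp only [h2]
            rw [sub_eq_add_neg, ← neg_smul]
            apply hJadd
            · exact hJmul _ (A.pow_mem hfA _) h hhJ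
            · exact hsm _ _ (hJmul _ (A.mul_mem (A.pow_mem hfA _) (A.pow_mem hgA _)) h0 hJ0)
          have hH2 : G.H (N' + a * i0) h2 := by
            apply G.H_sub
            · have := G.H_mul (G.H_pow hf i0) hhH
              rwa [show (i0 : ℤ) * a + N' = N' + a * i0 by ring] at this
            · apply G.H_smul
              have := G.H_mul (G.H_mul (G.H_pow hf i1) (G.H_pow hg l)) hH0
              rwa [show (i1 : ℤ) * a + l * b + N = N' + a * i0 by
                rw [← hi1, ← hi0]; push_cast; ring] at this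
          have hS2 : h2 ∈ Sp k f g a b (N' + a * i0) (n + l) := by
            rw [hh2]
            apply Submodule.sub_mem
            · have := Sp_mul (f := f) (g := g) (a := a) (b := b) N' (n + l) i0 0 hy1
              simpa using this
            · apply Submodule.smul_mem
              have := Sp_mul (f := f) (g := g) (a := a) (b := b) N n i1 l hy0
              rwa [show N + (a * i1 + b * l) = N' + a * i0 by
                rw [← hi1, ← hi0]; push_cast; ring] at this
          obtain ⟨M, hM⟩ := ih h2 _ hJ2 hH2 hS2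
          refine ⟨M + i0, ?_⟩
          have h3 : f ^ (M + i0) * h = f ^ M * h2 +
              (f ^ M * ((c1 * c0⁻¹) • (f ^ i1 * g ^ l))) * h0 := by
            simp only [h2]
            rw [pow_add]
            simp only [mul_sub, smul_mul_assoc, mul_smul_comm]
            ring_nf
          rw [h3]
          exact dvd_add hM (dvd_mul_left _ _)
  -- split off the part dividing a power of `f`
  obtain ⟨u, h1, s, hu, hrel, hus⟩ := exists_part f h0 h00
  have hu0 : u ≠ 0 := by rintro rfl; exact h00 (by rw [hu, zero_mul])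
  have h10 : h1 ≠ 0 := by rintro rfl; exact h00 (by rw [hu, mul_zero])
  have h1A : h1 ∈ A := hfc h1 u (by rw [mul_comm, ← hu]; exact hJA _ hJ0) (mul_ne_zero h10 hu0)
  have hdvd : ∀ (h : B) (N' : ℤ), h ∈ J → G.H N' h → h1 ∣ h := by
    intro h N' hhJ hhH
    obtain ⟨q, hq⟩ := mem_Sp G hf hg ha hb (hA ▸ hJA h hhJ) N'
    rw [show G.comp N' h = h from hhH] at hq
    obtain ⟨M, hM⟩ := hdiv q h N' hhJ hhH hq
    have h2 : h1 ∣ f ^ M * h := (Dvd.intro_left u hu.symm).trans hM
    exact (IsRelPrime.pow_right hrel).dvd_of_dvd_mul_left h2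
  obtain ⟨P, hP1, hP2⟩ := G.exists_top h10
  have hPdvd : ∀ x ∈ J, G.comp P h1 ∣ x := by
    intro x hx
    apply G.dvd_of_comp
    intro e
    by_cases hxe : G.comp e x = 0
    · rw [hxe]; exact dvd_zero _
    · obtain ⟨y, hy⟩ := hdvd _ e (hJcomp x hx e) (G.H_comp e x)
      rw [hy] at hxe ⊢
      apply G.top_dvd (e := e) (P := P) _ hxe hP1 hP2
      rw [← hy]
      exact G.H_comp e x
  have hP0 : P = 0 := hmax _ (hAc _ h1A P) P (G.H_comp P h1) hP1 hPdvd
  -- `h1` is a constant
  obtain ⟨r, hr⟩ := G.zero h1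
  have h1c : h1 = algebraMap k B r := by
    obtain ⟨s', hs1, hs2⟩ := G.fin h1
    rw [← hr]
    conv_lhs => rw [hs2]
    apply Finset.sum_eq_single
    · intro d _ hd
      rcases lt_or_gt_of_ne hd with h | h
      · by_contra h4
        have := G.nonneg d h1 h4
        omega
      · exact hP2 d (by omega)
    · exact hs1 0
  have hr0 : r ≠ 0 := by
    rintro rfl
    rw [map_zero] at h1c
    exact h10 h1c
  obtain ⟨u', hu'⟩ := hus
  have hu'A : u' ∈ A := by
    apply hfc u' u
    · rw [mul_comm, ← hu']; exact A.pow_mem hfA s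
    · rw [mul_comm, ← hu']; exact pow_ne_zero s hf0
  refine ⟨s, ?_⟩
  have h5 : f ^ s = r⁻¹ • (u' * h0) := by
    rw [hu, hu', h1c, ← Algebra.commutes, ← Algebra.smul_def, mul_smul_comm, smul_smul,
      inv_mul_cancel₀ hr0, one_smul, mul_comm]
  rw [h5]
  exact hsm _ _ (hJmul _ hu'A _ hJ0)

end Pool.Agent.LNDHom
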