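import Mathlib
import Pool.Agent.LNDHom.Powers

set_option autoImplicit false
set_option linter.unusedSectionVars false

namespace Pool.Agent.LNDHom

variable {k B : Type*} [Field k] [CommRing B] [IsDomain B] [Algebra k B]

theorem iter_const (D : Derivation k B B) {c : B} (hc : D c = 0) (n : ℕ) (x : B) :
    (⇑D)^[n] (c * x) = c * (⇑D)^[n] x := by
  induction n generalizing x with
  | zero => rfl
  | succ n ih =>
    rw [Function.iterate_succ_apply, Derivation.leibniz, hc, smul_zero, add_zero, smul_eq_mul,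
      ih, Function.iterate_succ_apply]

theorem iter_sum (D : Derivation k B B) {ι : Type*} (s : Finset ι) (f : ι → B) (n : ℕ) :
    (⇑D)^[n] (∑ i ∈ s, f i) = ∑ i ∈ s, (⇑D)^[n] (f i) := by
  classical
  induction s using Finset.induction_on with
  | empty => simp
  | insert a s ha ih => rw [Finset.sum_insert ha, Finset.sum_insert ha, iterate_map_add, ih]

/-- the data of an adapted homogeneous element of `D`-degree `n` -/
def Adapted (G : Gr k B) (D : Derivation k B B) (n : ℕ) (Q c : B) (d : ℤ) : Prop :=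
  G.H d Q ∧ (⇑D)^[n] Q = c ∧ c ≠ 0 ∧ D c = 0 ∧ ∀ x, (⇑D)^[n + 1] x = 0 → c ∣ (⇑D)^[n] x

theorem expand (G : Gr k B) {D : Derivation k B B} {δ : ℤ} (hD : G.HD D δ) {n : ℕ}
    {Q c : ℕ → B} {d : ℕ → ℤ} (hQ : ∀ i < n, Adapted G D i (Q i) (c i) (d i)) (m : ℕ)
    (hm : m ≤ n) : ∀ (y : B) (e : ℤ), G.H e y → (⇑D)^[m] y = 0 →
    ∃ lam : ℕ → B, (∀ i < m, D (lam i) = 0 ∧ G.H (e - d i) (lam i)) ∧
      y = ∑ i ∈ Finset.range m, lam i * Q i := by
  induction m with
  | zero =>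
    intro y e _ hy
    exact ⟨fun _ => 0, by intro i hi; omega, by simpa using hy⟩
  | succ m ih =>
    intro y e hye hy
    obtain ⟨h1, h2, h3, h4, h5⟩ := hQ m (by omega)
    obtain ⟨l, hl⟩ := h5 y hy
    have hDl : D l = 0 := by
      have h6 : D (c m * l) = 0 := by
        rw [← hl, ← Function.iterate_succ_apply' (⇑D)]; exact hy
      rw [Derivation.leibniz, h4, smul_zero, add_zero, smul_eq_mul] at h6
      rcases mul_eq_zero.mp h6 with h7 | h7
      · exact absurd h7 h3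
      · exact h7
    have hcH : G.H (d m + m * δ) (c m) := by
      rw [← h2]; exact G.HD_H hD m h1
    have hlH : G.H (e - d m) l := by
      have h6 := G.HD_H hD m hye
      rw [hl] at h6
      have h7 := G.H_cancel h3 hcH h6
      rwa [show e + m * δ - (d m + m * δ) = e - d m by ring] at h7
    obtain ⟨lam, hlam1, hlam2⟩ := ih (by omega) (y - l * Q m) e (by
      apply G.H_sub hye
      have := G.H_mul hlH h1
      rwa [show e - d m + d m = e by ring] at this) (by
      rw [iterate_map_sub, iter_const D hDl, h2, hl]; ring)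
    refine ⟨fun i => if i = m then l else lam i, ?_, ?_⟩
    · intro i hi
      by_cases him : i = m
      · subst him
        simp only [if_true]
        exact ⟨hDl, hlH⟩
      · simp only [him, if_false]
        exact hlam1 i (by omega)
    · rw [Finset.sum_range_succ]
      simp only [if_true]
      have h6 : ∑ i ∈ Finset.range m, (if i = m then l else lam i) * Q i =
          ∑ i ∈ Finset.range m, lam i * Q i := by
        apply Finset.sum_congr rfl
        intro i hi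
        rw [Finset.mem_range] at hi
        rw [if_neg (by omega)]
      rw [h6, ← hlam2]
      ring

/-- high degree constants lie in `(f ^ α, g ^ β)` -/
theorem soc (G : Gr k B) {f g : B} {a b : ℤ} (hf : G.H a f) (hg : G.H b g) (ha : 0 < a)
    (hb : 0 < b) {x : B} (hx : x ∈ Algebra.adjoin k {f, g}) {N : ℤ} (hN : G.H N x) (α β : ℕ)
    (hlt : a * (α - 1) + b * (β - 1) < N) :
    ∃ μ ν : B, μ ∈ Algebra.adjoin k {f, g} ∧ ν ∈ Algebra.adjoin k {f, g} ∧
      x = f ^ α * μ + g ^ β * ν := by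
  have hfA : f ∈ Algebra.adjoin k {f, g} := Algebra.subset_adjoin (by simp)
  have hgA : g ∈ Algebra.adjoin k {f, g} := Algebra.subset_adjoin (by simp)
  obtain ⟨m, hm⟩ := mem_Sp G hf hg ha hb hx N
  rw [show G.comp N x = x from hN] at hm
  clear hx hN
  unfold Sp at hm
  induction hm using Submodule.span_induction with
  | mem x hx =>
    obtain ⟨i, j, h1, _, rfl⟩ := hx
    rcases Nat.lt_or_ge i α with hi | hi
    · rcases Nat.lt_or_ge j β with hj | hj
      · exfalso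
        have h2 : (i : ℤ) ≤ α - 1 := by omega
        have h3 : (j : ℤ) ≤ β - 1 := by omega
        have h4 := mul_le_mul_of_nonneg_left h2 ha.le
        have h5 := mul_le_mul_of_nonneg_left h3 hb.le
        linarith
      · obtain ⟨l, rfl⟩ := Nat.exists_eq_add_of_le hj
        refine ⟨0, f ^ i * g ^ l, Subalgebra.zero_mem _,
          Subalgebra.mul_mem _ (Subalgebra.pow_mem _ hfA _) (Subalgebra.pow_mem _ hgA _), ?_⟩
        rw [pow_add]; ring
    · obtain ⟨l, rfl⟩ := Nat.exists_eq_add_of_le hi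
      refine ⟨f ^ l * g ^ j, 0,
        Subalgebra.mul_mem _ (Subalgebra.pow_mem _ hfA _) (Subalgebra.pow_mem _ hgA _),
        Subalgebra.zero_mem _, ?_⟩
      rw [pow_add]; ring
  | zero => exact ⟨0, 0, Subalgebra.zero_mem _, Subalgebra.zero_mem _, by simp⟩
  | add x y _ _ hx hy =>
    obtain ⟨μ, ν, h1, h2, rfl⟩ := hx
    obtain ⟨μ', ν', h1', h2', rfl⟩ := hy
    exact ⟨μ + μ', ν + ν', Subalgebra.add_mem _ h1 h1', Subalgebra.add_mem _ h2 h2', by ring⟩
  | smul r x _ hx =>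
    obtain ⟨μ, ν, h1, h2, rfl⟩ := hx
    exact ⟨r • μ, r • ν, Subalgebra.smul_mem _ h1 _, Subalgebra.smul_mem _ h2 _, by
      rw [smul_add, mul_smul_comm, mul_smul_comm]⟩

/-- Existence of elements of every `D`-degree. -/
theorem exists_deg [CharZero k] (D : Derivation k B B) (hln : ∀ x, ∃ n, (⇑D)^[n] x = 0)
    (hD0 : ∃ x, D x ≠ 0) (n : ℕ) : ∃ x, (⇑D)^[n] x ≠ 0 ∧ (⇑D)^[n + 1] x = 0 := by
  have hchar : CharZero B := charZero_of_injective_algebraMap (algebraMap k B).injective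
  obtain ⟨x, hx⟩ := hD0
  obtain ⟨m, hm1, hm2⟩ := exists_top D hx (hln (D x))
  set σ := (⇑D)^[m] x with hσ
  have hσ1 : D σ = (⇑D)^[m] (D x) := by
    rw [hσ, ← Function.iterate_succ_apply' (⇑D), Function.iterate_succ_apply]
  have hσ0 : D σ ≠ 0 := by rw [hσ1]; exact hm1
  have hσ2 : D (D σ) = 0 := by
    rw [hσ1, ← Function.iterate_succ_apply' (⇑D)]; exact hm2
  have h1 := pow_top D hσ2 n
  refine ⟨σ ^ n, ?_, h1.2⟩
  rw [h1.1]
  apply mul_ne_zero
  · exact_mod_cast Nat.factorial_ne_zero n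
  · exact pow_ne_zero n hσ0

/-- The inductive step. -/
theorem graded_main [CharZero k] [UniqueFactorizationMonoid B] (G : Gr k B)
    (D : Derivation k B B) (hln : ∀ x, ∃ n, (⇑D)^[n] x = 0) (hD0 : ∃ x, D x ≠ 0) (δ : ℤ)
    (hD : G.HD D δ) {f g : B} {a b : ℤ} (hf : G.H a f) (hg : G.H b g) (ha : 0 < a) (hb : 0 < b)
    (hf0 : f ≠ 0) (hg0 : g ≠ 0) (hker : ∀ x, D x = 0 ↔ x ∈ Algebra.adjoin k {f, g})
    (hrel : IsRelPrime f g) (hδ : δ < a + b) (n : ℕ) :
    ∃ (Q c : B) (d : ℤ), Adapted G D n Q c d := by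
  classical
  induction n using Nat.strong_induction_on with
  | _ n IH =>
  -- choose the earlier data
  have IH' : ∀ i, ∃ (Q c : B) (d : ℤ), i < n → Adapted G D i Q c d := by
    intro i
    by_cases hi : i < n
    · obtain ⟨Q, c, d, h⟩ := IH i hi
      exact ⟨Q, c, d, fun _ => h⟩
    · exact ⟨0, 0, 0, fun h => absurd h hi⟩
  choose Q c d hQ using IH'
  have hfc := fact_closed D hln
  -- constants of maximal degree
  obtain ⟨x0, hx0, hx0'⟩ := exists_deg D hln hD0 n
  obtain ⟨E1, hE1, _⟩ := G.exists_top hx0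
  have hx1 : (⇑D)^[n] (G.comp (E1 - n * δ) x0) = G.comp E1 ((⇑D)^[n] x0) := by
    rw [G.HD_iter hD]; congr 2; ring
  have hx1' : (⇑D)^[n + 1] (G.comp (E1 - n * δ) x0) = 0 := by
    rw [G.HD_iter hD, hx0', map_zero]
  let P : ℤ → Prop := fun e => ∃ c : B, c ≠ 0 ∧ D c = 0 ∧ G.H e c ∧
    ∀ x, (⇑D)^[n + 1] x = 0 → c ∣ (⇑D)^[n] x
  have hPb : ∀ e, P e → e ≤ E1 := by
    rintro e ⟨c', hc'0, _, hc'H, hc'⟩
    obtain ⟨y, hy⟩ := hc' _ hx1'
    rw [hx1] at hy
    have h1 : G.H (E1 - e) y := G.H_cancel hc'0 hc'H (by rw [← hy]; exact G.H_comp _ _)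
    have h2 : y ≠ 0 := by
      rintro rfl
      rw [mul_zero] at hy
      exact hE1 hy
    have := G.H_nonneg h2 h1
    omega
  obtain ⟨ec, ⟨cn, hcn0, hDcn, hcnH, hcnd⟩, hecmax⟩ := Int.exists_greatest_of_bdd
    ⟨E1, hPb⟩ ⟨0, 1, one_ne_zero, by simp, G.H_one, fun x _ => one_dvd _⟩
  -- the ideal `J`
  let J : Set B := {h | ∃ x, (⇑D)^[n + 1] x = 0 ∧ (⇑D)^[n] x = cn * h}
  have hJD : ∀ x ∈ J, D x = 0 := by
    rintro h ⟨x, hx1, hx2⟩
    have h1 : D (cn * h) = 0 := by rw [← hx2, ← Function.iterate_succ_apply' (⇑D)]; exact hx1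
    rw [Derivation.leibniz, hDcn, smul_zero, add_zero, smul_eq_mul] at h1
    rcases mul_eq_zero.mp h1 with h2 | h2
    · exact absurd h2 hcn0
    · exact h2
  have hJadd : ∀ x ∈ J, ∀ y ∈ J, x + y ∈ J := by
    rintro h ⟨x, hx1, hx2⟩ h' ⟨x', hx1', hx2'⟩
    exact ⟨x + x', by rw [iterate_map_add, hx1, hx1', add_zero], by
      rw [iterate_map_add, hx2, hx2']; ring⟩
  have hJmul : ∀ c', D c' = 0 → ∀ x ∈ J, c' * x ∈ J := by
    rintro c' hc' h ⟨x, hx1, hx2⟩
    exact ⟨c' * x, by rw [iter_const D hc', hx1, mul_zero], by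
      rw [iter_const D hc', hx2]; ring⟩
  have hJcomp : ∀ x ∈ J, ∀ e, G.comp e x ∈ J := by
    rintro h ⟨x, hx1, hx2⟩ e
    refine ⟨G.comp (e + ec - n * δ) x, ?_, ?_⟩
    · rw [G.HD_iter hD, hx1, map_zero]
    · rw [G.HD_iter hD, hx2, show e + ec - n * δ + n * δ = e + ec by ring,
        G.mul_comp ec _ cn h hcnH, show e + ec - ec = e by ring]
  have hJne : ∃ x ∈ J, x ≠ 0 := by
    obtain ⟨y, hy⟩ := hcnd x0 hx0'
    refine ⟨y, ⟨x0, hx0', hy⟩, ?_⟩
    rintro rfl
    rw [mul_zero] at hy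
    exact hx0 hy
  have hJmax : ∀ c', D c' = 0 → ∀ d', G.H d' c' → c' ≠ 0 → (∀ x ∈ J, c' ∣ x) → d' = 0 := by
    intro c' hc' d' hd' hc'0 hall
    have h1 : P (ec + d') := by
      refine ⟨cn * c', mul_ne_zero hcn0 hc'0, ?_, G.H_mul hcnH hd', ?_⟩
      · rw [Derivation.leibniz, hDcn, hc']; simp
      · intro x hx
        obtain ⟨y, hy⟩ := hcnd x hx
        rw [hy]
        exact mul_dvd_mul_left _ (hall y ⟨x, hx, hy⟩)
    have h2 := hecmax _ h1
    have h3 := G.H_nonneg hc'0 hd'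
    omega
  have hAc : ∀ x, D x = 0 → ∀ e, D (G.comp e x) = 0 := by
    intro x hx e
    rw [hD, hx, map_zero]
  obtain ⟨α, hα⟩ : ∃ α : ℕ, f ^ α ∈ J := by
    refine exists_pow_mem G hf hg ha hb hf0 (Algebra.adjoin k {f, g}) rfl ?_ ?_ J ?_ hJadd ?_
      hJcomp hJne ?_
    · intro x y hxy hne
      rw [← hker] at hxy ⊢
      exact hfc x y hxy hne
    · intro x hx e
      rw [← hker] at hx ⊢
      exact hAc x hx e
    · intro x hx
      rw [← hker]; exact hJD x hx
    · intro c' hc' x hx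
      rw [← hker] at hc'
      exact hJmul c' hc' x hx
    · intro c' hc'
      rw [← hker] at hc'
      exact hJmax c' hc'
  obtain ⟨β, hβ⟩ : ∃ β : ℕ, g ^ β ∈ J := by
    refine exists_pow_mem G hg hf hb ha hg0 (Algebra.adjoin k {f, g})
      (by rw [Set.pair_comm]) ?_ ?_ J ?_ hJadd ?_ hJcomp hJne ?_
    · intro x y hxy hne
      rw [← hker] at hxy ⊢
      exact hfc x y hxy hne
    · intro x hx e
      rw [← hker] at hx ⊢
      exact hAc x hx e
    · intro x hx
      rw [← hker]; exact hJD x hx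
    · intro c' hc' x hx
      rw [← hker] at hc'
      exact hJmul c' hc' x hx
    · intro c' hc'
      rw [← hker] at hc'
      exact hJmax c' hc'
  have hDf : D f = 0 := (hker f).mpr (Algebra.subset_adjoin (by simp))
  have hDg : D g = 0 := (hker g).mpr (Algebra.subset_adjoin (by simp))
  have hDfp : D (f ^ α) = 0 := by rw [Derivation.leibniz_pow, hDf]; simp
  have hDgp : D (g ^ β) = 0 := by rw [Derivation.leibniz_pow, hDg]; simp
  -- homogeneous lifts
  have hlift : ∀ (h : B) (e : ℤ), h ∈ J → G.H e h → ∃ x, (⇑D)^[n + 1] x = 0 ∧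
      (⇑D)^[n] x = cn * h ∧ G.H (ec + e - n * δ) x := by
    rintro h e ⟨x, hx1, hx2⟩ he
    refine ⟨G.comp (ec + e - n * δ) x, ?_, ?_, G.H_comp _ _⟩
    · rw [G.HD_iter hD, hx1, map_zero]
    · rw [G.HD_iter hD, hx2, show ec + e - n * δ + n * δ = ec + e by ring]
      exact G.H_mul hcnH he
  obtain ⟨b1, hb11, hb12, hb13⟩ := hlift _ _ hα (G.H_pow hf α)
  obtain ⟨b2, hb21, hb22, hb23⟩ := hlift _ _ hβ (G.H_pow hg β)
  have hyH : G.H (ec + α * a + β * b - n * δ) (g ^ β * b1 - f ^ α * b2) := by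
    apply G.H_sub
    · have := G.H_mul (G.H_pow hg β) hb13
      rwa [show (β : ℤ) * b + (ec + α * a - n * δ) = ec + α * a + β * b - n * δ by ring] at this
    · have := G.H_mul (G.H_pow hf α) hb23
      rwa [show (α : ℤ) * a + (ec + β * b - n * δ) = ec + α * a + β * b - n * δ by ring] at this
  have hy0 : (⇑D)^[n] (g ^ β * b1 - f ^ α * b2) = 0 := by
    rw [iterate_map_sub, iter_const D hDgp, iter_const D hDfp, hb12, hb22]; ring
  obtain ⟨lam, hlam1, hlam2⟩ := expand G hD (n := n) (fun i hi => hQ i hi) n le_rfl _ _ hyH hy0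
  -- the coefficients lie in `(f ^ α, g ^ β)`
  have hcoef : ∀ i, ∃ μ ν : B, i < n → D μ = 0 ∧ D ν = 0 ∧
      lam i = f ^ α * μ + g ^ β * ν := by
    intro i
    by_cases hi : i < n
    swap
    · exact ⟨0, 0, fun h => absurd h hi⟩
    obtain ⟨j, hj⟩ : ∃ j, i + j + 1 = n := ⟨n - 1 - i, by omega⟩
    obtain ⟨hi1, hi2, hi3, hi4, hi5⟩ := hQ i hi
    obtain ⟨hj1, hj2, hj3, hj4, hj5⟩ := hQ j (by omega)
    have hPij : P ((d i + i * δ) + (d j + j * δ)) := by
      refine ⟨c i * c j, mul_ne_zero hi3 hj3, ?_, ?_, ?_⟩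
      · rw [Derivation.leibniz, hi4, hj4]; simp
      · apply G.H_mul
        · rw [← hi2]; exact G.HD_H hD i hi1
        · rw [← hj2]; exact G.HD_H hD j hj1
      · intro x hx
        rw [← hj]
        exact dvd_gen D hln hi3 hj3 hi4 hj4 hfc i j hi5 hj5 x (by
          rw [show i + j + 2 = n + 1 by omega]; exact hx)
    have h1 := hecmax _ hPij
    have h2 : Q j ≠ 0 := by
      intro h0
      rw [h0, iterate_map_zero] at hj2
      exact hj3 hj2.symm
    have h3 := G.H_nonneg h2 hj1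
    have h4 : (n : ℤ) = i + j + 1 := by rw [← hj]; push_cast; ring
    obtain ⟨hl1, hl2⟩ := hlam1 i hi
    obtain ⟨μ, ν, hμ, hν, hμν⟩ := soc G hf hg ha hb ((hker _).mp hl1) hl2 α β (by
      rw [h4]
      nlinarith)
    exact ⟨μ, ν, fun _ => ⟨(hker _).mpr hμ, (hker _).mpr hν, hμν⟩⟩
  choose μ ν hμν using hcoef
  have hsum : g ^ β * (b1 - ∑ i ∈ Finset.range n, ν i * Q i) =
      f ^ α * (b2 + ∑ i ∈ Finset.range n, μ i * Q i) := by
    have h1 : ∑ i ∈ Finset.range n, lam i * Q i =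
        f ^ α * ∑ i ∈ Finset.range n, μ i * Q i + g ^ β * ∑ i ∈ Finset.range n, ν i * Q i := by
      rw [Finset.mul_sum, Finset.mul_sum, ← Finset.sum_add_distrib]
      apply Finset.sum_congr rfl
      intro i hi
      rw [(hμν i (Finset.mem_range.mp hi)).2.2]
      ring
    rw [h1] at hlam2
    linear_combination hlam2
  have hrel' : IsRelPrime (f ^ α) (g ^ β) := IsRelPrime.pow hrel
  obtain ⟨q, hq⟩ := hrel'.dvd_of_dvd_mul_left (Dvd.intro _ hsum.symm)
  have hzero : (⇑D)^[n] (∑ i ∈ Finset.range n, ν i * Q i) = 0 := by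
    rw [iter_sum]
    apply Finset.sum_eq_zero
    intro i hi
    have hi := Finset.mem_range.mp hi
    rw [iter_const D (hμν i hi).2.1]
    obtain ⟨_, hi2, _, hi4, _⟩ := hQ i hi
    have h1 : (⇑D)^[i + 1] (Q i) = 0 := by rw [Function.iterate_succ_apply', hi2, hi4]
    rw [iter_zero_of_le D h1 hi, mul_zero]
  have hqn : (⇑D)^[n] q = cn := by
    have h1 : f ^ α * (⇑D)^[n] q = f ^ α * cn := by
      rw [← iter_const D hDfp, ← hq, iterate_map_sub, hzero, hb12]; ring
    exact mul_left_cancel₀ (pow_ne_zero α hf0) h1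
  refine ⟨G.comp (ec - n * δ) q, cn, ec - n * δ, G.H_comp _ _, ?_, hcn0, hDcn, hcnd⟩
  rw [G.HD_iter hD, hqn, show ec - n * δ + n * δ = ec by ring]
  exact hcnH

end Pool.Agent.LNDHom
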