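import Mathlib
import Pool.Agent.LNDHom.Induct

set_option autoImplicit false
set_option linter.unusedSectionVars false

namespace Pool.Agent.LNDHom

variable {k B : Type*} [Field k] [CommRing B] [IsDomain B] [Algebra k B]

/-- elements of nonpositive top degree are constants -/
theorem Gr.const_of_top (G : Gr k B) {x : B} (h : ∀ d, 0 < d → G.comp d x = 0) :
    ∃ r, x = algebraMap k B r := by
  obtain ⟨r, hr⟩ := G.zero x
  refine ⟨r, ?_⟩
  obtain ⟨s', hs1, hs2⟩ := G.fin x
  rw [← hr]
  conv_lhs => rw [hs2]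
  apply Finset.sum_eq_single
  · intro d _ hd
    rcases lt_or_gt_of_ne hd with h1 | h1
    · by_contra h4
      have := G.nonneg d x h4
      omega
    · exact h d h1
  · exact hs1 0

theorem Gr.H_algebraMap (G : Gr k B) (r : k) : G.H 0 (algebraMap k B r) := by
  rw [Algebra.algebraMap_eq_smul_one]
  exact G.H_smul G.H_one r

/-- the square of the augmentation ideal of `A` -/
def M2 (G : Gr k B) (A : Subalgebra k B) : Submodule k B :=
  Submodule.span k {z | ∃ x y, x ∈ A ∧ y ∈ A ∧ G.comp 0 x = 0 ∧ G.comp 0 y = 0 ∧ z = x * y}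

theorem M2_comp (G : Gr k B) (A : Subalgebra k B) (hAc : ∀ x ∈ A, ∀ e, G.comp e x ∈ A)
    (e : ℤ) (C : Subalgebra k B) (hC : ∀ x ∈ A, ∀ d < e, G.comp d x ∈ C) {z : B}
    (hz : z ∈ M2 G A) : G.comp e z ∈ C := by
  unfold M2 at hz
  induction hz using Submodule.span_induction with
  | mem z hz =>
    obtain ⟨x, y, hx, hy, hx0, hy0, rfl⟩ := hz
    obtain ⟨s, _, hs2⟩ := G.fin x
    rw [G.comp_mul e x y hs2]
    apply Subalgebra.sum_mem
    intro d _
    by_cases h1 : G.comp d x = 0
    · rw [h1, zero_mul]; exact C.zero_mem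
    by_cases h2 : G.comp (e - d) y = 0
    · rw [h2, mul_zero]; exact C.zero_mem
    have h3 := G.nonneg _ _ h1
    have h4 := G.nonneg _ _ h2
    have h5 : d ≠ 0 := by rintro rfl; exact h1 hx0
    have h6 : e - d ≠ 0 := by intro h0; rw [h0] at h2; exact h2 hy0
    exact C.mul_mem (hC x hx d (by omega)) (hC y hy (e - d) (by omega))
  | zero => rw [map_zero]; exact C.zero_mem
  | add x y _ _ hx hy => rw [map_add]; exact C.add_mem hx hy
  | smul c x _ hx => rw [map_smul]; exact C.smul_mem hx c

theorem M2_span (G : Gr k B) (A : Subalgebra k B) (f g : B) (hA : A = Algebra.adjoin k {f, g})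
    (hAc : ∀ x ∈ A, ∀ e, G.comp e x ∈ A) :
    ∀ x ∈ A, ∃ (c1 c2 : k), x - G.comp 0 x - c1 • (f - G.comp 0 f) - c2 • (g - G.comp 0 g) ∈
      M2 G A := by
  intro x hx
  have hfA : f ∈ A := by rw [hA]; exact Algebra.subset_adjoin (by simp)
  have hgA : g ∈ A := by rw [hA]; exact Algebra.subset_adjoin (by simp)
  rw [hA] at hx
  induction hx using Algebra.adjoin_induction with
  | mem x hx =>
    rcases hx with rfl | hx
    · exact ⟨1, 0, by simp⟩
    · rw [Set.mem_singleton_iff.mp hx]
      exact ⟨0, 1, by simp⟩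
  | algebraMap r =>
    refine ⟨0, 0, ?_⟩
    rw [show G.comp 0 (algebraMap k B r) = algebraMap k B r from G.H_algebraMap r]
    simp
  | add x y _ _ hx hy =>
    obtain ⟨c1, c2, h1⟩ := hx
    obtain ⟨c1', c2', h1'⟩ := hy
    refine ⟨c1 + c1', c2 + c2', ?_⟩
    have h2 := Submodule.add_mem _ h1 h1'
    rw [map_add]
    convert h2 using 1
    module
  | mul x y hx' hy' hx hy =>
    rw [← hA] at hx' hy'
    obtain ⟨c1, c2, h1⟩ := hx
    obtain ⟨c1', c2', h1'⟩ := hy
    obtain ⟨r, hr⟩ := G.zero x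
    obtain ⟨r', hr'⟩ := G.zero y
    have hxy0 : G.comp 0 (x * y) = algebraMap k B (r * r') := by
      obtain ⟨s, _, hs2⟩ := G.fin x
      have h3 : G.comp (0 + 0) (x * y) = G.comp 0 x * G.comp 0 y := by
        rw [G.comp_mul (0 + 0) x y hs2]
        rw [Finset.sum_eq_single (0 : ℤ)]
        · simp
        · intro d _ hd
          by_cases h4 : G.comp d x = 0
          · rw [h4, zero_mul]
          · have h5 := G.nonneg _ _ h4
            have h6 : G.comp (0 + 0 - d) y = 0 := by
              by_contra h7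
              have h8 := G.nonneg _ _ h7
              omega
            rw [h6, mul_zero]
        · intro h4
          have h5 : G.comp 0 x = 0 := by
            conv_lhs => rw [hs2]
            rw [map_sum]
            apply Finset.sum_eq_zero
            intro d hd
            apply G.comp_ne
            rintro rfl
            exact h4 hd
          rw [h5, zero_mul]
      rw [show (0 : ℤ) = 0 + 0 by ring, h3, hr, hr', map_mul]
    refine ⟨r' * c1 + r * c1', r' * c2 + r * c2', ?_⟩
    have hcx : G.comp 0 (x - G.comp 0 x) = 0 := by rw [map_sub, G.comp_self, sub_self]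
    have hcy : G.comp 0 (y - G.comp 0 y) = 0 := by rw [map_sub, G.comp_self, sub_self]
    have h2 : (x - G.comp 0 x) * (y - G.comp 0 y) ∈ M2 G A :=
      Submodule.subset_span ⟨_, _, A.sub_mem hx' (hAc _ hx' 0), A.sub_mem hy' (hAc _ hy' 0),
        hcx, hcy, rfl⟩
    have h3 := Submodule.add_mem _ h2 (Submodule.add_mem _ (Submodule.smul_mem _ r' h1)
      (Submodule.smul_mem _ r h1'))
    convert h3 using 1
    rw [hxy0, hr, hr']
    simp only [Algebra.smul_def, map_mul, map_add]
    ring

/-- Homogeneous generators. -/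
theorem exists_gens (G : Gr k B) (A : Subalgebra k B) (f g : B)
    (hA : A = Algebra.adjoin k {f, g}) (hAc : ∀ x ∈ A, ∀ e, G.comp e x ∈ A)
    (hfc : ∀ x y, x * y ∈ A → x * y ≠ 0 → x ∈ A) (hne : ∀ u ∈ A, ¬ A ≤ Algebra.adjoin k {u}) :
    ∃ (f1 g1 : B) (a b : ℤ), G.H a f1 ∧ G.H b g1 ∧ 0 < a ∧ 0 < b ∧ f1 ≠ 0 ∧ g1 ≠ 0 ∧
      A = Algebra.adjoin k {f1, g1} ∧ IsRelPrime f1 g1 := by
  classical
  -- general choice of an element of minimal degree outside a subalgebra
  have choice : ∀ C : Subalgebra k B, ¬ A ≤ C → ∃ (h : B) (c : ℤ), h ∈ A ∧ G.H c h ∧ h ∉ C ∧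
      ∀ x ∈ A, ∀ d < c, G.comp d x ∈ C := by
    intro C hAC
    rw [SetLike.le_def] at hAC
    push Not at hAC
    obtain ⟨x, hx, hxC⟩ := hAC
    have h1 : ∃ d, G.comp d x ∉ C := by
      by_contra hcon
      push Not at hcon
      apply hxC
      obtain ⟨s, _, hs2⟩ := G.fin x
      rw [hs2]
      exact C.sum_mem (fun d _ => hcon d)
    obtain ⟨d, hd⟩ := h1
    let P : ℤ → Prop := fun c => ∃ h ∈ A, G.H c h ∧ h ∉ C
    have hP : ∃ c, P c := ⟨d, G.comp d x, hAc x hx d, G.H_comp d x, hd⟩
    have hPb : ∃ b, ∀ z, P z → b ≤ z := by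
      refine ⟨0, ?_⟩
      rintro z ⟨h, _, hz, hhC⟩
      apply G.H_nonneg _ hz
      rintro rfl
      exact hhC C.zero_mem
    obtain ⟨c, ⟨h, hhA, hhc, hhC⟩, hmin⟩ := Int.exists_least_of_bdd hPb hP
    refine ⟨h, c, hhA, hhc, hhC, ?_⟩
    intro y hy e he
    by_contra hcon
    have := hmin e ⟨G.comp e y, hAc y hy e, G.H_comp e y, hcon⟩
    omega
  obtain ⟨f1, a, hf1A, hf1, hf1C, hamin⟩ := choice ⊥ (by
    intro h
    exact hne 1 A.one_mem (h.trans bot_le))
  have ha : 0 < a := by
    have h0 : f1 ≠ 0 := by rintro rfl; exact hf1C (Subalgebra.zero_mem _)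
    have h1 := G.H_nonneg h0 hf1
    rcases h1.lt_or_eq with h2 | h2
    · exact h2
    · exfalso
      apply hf1C
      obtain ⟨r, hr⟩ := G.zero f1
      rw [← h2] at hf1
      rw [Algebra.mem_bot]
      exact ⟨r, by rw [← hr]; exact hf1⟩
  obtain ⟨g1, b, hg1A, hg1, hg1C, hbmin⟩ := choice (Algebra.adjoin k {f1}) (hne f1 hf1A)
  have hf10 : f1 ≠ 0 := by rintro rfl; exact hf1C (Subalgebra.zero_mem _)
  have hg10 : g1 ≠ 0 := by rintro rfl; exact hg1C (Subalgebra.zero_mem _)
  have hab : a ≤ b := by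
    by_contra hcon
    push Not at hcon
    have h1 := hamin g1 hg1A b hcon
    rw [show G.comp b g1 = g1 from hg1] at h1
    exact hg1C ((bot_le : (⊥ : Subalgebra k B) ≤ _) h1)
  have hb : 0 < b := by omega
  have hmem1 : f1 ∈ Algebra.adjoin k {f1} := Algebra.subset_adjoin (by simp)
  refine ⟨f1, g1, a, b, hf1, hg1, ha, hb, hf10, hg10, ?_, ?_⟩
  · apply le_antisymm
    · by_contra hcon
      obtain ⟨h, c, hhA, hhc, hhC, hcmin⟩ := choice _ hcon
      have hmf : f1 ∈ Algebra.adjoin k {f1, g1} := Algebra.subset_adjoin (by simp)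
      have hmg : g1 ∈ Algebra.adjoin k {f1, g1} := Algebra.subset_adjoin (by simp)
      have hc0 : c ≠ 0 := by
        rintro rfl
        apply hhC
        obtain ⟨r, hr⟩ := G.zero h
        rw [← show G.comp 0 h = h from hhc, hr]
        exact Subalgebra.algebraMap_mem _ r
      -- coordinates modulo `M2`
      obtain ⟨p1, p2, hp⟩ := M2_span G A f g hA hAc f1 hf1A
      obtain ⟨q1, q2, hq⟩ := M2_span G A f g hA hAc g1 hg1A
      obtain ⟨r1, r2, hr⟩ := M2_span G A f g hA hAc h hhA
      rw [G.H_ne hf1 (by omega), sub_zero] at hp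
      rw [G.H_ne hg1 (by omega), sub_zero] at hq
      rw [G.H_ne hhc (by omega), sub_zero] at hr
      -- a nontrivial relation
      obtain ⟨t1, t2, t3, ht, ht1, ht2⟩ : ∃ t1 t2 t3 : k, (t1 ≠ 0 ∨ t2 ≠ 0 ∨ t3 ≠ 0) ∧
          t1 * p1 + t2 * q1 + t3 * r1 = 0 ∧ t1 * p2 + t2 * q2 + t3 * r2 = 0 := by
        by_cases h1 : p1 = 0 ∧ p2 = 0
        · exact ⟨1, 0, 0, Or.inl one_ne_zero, by simp [h1.1], by simp [h1.2]⟩
        · by_cases h2 : p1 * q2 - p2 * q1 = 0
          · rcases not_and_or.mp h1 with h3 | h3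
            · exact ⟨-q1, p1, 0, Or.inr (Or.inl h3), by ring, by linear_combination h2⟩
            · exact ⟨-q2, p2, 0, Or.inr (Or.inl h3), by linear_combination -h2, by ring⟩
          · exact ⟨q1 * r2 - q2 * r1, r1 * p2 - r2 * p1, p1 * q2 - p2 * q1,
              Or.inr (Or.inr h2), by ring, by ring⟩
      have hrel : t1 • f1 + t2 • g1 + t3 • h ∈ M2 G A := by
        have h1 := Submodule.add_mem _ (Submodule.add_mem _ (Submodule.smul_mem _ t1 hp)
          (Submodule.smul_mem _ t2 hq)) (Submodule.smul_mem _ t3 hr)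
        have h2 : t1 • (f1 - p1 • (f - G.comp 0 f) - p2 • (g - G.comp 0 g)) +
            t2 • (g1 - q1 • (f - G.comp 0 f) - q2 • (g - G.comp 0 g)) +
            t3 • (h - r1 • (f - G.comp 0 f) - r2 • (g - G.comp 0 g)) =
            (t1 • f1 + t2 • g1 + t3 • h) - (t1 * p1 + t2 * q1 + t3 * r1) • (f - G.comp 0 f) -
              (t1 * p2 + t2 * q2 + t3 * r2) • (g - G.comp 0 g) := by module
        rw [h2, ht1, ht2, zero_smul, zero_smul, sub_zero, sub_zero] at h1
        exact h1
      have ht3 : t3 = 0 := by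
        by_contra h3
        apply hhC
        have h4 := M2_comp G A hAc c (Algebra.adjoin k {f1, g1}) hcmin hrel
        rw [map_add, map_add, map_smul, map_smul, map_smul, show G.comp c h = h from hhc] at h4
        have h5 : G.comp c f1 ∈ Algebra.adjoin k {f1, g1} := by
          by_cases hca : c = a
          · rw [hca, show G.comp a f1 = f1 from hf1]; exact hmf
          · rw [G.H_ne hf1 hca]; exact Subalgebra.zero_mem _
        have h6 : G.comp c g1 ∈ Algebra.adjoin k {f1, g1} := by
          by_cases hcb : c = b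
          · rw [hcb, show G.comp b g1 = g1 from hg1]; exact hmg
          · rw [G.H_ne hg1 hcb]; exact Subalgebra.zero_mem _
        have h7 : h = t3⁻¹ • ((t1 • G.comp c f1 + t2 • G.comp c g1 + t3 • h) -
            (t1 • G.comp c f1 + t2 • G.comp c g1)) := by
          rw [add_sub_cancel_left, smul_smul, inv_mul_cancel₀ h3, one_smul]
        rw [h7]
        exact Subalgebra.smul_mem _ (Subalgebra.sub_mem _ h4
          (Subalgebra.add_mem _ (Subalgebra.smul_mem _ h5 _) (Subalgebra.smul_mem _ h6 _))) _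
      rw [ht3, zero_smul, add_zero] at hrel
      have ht2' : t2 = 0 := by
        by_contra h3
        apply hg1C
        have h4 := M2_comp G A hAc b (Algebra.adjoin k {f1}) hbmin hrel
        rw [map_add, map_smul, map_smul, show G.comp b g1 = g1 from hg1] at h4
        have h5 : G.comp b f1 ∈ Algebra.adjoin k {f1} := by
          by_cases hba : b = a
          · rw [hba, show G.comp a f1 = f1 from hf1]; exact hmem1
          · rw [G.H_ne hf1 hba]; exact Subalgebra.zero_mem _
        have h7 : g1 = t2⁻¹ • ((t1 • G.comp b f1 + t2 • g1) - t1 • G.comp b f1) := by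
          rw [add_sub_cancel_left, smul_smul, inv_mul_cancel₀ h3, one_smul]
        rw [h7]
        exact Subalgebra.smul_mem _ (Subalgebra.sub_mem _ h4 (Subalgebra.smul_mem _ h5 _)) _
      rw [ht2', zero_smul, add_zero] at hrel
      have ht1' : t1 ≠ 0 := by
        rcases ht with h1 | h1 | h1
        · exact h1
        · exact absurd ht2' h1
        · exact absurd ht3 h1
      apply hf1C
      have h4 := M2_comp G A hAc a ⊥ hamin hrel
      rw [map_smul, show G.comp a f1 = f1 from hf1] at h4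
      have h7 : f1 = t1⁻¹ • (t1 • f1) := by
        rw [smul_smul, inv_mul_cancel₀ ht1', one_smul]
      rw [h7]
      exact Subalgebra.smul_mem _ h4 _
    · rw [Algebra.adjoin_le_iff]
      rintro x hx
      rcases hx with rfl | hx
      · exact hf1A
      · rw [Set.mem_singleton_iff.mp hx]; exact hg1A
  · intro d hdf hdg
    by_contra hdu
    have hd0 : d ≠ 0 := by
      rintro rfl
      exact hf10 (zero_dvd_iff.mp hdf)
    obtain ⟨P, hP1, hP2⟩ := G.exists_top hd0
    have hP0 : 0 < P := by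
      have h1 := G.nonneg _ _ hP1
      rcases h1.lt_or_eq with h2 | h2
      · exact h2
      · exfalso
        obtain ⟨r, hr⟩ := G.const_of_top (x := d) (fun e he => hP2 e (by omega))
        apply hdu
        rw [hr]
        apply IsUnit.map
        rw [isUnit_iff_ne_zero]
        rintro rfl
        rw [map_zero] at hr
        exact hd0 hr
    obtain ⟨y, hy⟩ := hdf
    have h1 : G.comp P d ∣ f1 := by
      rw [hy]
      exact G.top_dvd (e := a) (by rw [← hy]; exact hf1) (by rw [← hy]; exact hf10) hP1 hP2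
    obtain ⟨y', hy'⟩ := hdg
    have h2 : G.comp P d ∣ g1 := by
      rw [hy']
      exact G.top_dvd (e := b) (by rw [← hy']; exact hg1) (by rw [← hy']; exact hg10) hP1 hP2
    obtain ⟨z, hz⟩ := h1
    have hz0 : z ≠ 0 := by rintro rfl; rw [mul_zero] at hz; exact hf10 hz
    have hcA : G.comp P d ∈ A := hfc _ z (by rw [← hz]; exact hf1A) (by rw [← hz]; exact hf10)
    have hzH : G.H (a - P) z := G.H_cancel hP1 (G.H_comp P d) (by rw [← hz]; exact hf1)
    have hPa : P = a := by
      by_contra hne'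
      have h3 := G.H_nonneg hz0 hzH
      have h4 := hamin _ hcA P (by omega)
      rw [G.comp_self, Algebra.mem_bot] at h4
      obtain ⟨r, hr⟩ := h4
      have h5 := G.H_algebraMap r
      rw [hr] at h5
      have := G.H_inj hP1 (G.H_comp P d) h5
      omega
    -- so `f1` divides `g1`
    rw [hPa, sub_self] at hzH
    obtain ⟨r, hr⟩ := G.zero z
    rw [show G.comp 0 z = z from hzH] at hr
    have hr0 : r ≠ 0 := by rintro rfl; rw [map_zero] at hr; exact hz0 hr
    obtain ⟨v, hv⟩ := h2
    have hv' : g1 = f1 * (r⁻¹ • v) := by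
      rw [hv, hz, hr, mul_smul_comm, mul_assoc, mul_left_comm, ← Algebra.smul_def, smul_smul,
        inv_mul_cancel₀ hr0, one_smul]
    have hwH : G.H (b - a) (r⁻¹ • v) := G.H_cancel hf10 hf1 (by rw [← hv']; exact hg1)
    have hwA : r⁻¹ • v ∈ A := hfc _ f1 (by rw [mul_comm, ← hv']; exact hg1A)
      (by rw [mul_comm, ← hv']; exact hg10)
    have h6 := hbmin _ hwA (b - a) (by omega)
    rw [show G.comp (b - a) (r⁻¹ • v) = r⁻¹ • v from hwH] at h6
    apply hg1C
    rw [hv']
    exact Subalgebra.mul_mem _ hmem1 h6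

end Pool.Agent.LNDHom
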