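import Mathlib
import Pool.Agent.LNDHom.Gens

set_option autoImplicit false
set_option linter.unusedSectionVars false

open MvPolynomial

namespace Pool.Agent.LNDHom

variable {k : Type*} [Field k] {σ : Type*} [Fintype σ]

/-- The grading of a polynomial ring by positive weights. -/
noncomputable def mvGr (k : Type*) [Field k] {σ : Type*} [Fintype σ] (w : σ → ℤ)
    (hw : ∀ i, 0 < w i) : Gr k (MvPolynomial σ k) where
  comp := fun d => weightedHomogeneousComponent w d
  comp_self := fun d x =>
    (weightedHomogeneousComponent_isWeightedHomogeneous d x).weightedHomogeneousComponent_same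
  comp_ne := fun d e x h =>
    (weightedHomogeneousComponent_isWeightedHomogeneous d x).weightedHomogeneousComponent_ne e h
  fin := by
    classical
    intro x
    refine ⟨x.support.image (Finsupp.weight w), ?_, ?_⟩
    · intro d hd
      apply weightedHomogeneousComponent_eq_zero'
      intro m hm h
      exact hd (Finset.mem_image.mpr ⟨m, hm, h⟩)
    · ext m
      simp only [coeff_sum, coeff_weightedHomogeneousComponent]
      rw [Finset.sum_ite_eq]
      split_ifs with h
      · rfl
      · by_contra h1
        exact h (Finset.mem_image.mpr ⟨m, mem_support_iff.mpr h1, rfl⟩)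
  mul_comp := by
    classical
    intro d e x y hx
    have hx' : IsWeightedHomogeneous w x d := by
      rw [← hx]; exact weightedHomogeneousComponent_isWeightedHomogeneous d x
    have hy : y = ∑ d ∈ y.support.image (Finsupp.weight w),
        weightedHomogeneousComponent w d y := by
      ext m
      simp only [coeff_sum, coeff_weightedHomogeneousComponent]
      rw [Finset.sum_ite_eq]
      split_ifs with h
      · rfl
      · by_contra h1
        exact h (Finset.mem_image.mpr ⟨m, mem_support_iff.mpr h1, rfl⟩)
    conv_lhs => rw [hy]
    rw [Finset.mul_sum, map_sum]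
    have key : ∀ d', weightedHomogeneousComponent w e (x * weightedHomogeneousComponent w d' y) =
        if d' = e - d then x * weightedHomogeneousComponent w (e - d) y else 0 := by
      intro d'
      have h1 := hx'.mul (weightedHomogeneousComponent_isWeightedHomogeneous d' y)
      split_ifs with h
      · subst h
        rw [show d + (e - d) = e by ring] at h1
        exact h1.weightedHomogeneousComponent_same
      · exact h1.weightedHomogeneousComponent_ne e (by omega)
    simp only [key]
    rw [Finset.sum_ite_eq']
    split_ifs with h
    · rfl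
    · rw [weightedHomogeneousComponent_eq_zero', mul_zero]
      intro m hm h1
      exact h (Finset.mem_image.mpr ⟨m, hm, h1⟩)
  one := (isWeightedHomogeneous_one k w).weightedHomogeneousComponent_same
  nonneg := by
    classical
    intro d x h
    by_contra hd
    apply h
    apply weightedHomogeneousComponent_eq_zero'
    intro m _ hm
    apply hd
    rw [← hm, Finsupp.weight_eq_sum]
    exact Finset.sum_nonneg (fun i _ => by
      rw [nsmul_eq_mul]
      exact mul_nonneg (Int.natCast_nonneg _) (hw i).le)
  zero := by
    classical
    intro x
    refine ⟨coeff 0 x, ?_⟩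
    ext m
    rw [coeff_weightedHomogeneousComponent]
    change _ = coeff m (C (coeff 0 x))
    rw [coeff_C]
    by_cases hm : m = 0
    · subst hm; simp
    · rw [if_neg, if_neg (Ne.symm hm)]
      intro h0
      apply hm
      rw [Finsupp.weight_eq_sum, Finset.sum_eq_zero_iff_of_nonneg] at h0
      · ext i
        have h1 := h0 i (Finset.mem_univ i)
        rw [nsmul_eq_mul] at h1
        rcases mul_eq_zero.mp h1 with h2 | h2
        · simpa using h2
        · exact absurd h2 (hw i).ne'
      · intro i _
        rw [nsmul_eq_mul]
        exact mul_nonneg (Int.natCast_nonneg _) (hw i).le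

theorem mvGr_H {w : σ → ℤ} (hw : ∀ i, 0 < w i) {d : ℤ} {x : MvPolynomial σ k}
    (h : IsWeightedHomogeneous w x d) : (mvGr k w hw).H d x :=
  h.weightedHomogeneousComponent_same

theorem mvGr_H' {w : σ → ℤ} (hw : ∀ i, 0 < w i) {d : ℤ} {x : MvPolynomial σ k}
    (h : (mvGr k w hw).H d x) : IsWeightedHomogeneous w x d := by
  rw [← show weightedHomogeneousComponent w d x = x from h]
  exact weightedHomogeneousComponent_isWeightedHomogeneous d x

theorem der_sum_apply {B : Type*} [CommRing B] [Algebra k B] {ι : Type*} (s : Finset ι)
    (F : ι → Derivation k B B) (x : B) : (∑ i ∈ s, F i) x = ∑ i ∈ s, F i x := by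
  classical
  induction s using Finset.induction_on with
  | empty => simp
  | insert a s ha ih => rw [Finset.sum_insert ha, Finset.sum_insert ha, Derivation.add_apply, ih]

/-- A derivation mapping the variables to homogeneous elements is homogeneous. -/
theorem mv_HD {w : σ → ℤ} (hw : ∀ i, 0 < w i)
    (D : Derivation k (MvPolynomial σ k) (MvPolynomial σ k)) (δ : ℤ)
    (hD : ∀ i, IsWeightedHomogeneous w (D (X i)) (w i + δ)) : (mvGr k w hw).HD D δ := by
  classical
  have hDsum : D = ∑ i, D (X i) • pderiv i := by
    apply derivation_ext
    intro i
    simp only [der_sum_apply, Derivation.coe_smul, Pi.smul_apply, smul_eq_mul]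
    rw [Finset.sum_eq_single i]
    · simp
    · intro j _ hj
      rw [pderiv_X_of_ne (Ne.symm hj), mul_zero]
    · intro h; exact absurd (Finset.mem_univ i) h
  have h1 : ∀ d x, IsWeightedHomogeneous w x d → IsWeightedHomogeneous w (D x) (d + δ) := by
    intro d x hx
    rw [hDsum]
    simp only [der_sum_apply, Derivation.coe_smul, Pi.smul_apply, smul_eq_mul]
    apply IsWeightedHomogeneous.sum
    intro i _
    have h2 : IsWeightedHomogeneous w (pderiv i x) (d - w i) :=
      IsWeightedHomogeneous.pderiv hx (by ring)
    have h3 := (hD i).mul h2
    rwa [show w i + δ + (d - w i) = d + δ by ring] at h3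
  intro d x
  obtain ⟨s, hs1, hs2⟩ := (mvGr k w hw).fin x
  have h2 : ∀ e, (mvGr k w hw).comp (d + δ) (D ((mvGr k w hw).comp e x)) =
      if e = d then D ((mvGr k w hw).comp d x) else 0 := by
    intro e
    have h3 := h1 e _ (mvGr_H' hw ((mvGr k w hw).H_comp e x))
    split_ifs with h
    · subst h
      exact mvGr_H hw h3
    · exact h3.weightedHomogeneousComponent_ne (d + δ) (by omega)
  conv_rhs => rw [hs2]
  rw [map_sum, map_sum]
  simp only [h2]
  rw [Finset.sum_ite_eq']
  split_ifs with h
  · rfl
  · rw [hs1 d h, map_zero]

end Pool.Agent.LNDHom
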