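import Mathlib
import Pool.Agent.LNDHom.Mv

set_option autoImplicit false
set_option linter.unusedSectionVars false

open MvPolynomial

namespace Pool.Agent.LNDHom

section

variable {k B : Type*} [Field k] [CommRing B] [IsDomain B] [Algebra k B]

/-- A derivation vanishing on the kernel of `D` is proportional to `D`. -/
theorem proportional [CharZero k] (D E : Derivation k B B) (hln : ∀ x, ∃ n, (⇑D)^[n] x = 0)
    (hE : ∀ x, D x = 0 → E x = 0) {r : B} (hr : D (D r) = 0) (hr0 : D r ≠ 0) (x : B) :
    D r * E x = E r * D x := by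
  have hchar : CharZero B := charZero_of_injective_algebraMap (algebraMap k B).injective
  obtain ⟨n, hn⟩ := hln x
  induction n generalizing x with
  | zero =>
    simp only [Function.iterate_zero, id] at hn
    rw [hn]; simp
  | succ n ih =>
    -- `y = n! c^n x - (D^n x) r^n`
    set v := (⇑D)^[n] x with hv
    have hDv : D v = 0 := by rw [hv, ← Function.iterate_succ_apply' (⇑D)]; exact hn
    have hc : D ((n.factorial : B) * (D r) ^ n) = 0 := by
      rw [Derivation.leibniz, Derivation.leibniz_pow, hr]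
      simp
    have hy : (⇑D)^[n] ((n.factorial : B) * (D r) ^ n * x - v * r ^ n) = 0 := by
      rw [iterate_map_sub, iter_const D hc, (ker_mul_pow D hr hDv n).1]
      ring
    have h1 := ih _ hy
    have hEc : E ((n.factorial : B) * (D r) ^ n) = 0 := hE _ hc
    have hEv : E v = 0 := hE _ hDv
    have hC0 : (n.factorial : B) * (D r) ^ n ≠ 0 := by
      apply mul_ne_zero
      · exact_mod_cast Nat.factorial_ne_zero n
      · exact pow_ne_zero n hr0
    set C := (n.factorial : B) * (D r) ^ n with hC
    clear_value C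
    rw [map_sub, map_sub, Derivation.leibniz, Derivation.leibniz, Derivation.leibniz,
      Derivation.leibniz, hc, hEc, hDv, hEv, Derivation.leibniz_pow, Derivation.leibniz_pow] at h1
    simp only [smul_eq_mul, nsmul_eq_mul] at h1
    have h2 : C * (D r * E x - E r * D x) = 0 := by
      linear_combination h1
    rcases mul_eq_zero.mp h2 with h3 | h3
    · exact absurd h3 hC0
    · exact sub_eq_zero.mp h3

theorem eqOn_adjoin (E : Derivation k B B) {f g : B} (hf : E f = 0) (hg : E g = 0) :
    ∀ x ∈ Algebra.adjoin k {f, g}, E x = 0 := by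
  intro x hx
  induction hx using Algebra.adjoin_induction with
  | mem x hx =>
    rcases hx with rfl | hx
    · exact hf
    · rw [Set.mem_singleton_iff.mp hx]; exact hg
  | algebraMap r => simp
  | add x y _ _ hx hy => rw [map_add, hx, hy, add_zero]
  | mul x y _ _ hx hy => rw [Derivation.leibniz, hx, hy]; simp

theorem eqOn_adjoin1 (E : Derivation k B B) {f : B} (hf : E f = 0) :
    ∀ x ∈ Algebra.adjoin k {f}, E x = 0 := by
  intro x hx
  induction hx using Algebra.adjoin_induction with
  | mem x hx => rw [Set.mem_singleton_iff.mp hx]; exact hf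
  | algebraMap r => simp
  | add x y _ _ hx hy => rw [map_add, hx, hy, add_zero]
  | mul x y _ _ hx hy => rw [Derivation.leibniz, hx, hy]; simp

end

variable {k : Type*} [Field k]

/-- The Jacobian derivation `w ↦ det ∂(u,v,w)/∂(x,y,z)`. -/
noncomputable def jd (u v : MvPolynomial (Fin 3) k) :
    Derivation k (MvPolynomial (Fin 3) k) (MvPolynomial (Fin 3) k) :=
  (pderiv 1 u * pderiv 2 v - pderiv 2 u * pderiv 1 v) • pderiv 0 +
  (pderiv 2 u * pderiv 0 v - pderiv 0 u * pderiv 2 v) • pderiv 1 +
  (pderiv 0 u * pderiv 1 v - pderiv 1 u * pderiv 0 v) • pderiv 2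

theorem jd_apply (u v w : MvPolynomial (Fin 3) k) : jd u v w =
    (pderiv 1 u * pderiv 2 v - pderiv 2 u * pderiv 1 v) * pderiv 0 w +
    (pderiv 2 u * pderiv 0 v - pderiv 0 u * pderiv 2 v) * pderiv 1 w +
    (pderiv 0 u * pderiv 1 v - pderiv 1 u * pderiv 0 v) * pderiv 2 w := by
  simp [jd]

theorem jd_self1 (u v : MvPolynomial (Fin 3) k) : jd u v u = 0 := by rw [jd_apply]; ring

theorem jd_self2 (u v : MvPolynomial (Fin 3) k) : jd u v v = 0 := by rw [jd_apply]; ring

theorem jd_cyc (u v w : MvPolynomial (Fin 3) k) : jd u v w = jd v w u := by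
  rw [jd_apply, jd_apply]; ring

theorem jd_swap (u v w : MvPolynomial (Fin 3) k) : jd u v w = - jd u w v := by
  rw [jd_apply, jd_apply]; ring

/-- The Jacobian derivation of generators of the kernel is not zero. -/
theorem jd_ne [CharZero k] (D : Derivation k (MvPolynomial (Fin 3) k) (MvPolynomial (Fin 3) k))
    (hln : ∀ x, ∃ n, (⇑D)^[n] x = 0) (hD0 : ∃ x, D x ≠ 0) (f g : MvPolynomial (Fin 3) k)
    (hker : ∀ x, D x = 0 → x ∈ Algebra.adjoin k {f, g}) : ∃ w, jd f g w ≠ 0 := by
  by_contra hcon
  push Not at hcon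
  -- a local slice
  obtain ⟨r, hr1, hr2⟩ := exists_deg D hln hD0 1
  have hr0 : D r ≠ 0 := by simpa using hr1
  have hrr : D (D r) = 0 := by simpa [Function.iterate_succ_apply] using hr2
  have prop : ∀ E : Derivation k (MvPolynomial (Fin 3) k) (MvPolynomial (Fin 3) k),
      E f = 0 → E g = 0 → E r = 0 → ∀ x, E x = 0 := by
    intro E hf hg hEr x
    have h1 := proportional D E hln (fun y hy => eqOn_adjoin E hf hg y (hker y hy)) hrr hr0 x
    rw [hEr, zero_mul] at h1
    rcases mul_eq_zero.mp h1 with h2 | h2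
    · exact absurd h2 hr0
    · exact h2
  -- `jd f v w = 0` for all `v`, `w`
  have h1 : ∀ w, jd f r w = 0 := by
    intro w
    apply prop (jd f r) (jd_self1 f r) _ (jd_self2 f r)
    rw [jd_swap, hcon, neg_zero]
  have h2 : ∀ v w, jd f v w = 0 := by
    intro v w
    have h3 : ∀ x, jd w f x = 0 := by
      apply prop (jd w f) (jd_self2 w f)
      · rw [jd_cyc, hcon]
      · rw [jd_cyc, h1]
    rw [← jd_cyc, h3]
  have h1' : ∀ w, jd g r w = 0 := by
    intro w
    apply prop (jd g r) _ (jd_self1 g r) (jd_self2 g r)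
    rw [← jd_cyc, h2]
  have h2' : ∀ v w, jd g v w = 0 := by
    intro v w
    have h3 : ∀ x, jd w g x = 0 := by
      apply prop (jd w g) _ (jd_self2 w g)
      · rw [jd_cyc, h1']
      · rw [jd_swap, ← jd_cyc, jd_cyc, jd_cyc, h2, neg_zero]
    rw [← jd_cyc, h3]
  have h4 : ∀ v w, jd r v w = 0 := by
    intro v w
    have h5 : ∀ x, jd w r x = 0 := by
      apply prop (jd w r) _ _ (jd_self2 w r)
      · rw [← jd_cyc, h2]
      · rw [← jd_cyc, h2']
    rw [← jd_cyc, h5]
  have h6 : ∀ u v w : MvPolynomial (Fin 3) k, jd u v w = 0 := by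
    intro u v w
    apply prop (jd u v) _ _ _ w
    · rw [← jd_cyc, h2]
    · rw [← jd_cyc, h2']
    · rw [← jd_cyc, h4]
  have h7 : jd (X 0 : MvPolynomial (Fin 3) k) (X 1) (X 2) = 0 := h6 (X 0) (X 1) (X 2)
  rw [jd_apply] at h7
  simp at h7

/-- weights -/
theorem jd_HD {w : Fin 3 → ℤ} (hw : ∀ i, 0 < w i) {f g : MvPolynomial (Fin 3) k} {a b : ℤ}
    (hf : IsWeightedHomogeneous w f a) (hg : IsWeightedHomogeneous w g b) :
    (mvGr k w hw).HD (jd f g) (a + b - (w 0 + w 1 + w 2)) := by
  apply mv_HD
  have hpf : ∀ i, IsWeightedHomogeneous w (pderiv i f) (a - w i) := fun i =>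
    IsWeightedHomogeneous.pderiv hf (by ring)
  have hpg : ∀ i, IsWeightedHomogeneous w (pderiv i g) (b - w i) := fun i =>
    IsWeightedHomogeneous.pderiv hg (by ring)
  have key : ∀ i j, IsWeightedHomogeneous w (pderiv i f * pderiv j g - pderiv j f * pderiv i g)
      (a + b - w i - w j) := by
    intro i j
    apply IsWeightedHomogeneous.sub
    · have := (hpf i).mul (hpg j)
      rwa [show a - w i + (b - w j) = a + b - w i - w j by ring] at this
    · have := (hpf j).mul (hpg i)
      rwa [show a - w j + (b - w i) = a + b - w i - w j by ring] at this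
  intro i
  fin_cases i
  · have h1 := key 1 2
    rw [show a + b - w 1 - w 2 = w 0 + (a + b - (w 0 + w 1 + w 2)) by ring] at h1
    have h2 : jd f g (X 0) = pderiv 1 f * pderiv 2 g - pderiv 2 f * pderiv 1 g := by
      rw [jd_apply]; simp
    simpa [h2] using h1
  · have h1 := key 2 0
    rw [show a + b - w 2 - w 0 = w 1 + (a + b - (w 0 + w 1 + w 2)) by ring] at h1
    have h2 : jd f g (X 1) = pderiv 2 f * pderiv 0 g - pderiv 0 f * pderiv 2 g := by
      rw [jd_apply]; simp
    simpa [h2] using h1
  · have h1 := key 0 1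
    rw [show a + b - w 0 - w 1 = w 2 + (a + b - (w 0 + w 1 + w 2)) by ring] at h1
    have h2 : jd f g (X 2) = pderiv 0 f * pderiv 1 g - pderiv 1 f * pderiv 0 g := by
      rw [jd_apply]; simp
    simpa [h2] using h1

end Pool.Agent.LNDHom
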