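import Mathlib
import Pool.Agent.LNDHom.Jac

set_option autoImplicit false
set_option linter.unusedSectionVars false

open MvPolynomial

namespace Pool.Agent.LNDHom

section

variable {k B : Type*} [Field k] [CommRing B] [IsDomain B] [Algebra k B]

/-- Splitting off the content of a homogeneous locally nilpotent derivation. -/
theorem reduce [CharZero k] [UniqueFactorizationMonoid B] (G : Gr k B) (D : Derivation k B B)
    (hln : ∀ x, ∃ n, (⇑D)^[n] x = 0) (hD0 : ∃ x, D x ≠ 0) (δ : ℤ) (hD : G.HD D δ) :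
    ∃ (h : B) (e : ℤ) (D' : Derivation k B B), h ≠ 0 ∧ D h = 0 ∧ D' h = 0 ∧
      (∀ x, D x = h * D' x) ∧ G.HD D' (δ - e) ∧
      (∀ p, Prime p → D' p = 0 → ∃ x, ¬ p ∣ D' x) := by
  obtain ⟨x0, hx0⟩ := hD0
  obtain ⟨E1, hE1, _⟩ := G.exists_top hx0
  have hx1 : D (G.comp (E1 - δ) x0) = G.comp E1 (D x0) := by
    rw [hD]; congr 2; ring
  let P : ℤ → Prop := fun e => ∃ c : B, c ≠ 0 ∧ D c = 0 ∧ G.H e c ∧ ∀ x, c ∣ D x
  have hPb : ∀ e, P e → e ≤ E1 := by
    rintro e ⟨c', hc'0, _, hc'H, hc'⟩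
    obtain ⟨y, hy⟩ := hc' (G.comp (E1 - δ) x0)
    rw [hx1] at hy
    have h1 : G.H (E1 - e) y := G.H_cancel hc'0 hc'H (by rw [← hy]; exact G.H_comp _ _)
    have h2 : y ≠ 0 := by
      rintro rfl
      rw [mul_zero] at hy
      exact hE1 hy
    have := G.H_nonneg h2 h1
    omega
  obtain ⟨e, ⟨h, hh0, hDh, hhH, hhd⟩, hemax⟩ := Int.exists_greatest_of_bdd
    ⟨E1, hPb⟩ ⟨0, 1, one_ne_zero, by simp, G.H_one, fun x => one_dvd _⟩
  obtain ⟨D', hD'⟩ := exists_div D h hh0 hhd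
  have hD'h : D' h = 0 := by
    have h1 := hD' h
    rw [hDh] at h1
    rcases mul_eq_zero.mp h1.symm with h2 | h2
    · exact absurd h2 hh0
    · exact h2
  have hHD : G.HD D' (δ - e) := by
    intro d x
    apply mul_left_cancel₀ hh0
    rw [← hD', hD, hD', G.mul_comp e _ h _ hhH]
    congr 2; ring
  refine ⟨h, e, D', hh0, hDh, hD'h, hD', hHD, ?_⟩
  intro p hp hDp
  by_contra hcon
  push Not at hcon
  obtain ⟨Q, hQ1, hQ2⟩ := G.exists_top hp.ne_zero
  have hQd : ∀ x, G.comp Q p ∣ D' x := by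
    intro x
    apply G.dvd_of_comp
    intro e'
    have h1 : G.comp e' (D' x) = D' (G.comp (e' - (δ - e)) x) := by
      rw [hHD]; congr 2; ring
    by_cases h0 : G.comp e' (D' x) = 0
    · rw [h0]; exact dvd_zero _
    · rw [h1] at h0 ⊢
      obtain ⟨y, hy⟩ := hcon (G.comp (e' - (δ - e)) x)
      rw [hy] at h0 ⊢
      apply G.top_dvd (e := e') _ h0 hQ1 hQ2
      rw [← hy, ← h1]
      exact G.H_comp _ _
  have hDp' : D p = 0 := by rw [hD', hDp, mul_zero]
  have h1 : P (e + Q) := by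
    refine ⟨h * G.comp Q p, mul_ne_zero hh0 hQ1, ?_, G.H_mul hhH (G.H_comp Q p), ?_⟩
    · have h2 : D (G.comp Q p) = 0 := by rw [hD, hDp', map_zero]
      rw [Derivation.leibniz, hDh, h2]; simp
    · intro x
      rw [hD']
      exact mul_dvd_mul_left h (hQd x)
  have h2 := hemax _ h1
  have h3 := G.nonneg _ _ hQ1
  obtain ⟨r, hr⟩ := G.const_of_top (x := p) (fun d hd => hQ2 d (by omega))
  apply hp.not_isUnit
  rw [hr]
  apply IsUnit.map
  rw [isUnit_iff_ne_zero]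
  rintro rfl
  rw [map_zero] at hr
  exact hp.ne_zero hr

/-- Degree comparison. -/
theorem deg_bound [CharZero k] [UniqueFactorizationMonoid B] (G : Gr k B)
    (D E : Derivation k B B) (hln : ∀ x, ∃ n, (⇑D)^[n] x = 0) (hD0 : ∃ x, D x ≠ 0) (δ ε : ℤ)
    (hD : G.HD D δ) (hE : G.HD E ε) (hprim : ∀ p, Prime p → D p = 0 → ∃ x, ¬ p ∣ D x)
    (hker : ∀ x, D x = 0 → E x = 0) (hE0 : ∃ x, E x ≠ 0) : δ ≤ ε := by
  classical
  obtain ⟨r, hr1, hr2⟩ := exists_deg D hln hD0 1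
  have hr0 : D r ≠ 0 := by simpa using hr1
  have hrr : D (D r) = 0 := by simpa [Function.iterate_succ_apply] using hr2
  have hprop := proportional D E hln hker hrr hr0
  have hdvd : D r ∣ E r := by
    rw [UniqueFactorizationMonoid.dvd_iff_emultiplicity_le hr0]
    intro p hp
    rw [emultiplicity_le_emultiplicity_iff]
    intro n hn
    rcases Nat.eq_zero_or_pos n with h0 | h0
    · rw [h0, pow_zero]; exact one_dvd _
    have hpp : Prime p := hp
    have hDp : D p = 0 := by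
      obtain ⟨y, hy⟩ := (dvd_pow_self p (by omega : n ≠ 0)).trans hn
      exact fact_closed D hln p y (by rw [← hy]; exact hrr) (by rw [← hy]; exact hr0)
    obtain ⟨x, hx⟩ := hprim p hpp hDp
    have h1 : p ^ n ∣ E r * D x := by
      rw [← hprop x]
      exact Dvd.dvd.mul_right hn _
    exact hpp.pow_dvd_of_dvd_mul_right n hx h1
  obtain ⟨α, hα⟩ := hdvd
  have hEα : ∀ x, E x = D x * α := by
    intro x
    apply mul_left_cancel₀ hr0
    rw [hprop x, hα]; ring
  obtain ⟨x, hx⟩ := hE0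
  obtain ⟨P, hP1, _⟩ := G.exists_top hx
  have h1 : E (G.comp (P - ε) x) = G.comp P (E x) := by rw [hE]; congr 2; ring
  have h2 : G.H P (D (G.comp (P - ε) x) * α) := by
    rw [← hEα, h1]; exact G.H_comp _ _
  have h3 : D (G.comp (P - ε) x) * α ≠ 0 := by rw [← hEα, h1]; exact hP1
  have h4 : G.H (P - ε + δ) (D (G.comp (P - ε) x)) := by
    rw [hD]; exact G.H_comp _ _
  have h5 := G.H_cancel (left_ne_zero_of_mul h3) h4 h2
  have h6 := G.H_nonneg (right_ne_zero_of_mul h3) h5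
  omega

end

variable {k : Type*} [Field k]

/-- Main theorem, graded form. -/
theorem main_graded [CharZero k] (w : Fin 3 → ℤ) (hw : ∀ i, 0 < w i)
    (D : Derivation k (MvPolynomial (Fin 3) k) (MvPolynomial (Fin 3) k))
    (hln : ∀ x, ∃ n, (⇑D)^[n] x = 0) (hD0 : ∃ x, D x ≠ 0) (δ : ℤ)
    (hhom : ∀ i, IsWeightedHomogeneous w (D (X i)) (w i + δ)) (f g : MvPolynomial (Fin 3) k)
    (hker : ∀ x, D x = 0 ↔ x ∈ Algebra.adjoin k {f, g}) (n : ℕ) :
    ∃ (Q c : MvPolynomial (Fin 3) k) (d : ℤ), Adapted (mvGr k w hw) D n Q c d := by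
  classical
  set G := mvGr k w hw with hG
  have hHD : G.HD D δ := mv_HD hw D δ hhom
  have hfc := fact_closed D hln
  have hA : kerAlg D = Algebra.adjoin k {f, g} := by
    ext x
    rw [mem_kerAlg, hker]
  obtain ⟨w0, hw0⟩ := jd_ne D hln hD0 f g (fun x hx => (hker x).mp hx)
  obtain ⟨f1, g1, a, b, hf1, hg1, ha, hb, hf10, hg10, hA1, hrel⟩ :=
    exists_gens G (kerAlg D) f g hA (by
      intro x hx e
      rw [mem_kerAlg] at hx ⊢
      rw [hHD, hx, map_zero]) hfc (by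
      intro u hu hle
      apply hw0
      have hfA : f ∈ kerAlg D := by rw [hA]; exact Algebra.subset_adjoin (by simp)
      have hgA : g ∈ kerAlg D := by rw [hA]; exact Algebra.subset_adjoin (by simp)
      rw [jd_cyc]
      apply eqOn_adjoin1 (jd g w0) (f := u) _ f (hle hfA)
      rw [jd_cyc]
      exact eqOn_adjoin1 (jd w0 u) (jd_self2 w0 u) g (hle hgA))
  have hker1 : ∀ x, D x = 0 ↔ x ∈ Algebra.adjoin k {f1, g1} := by
    intro x
    rw [← hA1, mem_kerAlg]
  obtain ⟨h, e, D', hh0, hDh, hD'h, hD', hHD', hprim⟩ := reduce G D hln hD0 δ hHD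
  have hit := div_iter D D' h hD'h hD'
  have hz : ∀ m x, (⇑D)^[m] x = 0 ↔ (⇑D')^[m] x = 0 := by
    intro m x
    rw [hit]
    constructor
    · intro h1
      rcases mul_eq_zero.mp h1 with h2 | h2
      · exact absurd h2 (pow_ne_zero m hh0)
      · exact h2
    · intro h1
      rw [h1, mul_zero]
  have hln' : ∀ x, ∃ n, (⇑D')^[n] x = 0 := by
    intro x
    obtain ⟨m, hm⟩ := hln x
    exact ⟨m, (hz m x).mp hm⟩
  have hD0' : ∃ x, D' x ≠ 0 := by
    obtain ⟨x, hx⟩ := hD0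
    refine ⟨x, ?_⟩
    intro h0
    rw [hD', h0, mul_zero] at hx
    exact hx rfl
  have hker' : ∀ x, D' x = 0 ↔ x ∈ Algebra.adjoin k {f1, g1} := by
    intro x
    rw [← hker1]
    have := hz 1 x
    simp only [Function.iterate_one] at this
    exact this.symm
  have hδ : δ - e ≤ a + b - (w 0 + w 1 + w 2) := by
    refine deg_bound G D' (jd f1 g1) hln' hD0' _ _ hHD'
      (jd_HD hw (mvGr_H' hw hf1) (mvGr_H' hw hg1)) hprim ?_ ?_
    · intro x hx
      exact eqOn_adjoin (jd f1 g1) (jd_self1 f1 g1) (jd_self2 f1 g1) x ((hker' x).mp hx)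
    · exact jd_ne D hln hD0 f1 g1 (fun x hx => (hker1 x).mp hx)
  have hw0' := hw 0
  have hw1' := hw 1
  have hw2' := hw 2
  obtain ⟨Q, c, d, h1, h2, h3, h4, h5⟩ := graded_main G D' hln' hD0' (δ - e) hHD' hf1 hg1 ha hb
    hf10 hg10 hker' hrel (by omega) n
  refine ⟨Q, h ^ n * c, d, h1, ?_, mul_ne_zero (pow_ne_zero n hh0) h3, ?_, ?_⟩
  · rw [hit, h2]
  · rw [D_pow_mul D hDh, hD', h4, mul_zero, mul_zero]
  · intro x hx
    rw [hit]
    exact mul_dvd_mul_left _ (h5 x ((hz _ x).mp hx))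

end Pool.Agent.LNDHom
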