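import Mathlib
import Pool.Agent.LNDHom.Jac

set_option autoImplicit false
set_option linter.unusedSectionVars false

open Polynomial

namespace Pool.Agent.LNDHom

variable {k B : Type*} [Field k] [CommRing B] [IsDomain B] [Algebra k B]

namespace Gr

variable (G : Gr k B)

/-- lowest degree -/
theorem exists_bot {x : B} (hx : x ≠ 0) : ∃ P : ℤ, G.comp P x ≠ 0 ∧ ∀ d, d < P →
    G.comp d x = 0 := by
  classical
  obtain ⟨s, hs1, hs2⟩ := G.fin x
  let s' := s.filter (fun d => G.comp d x ≠ 0)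
  have hne : s'.Nonempty := by
    by_contra h
    rw [Finset.not_nonempty_iff_eq_empty, Finset.filter_eq_empty_iff] at h
    apply hx
    rw [hs2]
    apply Finset.sum_eq_zero
    intro d hd
    have := h hd
    push Not at this
    exact this
  refine ⟨s'.min' hne, (Finset.mem_filter.mp (s'.min'_mem hne)).2, ?_⟩
  intro d hd
  by_contra h
  have h1 : d ∈ s' := by
    refine Finset.mem_filter.mpr ⟨?_, h⟩
    by_contra h2
    exact h (hs1 d h2)
  exact absurd (s'.min'_le d h1) (not_le.mpr hd)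

theorem bot_mul {x y : B} {P Y : ℤ} (hP : ∀ d, d < P → G.comp d x = 0)
    (hY : ∀ d, d < Y → G.comp d y = 0) :
    G.comp (P + Y) (x * y) = G.comp P x * G.comp Y y := by
  classical
  obtain ⟨s, hs1, hs2⟩ := G.fin x
  rw [G.comp_mul (P + Y) x y hs2, Finset.sum_eq_single P]
  · rw [show P + Y - P = Y by ring]
  · intro d _ hdP
    rcases lt_or_gt_of_ne hdP with h | h
    · rw [hP d h, zero_mul]
    · rw [hY (P + Y - d) (by omega), mul_zero]
  · intro h
    rw [hs1 P h, zero_mul]

/-- A factor of a homogeneous element is homogeneous. -/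
theorem H_of_mul {x y : B} {e : ℤ} (h : G.H e (x * y)) (h0 : x * y ≠ 0) : ∃ d, G.H d x := by
  classical
  obtain ⟨P, hP1, hP2⟩ := G.exists_top (left_ne_zero_of_mul h0)
  obtain ⟨Y, hY1, hY2⟩ := G.exists_top (right_ne_zero_of_mul h0)
  obtain ⟨P', hP1', hP2'⟩ := G.exists_bot (left_ne_zero_of_mul h0)
  obtain ⟨Y', hY1', hY2'⟩ := G.exists_bot (right_ne_zero_of_mul h0)
  have h1 := G.top_mul hP2 hY2
  have h2 := G.bot_mul hP2' hY2'
  have h3 : P + Y = e := by
    by_contra hne
    rw [G.H_ne h hne] at h1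
    exact mul_ne_zero hP1 hY1 h1.symm
  have h4 : P' + Y' = e := by
    by_contra hne
    rw [G.H_ne h hne] at h2
    exact mul_ne_zero hP1' hY1' h2.symm
  have h5 : P' ≤ P := by
    by_contra hlt
    exact hP1' (hP2 P' (by omega))
  have h6 : Y' ≤ Y := by
    by_contra hlt
    exact hY1' (hY2 Y' (by omega))
  have h7 : P = P' := by omega
  refine ⟨P, ?_⟩
  obtain ⟨s, hs1, hs2⟩ := G.fin x
  unfold H
  conv_rhs => rw [hs2]
  symm
  apply Finset.sum_eq_single
  · intro d _ hd
    rcases lt_or_gt_of_ne hd with h8 | h8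
    · exact hP2' d (by omega)
    · exact hP2 d h8
  · exact hs1 P

theorem not_unit_of_H {x : B} {N : ℤ} (hN : 0 < N) (h : G.H N x) : ¬ IsUnit x := by
  intro hu
  obtain ⟨y, hy⟩ := hu.exists_right_inv
  have h1 := G.mul_comp N 0 x y h
  rw [hy, G.one] at h1
  have h2 : G.comp (0 - N) y ≠ 0 := by
    intro h3
    rw [h3, mul_zero] at h1
    exact one_ne_zero h1
  have := G.nonneg _ _ h2
  omega

theorem const_of_H {x : B} (h : G.H 0 x) : ∃ r, x = algebraMap k B r := by
  obtain ⟨r, hr⟩ := G.zero x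
  exact ⟨r, by rw [← hr]; exact h.symm⟩

/-- a homogeneous nonunit has positive degree -/
theorem pos_of_not_unit {x : B} {e : ℤ} (h : G.H e x) (h0 : x ≠ 0) (hu : ¬ IsUnit x) : 0 < e := by
  have h1 := G.H_nonneg h0 h
  rcases h1.lt_or_eq with h2 | h2
  · exact h2
  · exfalso
    rw [← h2] at h
    obtain ⟨r, hr⟩ := G.const_of_H h
    apply hu
    rw [hr]
    apply IsUnit.map
    rw [isUnit_iff_ne_zero]
    rintro rfl
    rw [map_zero] at hr
    exact h0 hr

theorem H_sum {ι : Type*} (s : Finset ι) (F : ι → B) {d : ℤ} (h : ∀ i ∈ s, G.H d (F i)) :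
    G.H d (∑ i ∈ s, F i) := by
  unfold H at *
  rw [map_sum]
  exact Finset.sum_congr rfl h

end Gr

/-! ### Binary forms in two elements -/

/-- The homogenization of a polynomial, evaluated at `P`, `Q`. -/
noncomputable def Hm (P Q : B) (u : k[X]) (m : ℕ) : B :=
  ∑ i ∈ Finset.range (m + 1), u.coeff i • (P ^ i * Q ^ (m - i))

theorem Hm_eval {L : Type*} [Field L] [Algebra k L] (φ : B →ₐ[k] L) {P Q : B} (hQ : φ Q ≠ 0)
    (u : k[X]) (m : ℕ) (hu : u.natDegree ≤ m) :
    φ (Hm P Q u m) = φ Q ^ m * aeval (φ P / φ Q) u := by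
  rw [Hm, map_sum, Polynomial.aeval_eq_sum_range' (Nat.lt_succ_of_le hu), Finset.mul_sum]
  apply Finset.sum_congr rfl
  intro i hi
  have hi' : i ≤ m := Nat.lt_succ_iff.mp (Finset.mem_range.mp hi)
  rw [map_smul, map_mul, map_pow, map_pow, mul_smul_comm]
  congr 1
  rw [div_pow]
  have h1 : φ Q ^ m = φ Q ^ (m - i) * φ Q ^ i := by rw [← pow_add, Nat.sub_add_cancel hi']
  rw [h1]
  have h2 : φ Q ^ i ≠ 0 := pow_ne_zero _ hQ
  field_simp

theorem Hm_inj {Q : B} (hQ : Q ≠ 0) {x y : B} (h : ∀ φ : B →ₐ[k] FractionRing B,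
    φ Q ≠ 0 → φ x = φ y) : x = y := by
  let φ : B →ₐ[k] FractionRing B := IsScalarTower.toAlgHom k B (FractionRing B)
  have hinj : Function.Injective φ := IsFractionRing.injective B (FractionRing B)
  apply hinj
  apply h φ
  rw [Ne, map_eq_zero_iff φ hinj]
  exact hQ

theorem Hm_mul {P Q : B} (hQ : Q ≠ 0) (u v : k[X]) (m n : ℕ) (hu : u.natDegree ≤ m)
    (hv : v.natDegree ≤ n) : Hm P Q (u * v) (m + n) = Hm P Q u m * Hm P Q v n := by
  apply Hm_inj (k := k) hQ
  intro φ hφ
  rw [map_mul, Hm_eval φ hφ u m hu, Hm_eval φ hφ v n hv,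
    Hm_eval φ hφ (u * v) (m + n) (Polynomial.natDegree_mul_le.trans (by omega)), map_mul]
  ring

theorem Hm_add {P Q : B} (u v : k[X]) (m : ℕ) :
    Hm P Q (u + v) m = Hm P Q u m + Hm P Q v m := by
  simp only [Hm, Polynomial.coeff_add, add_smul, Finset.sum_add_distrib]

theorem Hm_one (P Q : B) (m : ℕ) : Hm P Q (1 : k[X]) m = Q ^ m := by
  rw [Hm, Finset.sum_eq_single 0]
  · simp
  · intro i _ hi
    rw [Polynomial.coeff_one, if_neg hi, zero_smul]
  · intro h
    exact absurd (Finset.mem_range.mpr (by omega)) h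

theorem Hm_C (P Q : B) (c : k) (m : ℕ) : Hm P Q (C c) m = algebraMap k B c * Q ^ m := by
  rw [Hm, Finset.sum_eq_single 0]
  · simp [Algebra.smul_def]
  · intro i _ hi
    rw [Polynomial.coeff_C, if_neg hi, zero_smul]
  · intro h
    exact absurd (Finset.mem_range.mpr (by omega)) h

theorem Hm_lin (P Q : B) (α β : k) : Hm P Q (C α * X + C β) 1 = α • P + β • Q := by
  rw [Hm, Finset.sum_range_succ, Finset.sum_range_succ, Finset.sum_range_zero]
  simp [Polynomial.coeff_X, add_comm]

theorem Hm_H (G : Gr k B) {P Q : B} {N : ℤ} (hP : G.H N P) (hQ : G.H N Q) (u : k[X]) (m : ℕ) :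
    G.H (m * N) (Hm P Q u m) := by
  apply G.H_sum
  intro i hi
  have hi' : i ≤ m := Nat.lt_succ_iff.mp (Finset.mem_range.mp hi)
  apply G.H_smul
  have := G.H_mul (G.H_pow hP i) (G.H_pow hQ (m - i))
  rwa [show (i : ℤ) * N + ((m - i : ℕ) : ℤ) * N = m * N by
    push_cast [Nat.cast_sub hi']; ring] at this

theorem Hm_mem {P Q : B} (A : Subalgebra k B) (hP : P ∈ A) (hQ : Q ∈ A) (u : k[X]) (m : ℕ) :
    Hm P Q u m ∈ A := by
  apply A.sum_mem
  intro i _
  exact A.smul_mem (A.mul_mem (A.pow_mem hP _) (A.pow_mem hQ _)) _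

/-- the set of members of the pencil and constants -/
def gens (k : Type*) {B : Type*} [Field k] [CommRing B] [Algebra k B] (P Q : B) : Set B :=
  {z | (∃ α β : k, (α ≠ 0 ∨ β ≠ 0) ∧ z = α • P + β • Q) ∨ ∃ c : k, c ≠ 0 ∧ z = algebraMap k B c}

theorem member_mem {P Q : B} {α β : k} (h : α ≠ 0 ∨ β ≠ 0) :
    α • P + β • Q ∈ Submonoid.closure (gens k P Q) :=
  Submonoid.subset_closure (Or.inl ⟨α, β, h, rfl⟩)

theorem Q_mem (P Q : B) : Q ∈ Submonoid.closure (gens k P Q) := by
  have := member_mem (k := k) (P := P) (Q := Q) (α := 0) (β := 1) (Or.inr one_ne_zero)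
  simpa using this

theorem Hm_prod [IsAlgClosed k] {P Q : B} (hQ : Q ≠ 0) (m : ℕ) : ∀ u : k[X], u ≠ 0 →
    u.natDegree ≤ m → Hm P Q u m ∈ Submonoid.closure (gens k P Q) := by
  induction m with
  | zero =>
    intro u hu0 hu
    rw [Polynomial.eq_C_of_natDegree_le_zero hu, Hm_C, pow_zero, mul_one]
    apply Submonoid.subset_closure
    right
    refine ⟨u.coeff 0, ?_, rfl⟩
    intro h
    apply hu0
    rw [Polynomial.eq_C_of_natDegree_le_zero hu, h, C_0]
  | succ m ih =>
    intro u hu0 hu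
    rcases Nat.lt_or_ge m u.natDegree with h | h
    · have hdeg : u.degree ≠ 0 := by
        intro h1
        have : u.natDegree = 0 := by
          rw [Polynomial.natDegree_eq_zero_iff_degree_le_zero]; exact h1.le
        omega
      obtain ⟨t, ht⟩ := IsAlgClosed.exists_root u hdeg
      obtain ⟨v, hv⟩ := Polynomial.dvd_iff_isRoot.mpr ht
      have hv0 : v ≠ 0 := by rintro rfl; rw [mul_zero] at hv; exact hu0 hv
      have hvd : v.natDegree ≤ m := by
        have h1 := congrArg Polynomial.natDegree hv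
        rw [Polynomial.natDegree_mul (Polynomial.X_sub_C_ne_zero t) hv0,
          Polynomial.natDegree_X_sub_C] at h1
        omega
      have h2 : Hm P Q u (m + 1) = Hm P Q (X - C t) 1 * Hm P Q v m := by
        rw [← Hm_mul hQ _ _ 1 m (by simp) hvd, ← hv, add_comm]
      rw [h2]
      apply Submonoid.mul_mem _ _ (ih v hv0 hvd)
      have h3 : (X - C t : k[X]) = C 1 * X + C (-t) := by
        rw [C_1, one_mul, C_neg, sub_eq_add_neg]
      rw [h3, Hm_lin]
      exact member_mem (Or.inl one_ne_zero)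
    · have h2 : Hm P Q u (m + 1) = Q * Hm P Q u m := by
        have := Hm_mul (P := P) hQ u 1 m 1 h (by simp)
        rw [mul_one, Hm_one, pow_one] at this
        rw [this, mul_comm]
      rw [h2]
      exact Submonoid.mul_mem _ (Q_mem P Q) (ih u hu0 h)

theorem member_rel {P Q : B} (hrel : IsRelPrime P Q) {α β α' β' : k}
    (h : α * β' - α' * β ≠ 0) : IsRelPrime (α • P + β • Q) (α' • P + β' • Q) := by
  intro d h1 h2
  have hs : ∀ (c : k) (x : B), d ∣ x → d ∣ c • x := by
    intro c x hx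
    rw [Algebra.smul_def]
    exact Dvd.dvd.mul_left hx _
  apply hrel
  · have h3 : d ∣ (α * β' - α' * β)⁻¹ • (β' • (α • P + β • Q) - β • (α' • P + β' • Q)) :=
      hs _ _ (dvd_sub (hs _ _ h1) (hs _ _ h2))
    have h4 : (α * β' - α' * β)⁻¹ • (β' • (α • P + β • Q) - β • (α' • P + β' • Q)) = P := by
      rw [inv_smul_eq_iff₀ h]
      module
    rwa [h4] at h3
  · have h3 : d ∣ (α * β' - α' * β)⁻¹ • (α • (α' • P + β' • Q) - α' • (α • P + β • Q)) :=
      hs _ _ (dvd_sub (hs _ _ h2) (hs _ _ h1))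
    have h4 : (α * β' - α' * β)⁻¹ • (α • (α' • P + β' • Q) - α' • (α • P + β • Q)) = Q := by
      rw [inv_smul_eq_iff₀ h]
      module
    rwa [h4] at h3

theorem member_prop {P Q : B} {α β α' β' : k} (h1 : α ≠ 0 ∨ β ≠ 0) (h2 : α' ≠ 0 ∨ β' ≠ 0)
    (h : α * β' - α' * β = 0) : ∃ c : k, c ≠ 0 ∧ α' • P + β' • Q = c • (α • P + β • Q) := by
  rcases h1 with h1 | h1
  · refine ⟨α' / α, ?_, ?_⟩
    · rw [div_ne_zero_iff]
      refine ⟨?_, h1⟩
      rintro rfl
      rw [zero_mul, sub_zero] at h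
      rcases mul_eq_zero.mp h with h3 | h3
      · exact h1 h3
      · rcases h2 with h2 | h2
        · exact h2 rfl
        · exact h2 h3
    · have h3 : β' = α' / α * β := by field_simp; linear_combination h
      have h4 : α' = α' / α * α := by field_simp
      rw [smul_add, smul_smul, smul_smul, ← h4, ← h3]
  · refine ⟨β' / β, ?_, ?_⟩
    · rw [div_ne_zero_iff]
      refine ⟨?_, h1⟩
      rintro rfl
      rw [mul_zero, zero_sub, neg_eq_zero] at h
      rcases mul_eq_zero.mp h with h3 | h3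
      · rcases h2 with h2 | h2
        · exact h2 h3
        · exact h2 rfl
      · exact h1 h3
    · have h3 : α' = β' / β * α := by field_simp; linear_combination -h
      have h4 : β' = β' / β * β := by field_simp
      rw [smul_add, smul_smul, smul_smul, ← h4, ← h3]

theorem isUnit_algebraMap {c : k} (hc : c ≠ 0) : IsUnit (algebraMap k B c) :=
  (isUnit_iff_ne_zero.mpr hc).map _

/-- Splitting a product of members with respect to one member. -/
theorem sep [UniqueFactorizationMonoid B] {P Q : B} (hrel : IsRelPrime P Q) {α β : k} (h : α ≠ 0 ∨ β ≠ 0) {x : B}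
    (hx : x ∈ Submonoid.closure (gens k P Q)) : ∃ (i : ℕ) (x' : B),
      x = (α • P + β • Q) ^ i * x' ∧ IsRelPrime (α • P + β • Q) x' := by
  induction hx using Submonoid.closure_induction with
  | mem x hx =>
    rcases hx with ⟨α', β', h', rfl⟩ | ⟨c, hc, rfl⟩
    · by_cases hd : α * β' - α' * β = 0
      · obtain ⟨c, hc, hcc⟩ := member_prop (P := P) (Q := Q) h h' hd
        refine ⟨1, algebraMap k B c, ?_, ?_⟩
        · rw [hcc, pow_one, Algebra.smul_def, mul_comm]
        · exact (isUnit_algebraMap hc).isRelPrime_right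
      · exact ⟨0, _, by rw [pow_zero, one_mul], member_rel hrel hd⟩
    · exact ⟨0, algebraMap k B c, by simp, (isUnit_algebraMap hc).isRelPrime_right⟩
  | one => exact ⟨0, 1, by simp, isRelPrime_one_right⟩
  | mul x y _ _ hx hy =>
    obtain ⟨i, x', rfl, h1⟩ := hx
    obtain ⟨j, y', rfl, h2⟩ := hy
    exact ⟨i + j, x' * y', by rw [pow_add]; ring, IsRelPrime.mul_right h1 h2⟩

theorem prime_dvd_closure {P Q p x : B} (hp : Prime p)
    (hx : x ∈ Submonoid.closure (gens k P Q)) (h : p ∣ x) :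
    ∃ α β : k, (α ≠ 0 ∨ β ≠ 0) ∧ p ∣ α • P + β • Q := by
  induction hx using Submonoid.closure_induction with
  | mem x hx =>
    rcases hx with ⟨α', β', h', rfl⟩ | ⟨c, hc, rfl⟩
    · exact ⟨α', β', h', h⟩
    · exact absurd (isUnit_of_dvd_unit h (isUnit_algebraMap hc)) hp.not_isUnit
  | one => exact absurd (isUnit_of_dvd_one h) hp.not_isUnit
  | mul x y _ _ hx hy =>
    rcases hp.dvd_or_dvd h with h1 | h1
    · exact hx h1
    · exact hy h1

/-- an element all of whose prime divisors are associated to `p` is a power of `p` -/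
theorem associated_pow [UniqueFactorizationMonoid B] {p x : B} (hx : x ≠ 0)
    (h : ∀ q, Prime q → q ∣ x → Associated q p) : ∃ a : ℕ, Associated x (p ^ a) := by
  induction x using UniqueFactorizationMonoid.induction_on_prime with
  | h₁ => exact absurd rfl hx
  | h₂ x hxu => exact ⟨0, by rw [pow_zero]; exact associated_one_iff_isUnit.mpr hxu⟩
  | h₃ x q hx0 hq ih =>
    obtain ⟨a, ha⟩ := ih hx0 (fun q' hq' hd => h q' hq' (Dvd.dvd.mul_left hd _))
    refine ⟨a + 1, ?_⟩
    rw [pow_succ']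
    exact (h q hq (dvd_mul_right _ _)).mul_mul ha

end Pool.Agent.LNDHom
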