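import Mathlib
import Pool.Agent.LNDHom.Pencil

set_option autoImplicit false
set_option linter.unusedSectionVars false

open Polynomial

namespace Pool.Agent.LNDHom

variable {k B : Type*} [Field k] [CommRing B] [IsDomain B] [Algebra k B]

theorem der_member (E : Derivation k B B) (P Q : B) (α β : k) :
    E (α • P + β • Q) = α • E P + β • E Q := by
  rw [map_add, Derivation.map_smul, Derivation.map_smul]

/-- Two coprime homogeneous constants of the same degree such that every homogeneous prime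
constant has a power which is a member of the pencil they span. -/
structure Pencil (G : Gr k B) (D : Derivation k B B) (N : ℤ) (P Q : B) : Prop where
  pos : 0 < N
  HP : G.H N P
  HQ : G.H N Q
  DP : D P = 0
  DQ : D Q = 0
  rel : IsRelPrime P Q
  prim : ∀ (p : B) (e : ℤ), Prime p → G.H e p → D p = 0 →
    ∃ (α β : k) (a : ℕ), (α ≠ 0 ∨ β ≠ 0) ∧ Associated (α • P + β • Q) (p ^ a)

namespace Pencil

variable {G : Gr k B} {D : Derivation k B B} {N : ℤ} {P Q : B}

theorem swap (h : Pencil G D N P Q) : Pencil G D N Q P where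
  pos := h.pos
  HP := h.HQ
  HQ := h.HP
  DP := h.DQ
  DQ := h.DP
  rel := h.rel.symm
  prim := by
    intro p e hp he hDp
    obtain ⟨α, β, a, h1, h2⟩ := h.prim p e hp he hDp
    exact ⟨β, α, a, h1.symm, by rwa [add_comm]⟩

theorem P_ne (h : Pencil G D N P Q) : P ≠ 0 := by
  rintro h0
  have h1 : IsUnit Q := h.rel (by rw [h0]; exact dvd_zero _) dvd_rfl
  exact G.not_unit_of_H h.pos h.HQ h1

theorem Q_ne (h : Pencil G D N P Q) : Q ≠ 0 := h.swap.P_ne

theorem member_H (h : Pencil G D N P Q) (α β : k) : G.H N (α • P + β • Q) :=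
  G.H_add (G.H_smul h.HP α) (G.H_smul h.HQ β)

theorem member_D (h : Pencil G D N P Q) (α β : k) : D (α • P + β • Q) = 0 := by
  rw [der_member, h.DP, h.DQ, smul_zero, smul_zero, add_zero]

theorem member_ne (h : Pencil G D N P Q) {α β : k} (h1 : α ≠ 0 ∨ β ≠ 0) :
    α • P + β • Q ≠ 0 := by
  intro h0
  rcases h1 with h1 | h1
  · have h2 : Q ∣ P := by
      refine ⟨algebraMap k B (-(α⁻¹ * β)), ?_⟩
      rw [mul_comm, ← Algebra.smul_def]
      have h3 : P = α⁻¹ • ((α • P + β • Q) - β • Q) := by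
        rw [add_sub_cancel_right, smul_smul, inv_mul_cancel₀ h1, one_smul]
      rw [h3, h0]
      module
    exact G.not_unit_of_H h.pos h.HQ (h.rel h2 dvd_rfl)
  · have h2 : P ∣ Q := by
      refine ⟨algebraMap k B (-(β⁻¹ * α)), ?_⟩
      rw [mul_comm, ← Algebra.smul_def]
      have h3 : Q = β⁻¹ • ((α • P + β • Q) - α • P) := by
        rw [add_sub_cancel_left, smul_smul, inv_mul_cancel₀ h1, one_smul]
      rw [h3, h0]
      module
    exact G.not_unit_of_H h.pos h.HP (h.rel dvd_rfl h2)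

/-- `y` is not divisible by a member -/
def Reduced (k : Type*) {B : Type*} [Field k] [CommRing B] [Algebra k B] (P Q y : B) : Prop :=
  ∀ α β : k, (α ≠ 0 ∨ β ≠ 0) → ¬ (α • P + β • Q) ∣ y

theorem reduced_dvd [UniqueFactorizationMonoid B] (h : Pencil G D N P Q)
    (hfc : ∀ x y, D (x * y) = 0 → x * y ≠ 0 → D x = 0)
    (E1 E2 : Derivation k B B) (J : B) (h11 : E1 P = J) (h12 : E1 Q = 0) (h21 : E2 P = 0)
    (h22 : E2 Q = J) {y : B} {e : ℤ} (hy : G.H e y) (hDy : D y = 0) (hy0 : y ≠ 0)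
    (hred : Reduced k P Q y) : y ∣ J := by
  rw [UniqueFactorizationMonoid.dvd_iff_emultiplicity_le hy0]
  intro p hp
  rw [emultiplicity_le_emultiplicity_iff]
  intro n hn
  have hpp : Prime p := hp
  rcases Nat.eq_zero_or_pos n with h0 | h0
  · rw [h0, pow_zero]; exact one_dvd _
  obtain ⟨z, hz⟩ := (dvd_pow_self p (by omega : n ≠ 0)).trans hn
  have hDp : D p = 0 := hfc p z (by rw [← hz]; exact hDy) (by rw [← hz]; exact hy0)
  obtain ⟨ep, hep⟩ := G.H_of_mul (x := p) (y := z) (e := e) (by rw [← hz]; exact hy)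
    (by rw [← hz]; exact hy0)
  obtain ⟨α, β, a, h1, h2⟩ := h.prim p ep hpp hep hDp
  have hna : n < a := by
    by_contra hcon
    exact hred α β h1 (h2.dvd.trans ((pow_dvd_pow p (by omega)).trans hn))
  obtain ⟨v, hv⟩ := h2.symm
  have key : ∀ E : Derivation k B B, p ^ n ∣ E (α • P + β • Q) := by
    intro E
    rw [← hv, Derivation.leibniz, Derivation.leibniz_pow]
    apply dvd_add
    · exact Dvd.dvd.mul_right (pow_dvd_pow p hna.le) _
    · simp only [smul_eq_mul, nsmul_eq_mul]
      apply Dvd.dvd.mul_left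
      apply Dvd.dvd.mul_left
      exact Dvd.dvd.mul_right (pow_dvd_pow p (by omega)) _
  have hs : ∀ (c : k) (x : B), p ^ n ∣ x → p ^ n ∣ c • x := by
    intro c x hx
    rw [Algebra.smul_def]
    exact Dvd.dvd.mul_left hx _
  rcases h1 with h1 | h1
  · have h3 := key E1
    rw [der_member, h11, h12, smul_zero, add_zero] at h3
    have h4 := hs α⁻¹ _ h3
    rwa [smul_smul, inv_mul_cancel₀ h1, one_smul] at h4
  · have h3 := key E2
    rw [der_member, h21, h22, smul_zero, zero_add] at h3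
    have h4 := hs β⁻¹ _ h3
    rwa [smul_smul, inv_mul_cancel₀ h1, one_smul] at h4

theorem exists_reduced (h : Pencil G D N P Q)
    (hfc : ∀ x y, D (x * y) = 0 → x * y ≠ 0 → D x = 0) (b : ℕ) :
    ∀ (x : B) (n : ℤ), G.H n x → D x = 0 → x ≠ 0 → n < b → ∃ (m : ℕ) (y F : B), x = y * F ∧
      D y = 0 ∧ y ≠ 0 ∧ G.H (n - m * N) y ∧ F ∈ Algebra.adjoin k {P, Q} ∧ G.H (m * N) F ∧
      Reduced k P Q y := by
  induction b with
  | zero =>
    intro x n hx _ hx0 hn
    have := G.H_nonneg hx0 hx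
    exfalso
    push_cast at hn
    omega
  | succ b ih =>
    intro x n hx hDx hx0 hn
    by_cases hred : Reduced k P Q x
    · exact ⟨0, x, 1, by rw [mul_one], hDx, hx0, by simpa using hx, Subalgebra.one_mem _,
        by simpa using G.H_one, hred⟩
    · unfold Reduced at hred
      push Not at hred
      obtain ⟨α, β, h1, x', hx'⟩ := hred
      have hM0 := h.member_ne h1
      have hx'0 : x' ≠ 0 := by rintro rfl; rw [mul_zero] at hx'; exact hx0 hx'
      have hx'H : G.H (n - N) x' := G.H_cancel hM0 (h.member_H α β) (by rw [← hx']; exact hx)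
      have hDx' : D x' = 0 := hfc x' (α • P + β • Q) (by rw [mul_comm, ← hx']; exact hDx)
        (by rw [mul_comm, ← hx']; exact hx0)
      have hpos := h.pos
      obtain ⟨m, y, F, e1, e2, e3, e4, e5, e6, e7⟩ := ih x' (n - N) hx'H hDx' hx'0 (by
        push_cast at hn; omega)
      refine ⟨m + 1, y, (α • P + β • Q) * F, ?_, e2, e3, ?_, ?_, ?_, e7⟩
      · rw [hx', e1]; ring
      · rwa [show n - N - m * N = n - ((m + 1 : ℕ) : ℤ) * N by push_cast; ring] at e4
      · apply Subalgebra.mul_mem _ _ e5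
        apply Subalgebra.add_mem
        · exact Subalgebra.smul_mem _ (Algebra.subset_adjoin (by simp)) _
        · exact Subalgebra.smul_mem _ (Algebra.subset_adjoin (by simp)) _
      · have := G.H_mul (h.member_H α β) e6
        rwa [show N + m * N = ((m + 1 : ℕ) : ℤ) * N by push_cast; ring] at this

theorem soc' (h : Pencil G D N P Q)
    (hfc : ∀ x y, D (x * y) = 0 → x * y ≠ 0 → D x = 0) {ω : ℤ}
    (hω : ∀ (y : B) (e : ℤ), G.H e y → D y = 0 → y ≠ 0 → Reduced k P Q y → e ≤ ω)
    {x : B} (hDx : D x = 0) {n : ℤ} (hn : G.H n x) (α β : ℕ)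
    (hlt : N * (α - 1) + N * (β - 1) + ω < n) :
    ∃ μ ν : B, D μ = 0 ∧ D ν = 0 ∧ x = P ^ α * μ + Q ^ β * ν := by
  by_cases hx0 : x = 0
  · exact ⟨0, 0, map_zero _, map_zero _, by rw [hx0]; ring⟩
  obtain ⟨m, y, F, e1, e2, e3, e4, e5, e6, e7⟩ := h.exists_reduced hfc (n.toNat + 1) x n hn hDx hx0
    (by push_cast; omega)
  have h1 := hω y _ e4 e2 e3 e7
  obtain ⟨μ, ν, hμ, hν, hF⟩ := soc G h.HP h.HQ h.pos h.pos e5 e6 α β (by linarith)
  have hμ' := eqOn_adjoin D h.DP h.DQ μ hμ
  have hν' := eqOn_adjoin D h.DP h.DQ ν hν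
  refine ⟨y * μ, y * ν, ?_, ?_, ?_⟩
  · rw [Derivation.leibniz, e2, hμ']; simp
  · rw [Derivation.leibniz, e2, hν']; simp
  · rw [e1, hF]; ring

/-- multiples of a homogeneous constant prime to `p` -/
theorem exists_mult [UniqueFactorizationMonoid B] (h : Pencil G D N P Q)
    (hfc : ∀ x y, D (x * y) = 0 → x * y ≠ 0 → D x = 0) {p : B} (hp : Prime p) {t : k}
    (hpt : p ∣ P - t • Q) (j : B) : ∀ (e : ℤ), G.H e j → D j = 0 → j ≠ 0 → ¬ p ∣ j →
    ∃ (j' : B) (u : k[X]) (m : ℕ), D j' = 0 ∧ u.natDegree ≤ m ∧ Hm P Q u m = j * j' ∧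
      u.eval t ≠ 0 := by
  induction j using UniqueFactorizationMonoid.induction_on_prime with
  | h₁ => intro e _ _ h0; exact absurd rfl h0
  | h₂ x hxu =>
    intro e he hDx hx0 _
    obtain ⟨y, hy⟩ := hxu.exists_right_inv
    refine ⟨y, 1, 0, ?_, by simp, ?_, by simp⟩
    · apply hfc y x
      · rw [mul_comm, hy]; simp
      · rw [mul_comm, hy]; exact one_ne_zero
    · rw [Hm_one, pow_zero, hy]
  | h₃ x q hx0 hq ih =>
    intro e he hDj hj0 hpj
    obtain ⟨eq, heq⟩ := G.H_of_mul he hj0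
    have hxH := G.H_cancel hq.ne_zero heq he
    have hDq : D q = 0 := hfc q x hDj hj0
    have hDx : D x = 0 := hfc x q (by rw [mul_comm]; exact hDj) (by rw [mul_comm]; exact hj0)
    obtain ⟨j', u, m, i1, i2, i3, i4⟩ := ih _ hxH hDx hx0
      (fun hd => hpj (Dvd.dvd.mul_left hd _))
    obtain ⟨α, β, a, h1, h2⟩ := h.prim q eq hq heq hDq
    have ha : a ≠ 0 := by
      rintro rfl
      rw [pow_zero] at h2
      exact G.not_unit_of_H h.pos (h.member_H α β) (associated_one_iff_isUnit.mp h2)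
    obtain ⟨v, hv⟩ := h2.symm
    have hDv : D (v : B) = 0 := by
      obtain ⟨y, hy⟩ := v.isUnit.exists_right_inv
      apply hfc (v : B) y
      · rw [hy]; simp
      · rw [hy]; exact one_ne_zero
    have hev : α * t + β ≠ 0 := by
      intro h0
      have h3 : α • P + β • Q = α • (P - t • Q) := by
        rw [smul_sub, smul_smul, show β = -(α * t) by linear_combination h0]
        module
      have h4 : p ∣ α • P + β • Q := by
        rw [h3, Algebra.smul_def]
        exact Dvd.dvd.mul_left hpt _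
      rw [← hv] at h4
      rcases hp.dvd_or_dvd h4 with h5 | h5
      · have h6 := hp.dvd_of_dvd_pow h5
        exact hpj (Dvd.dvd.mul_right h6 _)
      · exact hp.not_isUnit (isUnit_of_dvd_unit h5 v.isUnit)
    refine ⟨j' * (q ^ (a - 1) * v), u * (C α * X + C β), m + 1, ?_, ?_, ?_, ?_⟩
    · rw [Derivation.leibniz, Derivation.leibniz, Derivation.leibniz_pow, i1, hDq, hDv]; simp
    · refine Polynomial.natDegree_mul_le.trans ?_
      have := Polynomial.natDegree_linear_le (a := α) (b := β)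
      omega
    · rw [Hm_mul h.Q_ne _ _ _ _ i2 Polynomial.natDegree_linear_le, i3, Hm_lin, ← hv]
      have h7 : q ^ a = q * q ^ (a - 1) := by rw [← pow_succ']; congr 1; omega
      rw [h7]; ring
    · rw [Polynomial.eval_mul]
      apply mul_ne_zero i4
      simpa using hev

/-- a power of `Q` lies in every ideal of constants without common divisor -/
theorem pow_mem [IsAlgClosed k] [UniqueFactorizationMonoid B] (h : Pencil G D N P Q)
    (hfc : ∀ x y, D (x * y) = 0 → x * y ≠ 0 → D x = 0)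
    (J : Set B) (hJA : ∀ x ∈ J, D x = 0) (hJadd : ∀ x ∈ J, ∀ y ∈ J, x + y ∈ J)
    (hJmul : ∀ c, D c = 0 → ∀ x ∈ J, c * x ∈ J) (hJcomp : ∀ x ∈ J, ∀ e, G.comp e x ∈ J)
    (hJne : ∃ x ∈ J, x ≠ 0)
    (hmax : ∀ c, D c = 0 → ∀ d, G.H d c → c ≠ 0 → (∀ x ∈ J, c ∣ x) → d = 0) :
    ∃ β : ℕ, Q ^ β ∈ J := by
  classical
  have hPA : P ∈ kerAlg D := by rw [mem_kerAlg]; exact h.DP
  have hQA : Q ∈ kerAlg D := by rw [mem_kerAlg]; exact h.DQ
  have hHm : ∀ (u : k[X]) m, D (Hm P Q u m) = 0 := by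
    intro u m
    have := Hm_mem (kerAlg D) hPA hQA u m
    rwa [mem_kerAlg] at this
  have hDQ : ∀ n, D (Q ^ n) = 0 := by
    intro n
    rw [Derivation.leibniz_pow, h.DQ]; simp
  obtain ⟨x0, hx0, hx00⟩ := hJne
  let I : Ideal k[X] :=
    { carrier := {u | ∃ m, u.natDegree ≤ m ∧ Hm P Q u m ∈ J}
      zero_mem' := by
        refine ⟨0, by simp, ?_⟩
        have h1 := hJmul 0 (map_zero _) x0 hx0
        rw [zero_mul] at h1
        simpa [Hm] using h1
      add_mem' := by
        rintro u v ⟨m, hm, hu⟩ ⟨n, hn, hv⟩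
        refine ⟨m + n, (Polynomial.natDegree_add_le _ _).trans (by omega), ?_⟩
        rw [Hm_add]
        apply hJadd
        · have := Hm_mul (P := P) h.Q_ne (1 : k[X]) u n m (by simp) hm
          rw [one_mul, Hm_one, add_comm] at this
          rw [this]
          exact hJmul _ (hDQ n) _ hu
        · have := Hm_mul (P := P) h.Q_ne (1 : k[X]) v m n (by simp) hn
          rw [one_mul, Hm_one] at this
          rw [this]
          exact hJmul _ (hDQ m) _ hv
      smul_mem' := by
        rintro c u ⟨m, hm, hu⟩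
        refine ⟨c.natDegree + m, ?_, ?_⟩
        · rw [smul_eq_mul]
          exact Polynomial.natDegree_mul_le.trans (by omega)
        · rw [smul_eq_mul, Hm_mul h.Q_ne _ _ _ _ le_rfl hm]
          exact hJmul _ (hHm _ _) _ hu }
  have hI1 : (1 : k[X]) ∈ I := by
    by_contra hne
    -- a common root
    obtain ⟨u0, hu0⟩ := IsPrincipalIdealRing.principal I
    have hroot : ∃ t : k, ∀ u ∈ I, u.eval t = 0 := by
      by_cases hd : u0.degree = 0
      · exfalso
        apply hne
        have h1 : u0 ∈ I := by rw [hu0]; exact Submodule.mem_span_singleton_self _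
        have h2 : IsUnit u0 := Polynomial.isUnit_iff_degree_eq_zero.mpr hd
        rw [Ideal.eq_top_of_isUnit_mem I h1 h2]
        exact Submodule.mem_top
      · obtain ⟨t, ht⟩ := IsAlgClosed.exists_root u0 hd
        refine ⟨t, ?_⟩
        intro u hu
        rw [hu0] at hu
        obtain ⟨c, rfl⟩ := Submodule.mem_span_singleton.mp hu
        rw [smul_eq_mul, Polynomial.eval_mul, ht.eq_zero, mul_zero]
    obtain ⟨t, ht⟩ := hroot
    have hM : P - t • Q = (1 : k) • P + (-t) • Q := by module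
    have hM0 : P - t • Q ≠ 0 := by rw [hM]; exact h.member_ne (Or.inl one_ne_zero)
    have hMH : G.H N (P - t • Q) := by rw [hM]; exact h.member_H _ _
    have hMD : D (P - t • Q) = 0 := by rw [hM]; exact h.member_D _ _
    obtain ⟨p, hp, hpM⟩ := WfDvdMonoid.exists_irreducible_factor
      (G.not_unit_of_H h.pos hMH) hM0
    have hpp : Prime p := UniqueFactorizationMonoid.irreducible_iff_prime.mp hp
    obtain ⟨z, hz⟩ := hpM
    obtain ⟨e, he⟩ := G.H_of_mul (x := p) (y := z) (e := N) (by rw [← hz]; exact hMH)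
      (by rw [← hz]; exact hM0)
    have hDp : D p = 0 := hfc p z (by rw [← hz]; exact hMD) (by rw [← hz]; exact hM0)
    have hepos := G.pos_of_not_unit he hpp.ne_zero hpp.not_isUnit
    have h1 : ¬ ∀ x ∈ J, p ∣ x := by
      intro hall
      have := hmax p hDp e he hpp.ne_zero hall
      omega
    push Not at h1
    obtain ⟨x1, hx1, hx1p⟩ := h1
    have h2 : ∃ d, ¬ p ∣ G.comp d x1 := by
      by_contra hcon
      push Not at hcon
      exact hx1p (G.dvd_of_comp hcon)
    obtain ⟨d, hd⟩ := h2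
    have hjJ := hJcomp x1 hx1 d
    obtain ⟨j', u, m, i1, i2, i3, i4⟩ := h.exists_mult hfc hpp ⟨z, hz⟩ (G.comp d x1) d
      (G.H_comp d x1) (hJA _ hjJ) (by intro h0; rw [h0] at hd; exact hd (dvd_zero _)) hd
    apply i4
    apply ht
    refine ⟨m, i2, ?_⟩
    rw [i3, mul_comm]
    exact hJmul _ i1 _ hjJ
  obtain ⟨m, _, hm⟩ := hI1
  rw [Hm_one] at hm
  exact ⟨m, hm⟩

end Pencil

end Pool.Agent.LNDHom
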