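import Mathlib
import Pool.Agent.LNDHom.Pencil2

set_option autoImplicit false
set_option linter.unusedSectionVars false

open Polynomial

namespace Pool.Agent.LNDHom

variable {k B : Type*} [Field k] [CommRing B] [IsDomain B] [Algebra k B]

theorem member_ne' (G : Gr k B) {N : ℤ} {P Q : B} (hN : 0 < N) (hP : G.H N P) (hQ : G.H N Q)
    (hrel : IsRelPrime P Q) {α β : k} (h1 : α ≠ 0 ∨ β ≠ 0) : α • P + β • Q ≠ 0 := by
  intro h0
  rcases h1 with h1 | h1
  · have h2 : Q ∣ P := by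
      refine ⟨algebraMap k B (-(α⁻¹ * β)), ?_⟩
      rw [mul_comm, ← Algebra.smul_def]
      have h3 : P = α⁻¹ • ((α • P + β • Q) - β • Q) := by
        rw [add_sub_cancel_right, smul_smul, inv_mul_cancel₀ h1, one_smul]
      rw [h3, h0]
      module
    exact G.not_unit_of_H hN hQ (hrel h2 dvd_rfl)
  · have h2 : P ∣ Q := by
      refine ⟨algebraMap k B (-(β⁻¹ * α)), ?_⟩
      rw [mul_comm, ← Algebra.smul_def]
      have h3 : Q = β⁻¹ • ((α • P + β • Q) - α • P) := by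
        rw [add_sub_cancel_left, smul_smul, inv_mul_cancel₀ h1, one_smul]
      rw [h3, h0]
      module
    exact G.not_unit_of_H hN hP (hrel dvd_rfl h2)

theorem exists_pencil [IsAlgClosed k] [UniqueFactorizationMonoid B] (G : Gr k B)
    (D : Derivation k B B) (hfc : ∀ x y, D (x * y) = 0 → x * y ≠ 0 → D x = 0)
    (ψ : B →ₐ[k] k[X]) (hψ : ∀ x n, D x = 0 → G.H n x → ψ x = 0 → x = 0)
    (hne : ∃ (n : ℤ) (F F' : B), D F = 0 ∧ D F' = 0 ∧ G.H n F ∧ G.H n F' ∧ F' ≠ 0 ∧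
      ∀ c : k, F ≠ c • F') :
    ∃ (N : ℤ) (P Q : B), Pencil G D N P Q := by
  classical
  let φ : B →ₐ[k] RatFunc k := (IsScalarTower.toAlgHom k k[X] (RatFunc k)).comp ψ
  have hφ : ∀ x n, D x = 0 → G.H n x → φ x = 0 → x = 0 := by
    intro x n hDx hnx h0
    apply hψ x n hDx hnx
    have h1 : algebraMap k[X] (RatFunc k) (ψ x) = 0 := h0
    exact (map_eq_zero_iff _ (IsFractionRing.injective k[X] (RatFunc k))).mp h1
  have hφ' : ∀ x n, D x = 0 → G.H n x → x ≠ 0 → φ x ≠ 0 := fun x n h1 h2 h3 h4 =>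
    h3 (hφ x n h1 h2 h4)
  have hDmul : ∀ x y, D x = 0 → D y = 0 → D (x * y) = 0 := by
    intro x y hx hy
    rw [Derivation.leibniz, hx, hy]; simp
  let E : IntermediateField k (RatFunc k) :=
    { carrier := {z | ∃ (n : ℤ) (F F' : B), D F = 0 ∧ D F' = 0 ∧ G.H n F ∧ G.H n F' ∧ F' ≠ 0 ∧
        z = φ F / φ F'}
      mul_mem' := by
        rintro z w ⟨n, F, F', h1, h2, h3, h4, h5, rfl⟩ ⟨m, H, H', i1, i2, i3, i4, i5, rfl⟩
        refine ⟨n + m, F * H, F' * H', hDmul _ _ h1 i1, hDmul _ _ h2 i2, G.H_mul h3 i3,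
          G.H_mul h4 i4, mul_ne_zero h5 i5, ?_⟩
        rw [map_mul, map_mul, div_mul_div_comm]
      add_mem' := by
        rintro z w ⟨n, F, F', h1, h2, h3, h4, h5, rfl⟩ ⟨m, H, H', i1, i2, i3, i4, i5, rfl⟩
        refine ⟨n + m, F * H' + F' * H, F' * H', ?_, hDmul _ _ h2 i2, ?_,
          G.H_mul h4 i4, mul_ne_zero h5 i5, ?_⟩
        · rw [map_add, hDmul _ _ h1 i2, hDmul _ _ h2 i1, add_zero]
        · exact G.H_add (G.H_mul h3 i4) (G.H_mul h4 i3)
        · rw [map_add, map_mul, map_mul, map_mul,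
            div_add_div _ _ (hφ' _ _ h2 h4 h5) (hφ' _ _ i2 i4 i5)]
      algebraMap_mem' := by
        intro c
        refine ⟨0, algebraMap k B c, 1, by simp, by simp, G.H_algebraMap c, G.H_one,
          one_ne_zero, ?_⟩
        rw [map_one, div_one, AlgHom.commutes]
      inv_mem' := by
        rintro z ⟨n, F, F', h1, h2, h3, h4, h5, rfl⟩
        by_cases hF : F = 0
        · refine ⟨n, 0, F', map_zero _, h2, G.H_zero n, h4, h5, ?_⟩
          rw [hF, map_zero, zero_div, inv_zero]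
        · exact ⟨n, F', F, h2, h1, h4, h3, hF, by rw [inv_div]⟩ }
  have hmemE : ∀ z, z ∈ E ↔ ∃ (n : ℤ) (F F' : B), D F = 0 ∧ D F' = 0 ∧ G.H n F ∧ G.H n F' ∧
      F' ≠ 0 ∧ z = φ F / φ F' := fun z => Iff.rfl
  have hE : E ≠ ⊥ := by
    intro hbot
    obtain ⟨n, F, F', h1, h2, h3, h4, h5, h6⟩ := hne
    have h7 : φ F / φ F' ∈ E := (hmemE _).mpr ⟨n, F, F', h1, h2, h3, h4, h5, rfl⟩
    rw [hbot, IntermediateField.mem_bot] at h7
    obtain ⟨c, hc⟩ := h7
    apply h6 c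
    rw [← sub_eq_zero]
    apply hφ _ n
    · rw [map_sub, Derivation.map_smul, h1, h2, smul_zero, sub_zero]
    · exact G.H_sub h3 (G.H_smul h4 c)
    · rw [map_sub, map_smul, Algebra.smul_def, hc, div_mul_cancel₀ _ (hφ' _ _ h2 h4 h5), sub_self]
  obtain ⟨n, P0, Q0, h1, h2, h3, h4, h5, h6⟩ := (hmemE _).mp
    (RatFunc.Luroth.generator_mem (E := E))
  have hspec := RatFunc.Luroth.generator_spec hE
  have hgen := RatFunc.Luroth.eq_adjoin_generator (E := E)
  set θ := RatFunc.Luroth.generator E with hθ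
  have hP00 : P0 ≠ 0 := by
    rintro rfl
    apply hspec
    rw [h6, map_zero, zero_div]
    exact ⟨0, map_zero _⟩
  obtain ⟨P, Q, d, hrel, hdP, hdQ⟩ := UniqueFactorizationMonoid.exists_reduced_factors P0 hP00 Q0
  have hd0 : d ≠ 0 := by rintro rfl; rw [zero_mul] at hdP; exact hP00 hdP.symm
  have hP0 : P ≠ 0 := by rintro rfl; rw [mul_zero] at hdP; exact hP00 hdP.symm
  have hQ0 : Q ≠ 0 := by rintro rfl; rw [mul_zero] at hdQ; exact h5 hdQ.symm
  obtain ⟨e0, he0⟩ := G.H_of_mul (x := d) (y := P) (e := n) (by rw [hdP]; exact h3)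
    (by rw [hdP]; exact hP00)
  have hPH : G.H (n - e0) P := G.H_cancel hd0 he0 (by rw [hdP]; exact h3)
  have hQH : G.H (n - e0) Q := G.H_cancel hd0 he0 (by rw [hdQ]; exact h4)
  have hDP : D P = 0 := hfc P d (by rw [mul_comm, hdP]; exact h1)
    (by rw [mul_comm, hdP]; exact hP00)
  have hDQ : D Q = 0 := hfc Q d (by rw [mul_comm, hdQ]; exact h2)
    (by rw [mul_comm, hdQ]; exact h5)
  have hDd : D d = 0 := hfc d P (by rw [hdP]; exact h1) (by rw [hdP]; exact hP00)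
  have hφQ : φ Q ≠ 0 := hφ' _ _ hDQ hQH hQ0
  have hφd : φ d ≠ 0 := hφ' _ _ hDd he0 hd0
  have hθ' : θ = φ P / φ Q := by
    rw [h6, ← hdP, ← hdQ, map_mul, map_mul, mul_div_mul_left _ _ hφd]
  set N := n - e0 with hNdef
  have hN : 0 < N := by
    have h7 := G.H_nonneg hP0 hPH
    rcases h7.lt_or_eq with h8 | h8
    · exact h8
    · exfalso
      rw [← h8] at hPH hQH
      obtain ⟨r, hr⟩ := G.const_of_H hPH
      obtain ⟨s, hs⟩ := G.const_of_H hQH
      apply hspec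
      refine ⟨r / s, ?_⟩
      rw [hθ', hr, hs, AlgHom.commutes, AlgHom.commutes, map_div₀]
  refine ⟨N, P, Q, hN, hPH, hQH, hDP, hDQ, hrel, ?_⟩
  intro p e hp he hDp
  have hepos := G.pos_of_not_unit he hp.ne_zero hp.not_isUnit
  obtain ⟨e', he'⟩ : ∃ e' : ℕ, (e' : ℤ) = e := ⟨e.toNat, by omega⟩
  obtain ⟨N', hN'⟩ : ∃ N' : ℕ, (N' : ℤ) = N := ⟨N.toNat, by omega⟩
  have hN'0 : N' ≠ 0 := by omega
  have hDpow : ∀ (x : B) (n : ℕ), D x = 0 → D (x ^ n) = 0 := by
    intro x n hx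
    rw [Derivation.leibniz_pow, hx]; simp
  have hz : φ (p ^ N') / φ (Q ^ e') ∈ E := by
    refine (hmemE _).mpr ⟨N' * e, p ^ N', Q ^ e', hDpow _ _ hDp, hDpow _ _ hDQ, G.H_pow he N', ?_,
      pow_ne_zero _ hQ0, rfl⟩
    have := G.H_pow hQH e'
    rwa [show (e' : ℤ) * N = N' * e by rw [he', hN']; ring] at this
  rw [hgen, IntermediateField.mem_adjoin_simple_iff] at hz
  obtain ⟨r, s, hrs⟩ := hz
  have hφp : φ p ≠ 0 := hφ' _ _ hDp he hp.ne_zero
  have hz0 : φ (p ^ N') / φ (Q ^ e') ≠ 0 := by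
    rw [map_pow, map_pow]
    exact div_ne_zero (pow_ne_zero _ hφp) (pow_ne_zero _ hφQ)
  have hr0 : aeval θ r ≠ 0 := by
    intro h0
    rw [hrs, h0, zero_div] at hz0
    exact hz0 rfl
  have hs0 : aeval θ s ≠ 0 := by
    intro h0
    rw [hrs, h0, div_zero] at hz0
    exact hz0 rfl
  have hr00 : r ≠ 0 := by rintro rfl; exact hr0 (map_zero _)
  have hs00 : s ≠ 0 := by rintro rfl; exact hs0 (map_zero _)
  set m := max r.natDegree s.natDegree with hm
  have hrm : r.natDegree ≤ m := le_max_left _ _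
  have hsm : s.natDegree ≤ m := le_max_right _ _
  have hRc := Hm_prod (P := P) hQ0 m r hr00 hrm
  have hSc := Hm_prod (P := P) hQ0 m s hs00 hsm
  have hPA : P ∈ kerAlg D := by rw [mem_kerAlg]; exact hDP
  have hQA : Q ∈ kerAlg D := by rw [mem_kerAlg]; exact hDQ
  have hHm : ∀ (u : k[X]) m, D (Hm P Q u m) = 0 := by
    intro u m
    have := Hm_mem (kerAlg D) hPA hQA u m
    rwa [mem_kerAlg] at this
  have hφR := Hm_eval φ (P := P) hφQ r m hrm
  have hφS := Hm_eval φ (P := P) hφQ s m hsm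
  rw [← hθ'] at hφR hφS
  have heq : p ^ N' * Hm P Q s m = Q ^ e' * Hm P Q r m := by
    rw [← sub_eq_zero]
    apply hφ _ (N' * e + m * N)
    · rw [map_sub, hDmul _ _ (hDpow _ _ hDp) (hHm s m), hDmul _ _ (hDpow _ _ hDQ) (hHm r m),
        sub_zero]
    · apply G.H_sub
      · exact G.H_mul (G.H_pow he N') (Hm_H G hPH hQH s m)
      · have := G.H_mul (G.H_pow hQH e') (Hm_H G hPH hQH r m)
        rwa [show (e' : ℤ) * N + m * N = N' * e + m * N by rw [he', hN']; ring] at this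
    · rw [map_sub, map_mul, map_mul, hφR, hφS, sub_eq_zero]
      rw [div_eq_div_iff (by rw [map_pow]; exact pow_ne_zero _ hφQ) hs0] at hrs
      linear_combination φ Q ^ m * hrs
  have hclos : Q ^ e' * Hm P Q r m ∈ Submonoid.closure (gens k P Q) :=
    Submonoid.mul_mem _ (Submonoid.pow_mem _ (Q_mem P Q) _) hRc
  have hpd : p ∣ Q ^ e' * Hm P Q r m := by
    rw [← heq]
    exact Dvd.dvd.mul_right (dvd_pow_self p hN'0) _
  obtain ⟨α, β, hαβ, hpM⟩ := prime_dvd_closure hp hclos hpd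
  have hM0 := member_ne' G hN hPH hQH hrel hαβ
  obtain ⟨i, S', hS1, hS2⟩ := sep hrel hαβ hSc
  obtain ⟨j, R', hR1, hR2⟩ := sep hrel hαβ hclos
  have hij : i < j := by
    by_contra hcon
    push Not at hcon
    obtain ⟨l, rfl⟩ := Nat.exists_eq_add_of_le hcon
    rw [hS1, hR1, pow_add] at heq
    have h7 : p ^ N' * ((α • P + β • Q) ^ l * S') = R' := by
      apply mul_left_cancel₀ (pow_ne_zero j hM0)
      rw [← heq]; ring
    apply hp.not_isUnit
    apply hR2 hpM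
    rw [← h7]
    exact Dvd.dvd.mul_right (dvd_pow_self p hN'0) _
  obtain ⟨l, rfl⟩ := Nat.exists_eq_add_of_lt hij
  have h7 : p ^ N' * S' = (α • P + β • Q) ^ (l + 1) * R' := by
    apply mul_left_cancel₀ (pow_ne_zero i hM0)
    rw [hS1, hR1] at heq
    calc (α • P + β • Q) ^ i * (p ^ N' * S') = p ^ N' * ((α • P + β • Q) ^ i * S') := by ring
      _ = (α • P + β • Q) ^ (i + l + 1) * R' := heq
      _ = (α • P + β • Q) ^ i * ((α • P + β • Q) ^ (l + 1) * R') := by ring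
  obtain ⟨a, ha⟩ := associated_pow (p := p) hM0 (by
    intro q hq hqM
    have h8 : q ∣ p ^ N' * S' := by
      rw [h7]
      exact Dvd.dvd.mul_right (hqM.trans (dvd_pow_self _ (by omega))) _
    rcases hq.dvd_or_dvd h8 with h9 | h9
    · exact hq.associated_of_dvd hp (hq.dvd_of_dvd_pow h9)
    · exact absurd (hS2 hqM h9) hq.not_isUnit)
  exact ⟨α, β, a, hαβ, ha⟩

end Pool.Agent.LNDHom
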