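import Mathlib
import Pool.Agent.LNDHom.Pencil3

set_option autoImplicit false
set_option linter.unusedSectionVars false

open MvPolynomial

namespace Pool.Agent.LNDHom

variable {k : Type*} [Field k]

/-- The specialization killing `X i` and sending `X (i + 1)` to `1`. -/
noncomputable def spec (k : Type*) [Field k] (i : Fin 3) :
    MvPolynomial (Fin 3) k →ₐ[k] Polynomial k :=
  aeval (fun t : Fin 3 => if t = i then 0 else if t = i + 1 then 1 else Polynomial.X)

theorem spec_monomial (i : Fin 3) (m : Fin 3 →₀ ℕ) (c : k) :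
    spec k i (monomial m c) = if m i = 0 then Polynomial.monomial (m (i + 2)) c else 0 := by
  rw [spec, aeval_monomial, Finsupp.prod_fintype _ _ (by intro t; simp)]
  have hprod : ∀ F : Fin 3 → Polynomial k, ∏ t, F t = F i * F (i + 1) * F (i + 2) := by
    intro F
    fin_cases i
    · simp [Fin.prod_univ_three]
    · simp [Fin.prod_univ_three]; ring
    · simp [Fin.prod_univ_three]; ring
  rw [hprod]
  have h1 : i + 1 ≠ i := by fin_cases i <;> decide
  have h2 : i + 2 ≠ i := by fin_cases i <;> decide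
  have h3 : i + 2 ≠ i + 1 := by fin_cases i <;> decide
  simp only [if_true, h1, h2, h3, if_false, one_pow, mul_one]
  split_ifs with h
  · rw [h, pow_zero, one_mul, Polynomial.C_mul_X_pow_eq_monomial.symm]
    rfl
  · rw [zero_pow h, zero_mul, mul_zero]

theorem spec_dvd {w : Fin 3 → ℤ} (hw : ∀ i, 0 < w i) (i : Fin 3) {x : MvPolynomial (Fin 3) k}
    {n : ℤ} (hx : IsWeightedHomogeneous w x n) (h0 : spec k i x = 0) :
    (X i : MvPolynomial (Fin 3) k) ∣ x := by
  classical
  have h1 : ∀ m ∈ x.support, m i ≠ 0 := by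
    intro m hm hmi
    have h2 : (spec k i x).coeff (m (i + 2)) = coeff m x := by
      conv_lhs => rw [x.as_sum]
      rw [map_sum, Polynomial.finsetSum_coeff, Finset.sum_eq_single m]
      · rw [spec_monomial, if_pos hmi, Polynomial.coeff_monomial, if_pos rfl]
      · intro m' hm' hne
        rw [spec_monomial]
        split_ifs with hm'i
        · rw [Polynomial.coeff_monomial, if_neg]
          intro heq
          apply hne
          have e1 := hx (mem_support_iff.mp hm)
          have e2 := hx (mem_support_iff.mp hm')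
          rw [Finsupp.weight_eq_sum] at e1 e2
          have hsum : ∀ F : Fin 3 → ℤ, ∑ t, F t = F i + F (i + 1) + F (i + 2) := by
            intro F
            fin_cases i
            · simp [Fin.sum_univ_three]
            · simp [Fin.sum_univ_three]; ring
            · simp [Fin.sum_univ_three]; ring
          rw [hsum] at e1 e2
          simp only [nsmul_eq_mul] at e1 e2
          rw [hmi] at e1
          rw [hm'i, heq] at e2
          have e3 : ((m' (i + 1) : ℤ) - m (i + 1)) * w (i + 1) = 0 := by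
            linear_combination e2 - e1
          have e4 : m' (i + 1) = m (i + 1) := by
            rcases mul_eq_zero.mp e3 with h | h
            · omega
            · exact absurd h (hw _).ne'
          ext t
          have ht : t = i ∨ t = i + 1 ∨ t = i + 2 := by
            fin_cases i <;> fin_cases t <;> decide
          rcases ht with rfl | rfl | rfl
          · rw [hmi, hm'i]
          · exact e4
          · exact heq
        · simp
      · intro hm'
        exact absurd hm hm'
    rw [h0, Polynomial.coeff_zero] at h2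
    exact (mem_support_iff.mp hm) h2.symm
  rw [x.as_sum]
  apply Finset.dvd_sum
  intro m hm
  rw [X_dvd_monomial]
  right
  exact h1 m hm

/-- Two constants with nonvanishing Jacobian. -/
theorem exists_ab [CharZero k] (D : Derivation k (MvPolynomial (Fin 3) k) (MvPolynomial (Fin 3) k))
    (hln : ∀ x, ∃ n, (⇑D)^[n] x = 0) (hD0 : ∃ x, D x ≠ 0) :
    ∃ a b w, D a = 0 ∧ D b = 0 ∧ jd a b w ≠ 0 := by
  by_contra hcon
  push Not at hcon
  obtain ⟨r, hr1, hr2⟩ := exists_deg D hln hD0 1
  have hr0 : D r ≠ 0 := by simpa using hr1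
  have hrr : D (D r) = 0 := by simpa [Function.iterate_succ_apply] using hr2
  have prop : ∀ E : Derivation k (MvPolynomial (Fin 3) k) (MvPolynomial (Fin 3) k),
      (∀ a, D a = 0 → E a = 0) → E r = 0 → ∀ x, E x = 0 := by
    intro E hE hEr x
    have h1 := proportional D E hln hE hrr hr0 x
    rw [hEr, zero_mul] at h1
    rcases mul_eq_zero.mp h1 with h2 | h2
    · exact absurd h2 hr0
    · exact h2
  have h1 : ∀ a, D a = 0 → ∀ w, jd a r w = 0 := by
    intro a ha
    apply prop (jd a r) _ (jd_self2 a r)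
    intro b hb
    rw [jd_swap, hcon a b r ha hb, neg_zero]
  have h2 : ∀ a, D a = 0 → ∀ v w, jd v a w = 0 := by
    intro a ha v
    apply prop (jd v a)
    · intro b hb
      rw [jd_cyc, hcon a b v ha hb]
    · rw [jd_cyc, h1 a ha]
  have h3 : ∀ v w, jd v r w = 0 := by
    intro v
    apply prop (jd v r) _ (jd_self2 v r)
    intro a ha
    rw [jd_swap, h2 a ha, neg_zero]
  have h4 : ∀ u v w : MvPolynomial (Fin 3) k, jd u v w = 0 := by
    intro u v
    apply prop (jd u v)
    · intro a ha
      rw [jd_swap, h2 a ha, neg_zero]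
    · rw [jd_swap, h3, neg_zero]
  have h7 : jd (X 0 : MvPolynomial (Fin 3) k) (X 1) (X 2) = 0 := h4 (X 0) (X 1) (X 2)
  rw [jd_apply] at h7
  simp at h7

theorem exists_comp {B : Type*} [CommRing B] [IsDomain B] [Algebra k B] (G : Gr k B)
    (E : Derivation k B B) {x : B} (h : E x ≠ 0) : ∃ e, E (G.comp e x) ≠ 0 := by
  by_contra hcon
  push Not at hcon
  apply h
  obtain ⟨s, _, hs2⟩ := G.fin x
  rw [hs2, map_sum]
  exact Finset.sum_eq_zero (fun e _ => hcon e)

theorem exists_nonprop [CharZero k] {w : Fin 3 → ℤ} (hw : ∀ i, 0 < w i)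
    (D : Derivation k (MvPolynomial (Fin 3) k) (MvPolynomial (Fin 3) k))
    (hln : ∀ x, ∃ n, (⇑D)^[n] x = 0) (hD0 : ∃ x, D x ≠ 0) (δ : ℤ)
    (hHD : (mvGr k w hw).HD D δ) :
    ∃ (n : ℤ) (F F' : MvPolynomial (Fin 3) k), D F = 0 ∧ D F' = 0 ∧ (mvGr k w hw).H n F ∧
      (mvGr k w hw).H n F' ∧ F' ≠ 0 ∧ ∀ c : k, F ≠ c • F' := by
  set G := mvGr k w hw with hG
  obtain ⟨a0, b0, u, ha0, hb0, h0⟩ := exists_ab D hln hD0
  rw [jd_cyc] at h0
  obtain ⟨s, hs⟩ := exists_comp G _ h0
  rw [jd_cyc] at hs
  obtain ⟨t, ht⟩ := exists_comp G _ hs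
  rw [jd_cyc] at ht
  set a := G.comp s a0 with ha
  set b := G.comp t b0 with hb
  have hDa : D a = 0 := by rw [ha, hHD, ha0, map_zero]
  have hDb : D b = 0 := by rw [hb, hHD, hb0, map_zero]
  have haH : G.H s a := G.H_comp s a0
  have hbH : G.H t b := G.H_comp t b0
  have ha1 : a ≠ 0 := by
    intro h1
    rw [h1, jd_apply] at ht
    simp at ht
  have hb1 : b ≠ 0 := by
    intro h1
    rw [h1, jd_apply] at ht
    simp at ht
  have hs0 := G.H_nonneg ha1 haH
  have ht0 := G.H_nonneg hb1 hbH
  have hspos : 0 < s := by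
    rcases hs0.lt_or_eq with h | h
    · exact h
    · exfalso
      rw [← h] at haH
      obtain ⟨r, hr⟩ := G.const_of_H haH
      apply ht
      rw [jd_cyc, hr]
      exact Derivation.map_algebraMap (jd b u) r
  have htpos : 0 < t := by
    rcases ht0.lt_or_eq with h | h
    · exact h
    · exfalso
      rw [← h] at hbH
      obtain ⟨r, hr⟩ := G.const_of_H hbH
      apply ht
      rw [jd_cyc, jd_cyc, hr]
      exact Derivation.map_algebraMap (jd u a) r
  obtain ⟨s', hs'⟩ : ∃ s' : ℕ, (s' : ℤ) = s := ⟨s.toNat, by omega⟩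
  obtain ⟨t', ht'⟩ : ∃ t' : ℕ, (t' : ℤ) = t := ⟨t.toNat, by omega⟩
  refine ⟨t' * s, a ^ t', b ^ s', ?_, ?_, G.H_pow haH t', ?_, pow_ne_zero _ hb1, ?_⟩
  · rw [Derivation.leibniz_pow, hDa]; simp
  · rw [Derivation.leibniz_pow, hDb]; simp
  · have := G.H_pow hbH s'
    rwa [show (s' : ℤ) * t = t' * s by rw [hs', ht']; ring] at this
  · intro c hc
    have h1 : jd b u (a ^ t') = jd b u (c • b ^ s') := by rw [hc]
    rw [Derivation.leibniz_pow, Derivation.map_smul, Derivation.leibniz_pow, jd_self1, smul_zero,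
      smul_zero, smul_zero, ← jd_cyc] at h1
    have h2 : (t' : MvPolynomial (Fin 3) k) ≠ 0 := by
      have : t' ≠ 0 := by omega
      exact_mod_cast this
    rw [nsmul_eq_mul, smul_eq_mul] at h1
    exact mul_ne_zero h2 (mul_ne_zero (pow_ne_zero _ ha1) ht) h1

end Pool.Agent.LNDHom
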