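import Mathlib
import Pool.Agent.LNDHom.Spec

set_option autoImplicit false
set_option linter.unusedSectionVars false

namespace Pool.Agent.LNDHom

variable {k B : Type*} [Field k] [CommRing B] [IsDomain B] [Algebra k B]

/-- The inductive step. -/
theorem pencil_main [CharZero k] [IsAlgClosed k] [UniqueFactorizationMonoid B] (G : Gr k B)
    (D : Derivation k B B) (hln : ∀ x, ∃ n, (⇑D)^[n] x = 0) (hD0 : ∃ x, D x ≠ 0) (δ : ℤ)
    (hD : G.HD D δ) {N : ℤ} {f g : B} (hpen : Pencil G D N f g) {ω : ℤ}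
    (hω : ∀ (y : B) (e : ℤ), G.H e y → D y = 0 → y ≠ 0 → Pencil.Reduced k f g y → e ≤ ω)
    (hδ : δ < 2 * N - ω) (n : ℕ) :
    ∃ (Q c : B) (d : ℤ), Adapted G D n Q c d := by
  classical
  have hf := hpen.HP
  have hg := hpen.HQ
  have hf0 := hpen.P_ne
  have hg0 := hpen.Q_ne
  have hrel := hpen.rel
  induction n using Nat.strong_induction_on with
  | _ n IH =>
  -- choose the earlier data
  have IH' : ∀ i, ∃ (Q c : B) (d : ℤ), i < n → Adapted G D i Q c d := by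
    intro i
    by_cases hi : i < n
    · obtain ⟨Q, c, d, h⟩ := IH i hi
      exact ⟨Q, c, d, fun _ => h⟩
    · exact ⟨0, 0, 0, fun h => absurd h hi⟩
  choose Q c d hQ using IH'
  have hfc := fact_closed D hln
  -- constants of maximal degree
  obtain ⟨x0, hx0, hx0'⟩ := exists_deg D hln hD0 n
  obtain ⟨E1, hE1, _⟩ := G.exists_top hx0
  have hx1 : (⇑D)^[n] (G.comp (E1 - n * δ) x0) = G.comp E1 ((⇑D)^[n] x0) := by
    rw [G.HD_iter hD]; congr 2; ring
  have hx1' : (⇑D)^[n + 1] (G.comp (E1 - n * δ) x0) = 0 := by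
    rw [G.HD_iter hD, hx0', map_zero]
  let P : ℤ → Prop := fun e => ∃ c : B, c ≠ 0 ∧ D c = 0 ∧ G.H e c ∧
    ∀ x, (⇑D)^[n + 1] x = 0 → c ∣ (⇑D)^[n] x
  have hPb : ∀ e, P e → e ≤ E1 := by
    rintro e ⟨c', hc'0, _, hc'H, hc'⟩
    obtain ⟨y, hy⟩ := hc' _ hx1'
    rw [hx1] at hy
    have h1 : G.H (E1 - e) y := G.H_cancel hc'0 hc'H (by rw [← hy]; exact G.H_comp _ _)
    have h2 : y ≠ 0 := by
      rintro rfl
      rw [mul_zero] at hy
      exact hE1 hy
    have := G.H_nonneg h2 h1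
    omega
  obtain ⟨ec, ⟨cn, hcn0, hDcn, hcnH, hcnd⟩, hecmax⟩ := Int.exists_greatest_of_bdd
    ⟨E1, hPb⟩ ⟨0, 1, one_ne_zero, by simp, G.H_one, fun x _ => one_dvd _⟩
  -- the ideal `J`
  let J : Set B := {h | ∃ x, (⇑D)^[n + 1] x = 0 ∧ (⇑D)^[n] x = cn * h}
  have hJD : ∀ x ∈ J, D x = 0 := by
    rintro h ⟨x, hx1, hx2⟩
    have h1 : D (cn * h) = 0 := by rw [← hx2, ← Function.iterate_succ_apply' (⇑D)]; exact hx1
    rw [Derivation.leibniz, hDcn, smul_zero, add_zero, smul_eq_mul] at h1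
    rcases mul_eq_zero.mp h1 with h2 | h2
    · exact absurd h2 hcn0
    · exact h2
  have hJadd : ∀ x ∈ J, ∀ y ∈ J, x + y ∈ J := by
    rintro h ⟨x, hx1, hx2⟩ h' ⟨x', hx1', hx2'⟩
    exact ⟨x + x', by rw [iterate_map_add, hx1, hx1', add_zero], by
      rw [iterate_map_add, hx2, hx2']; ring⟩
  have hJmul : ∀ c', D c' = 0 → ∀ x ∈ J, c' * x ∈ J := by
    rintro c' hc' h ⟨x, hx1, hx2⟩
    exact ⟨c' * x, by rw [iter_const D hc', hx1, mul_zero], by
      rw [iter_const D hc', hx2]; ring⟩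
  have hJcomp : ∀ x ∈ J, ∀ e, G.comp e x ∈ J := by
    rintro h ⟨x, hx1, hx2⟩ e
    refine ⟨G.comp (e + ec - n * δ) x, ?_, ?_⟩
    · rw [G.HD_iter hD, hx1, map_zero]
    · rw [G.HD_iter hD, hx2, show e + ec - n * δ + n * δ = e + ec by ring,
        G.mul_comp ec _ cn h hcnH, show e + ec - ec = e by ring]
  have hJne : ∃ x ∈ J, x ≠ 0 := by
    obtain ⟨y, hy⟩ := hcnd x0 hx0'
    refine ⟨y, ⟨x0, hx0', hy⟩, ?_⟩
    rintro rfl
    rw [mul_zero] at hy
    exact hx0 hy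
  have hJmax : ∀ c', D c' = 0 → ∀ d', G.H d' c' → c' ≠ 0 → (∀ x ∈ J, c' ∣ x) → d' = 0 := by
    intro c' hc' d' hd' hc'0 hall
    have h1 : P (ec + d') := by
      refine ⟨cn * c', mul_ne_zero hcn0 hc'0, ?_, G.H_mul hcnH hd', ?_⟩
      · rw [Derivation.leibniz, hDcn, hc']; simp
      · intro x hx
        obtain ⟨y, hy⟩ := hcnd x hx
        rw [hy]
        exact mul_dvd_mul_left _ (hall y ⟨x, hx, hy⟩)
    have h2 := hecmax _ h1
    have h3 := G.H_nonneg hc'0 hd'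
    omega
  have hAc : ∀ x, D x = 0 → ∀ e, D (G.comp e x) = 0 := by
    intro x hx e
    rw [hD, hx, map_zero]
  obtain ⟨α, hα⟩ : ∃ α : ℕ, f ^ α ∈ J :=
    hpen.swap.pow_mem hfc J hJD hJadd hJmul hJcomp hJne hJmax
  obtain ⟨β, hβ⟩ : ∃ β : ℕ, g ^ β ∈ J :=
    hpen.pow_mem hfc J hJD hJadd hJmul hJcomp hJne hJmax
  have hDf : D f = 0 := hpen.DP
  have hDg : D g = 0 := hpen.DQ
  have hDfp : D (f ^ α) = 0 := by rw [Derivation.leibniz_pow, hDf]; simp
  have hDgp : D (g ^ β) = 0 := by rw [Derivation.leibniz_pow, hDg]; simp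
  -- homogeneous lifts
  have hlift : ∀ (h : B) (e : ℤ), h ∈ J → G.H e h → ∃ x, (⇑D)^[n + 1] x = 0 ∧
      (⇑D)^[n] x = cn * h ∧ G.H (ec + e - n * δ) x := by
    rintro h e ⟨x, hx1, hx2⟩ he
    refine ⟨G.comp (ec + e - n * δ) x, ?_, ?_, G.H_comp _ _⟩
    · rw [G.HD_iter hD, hx1, map_zero]
    · rw [G.HD_iter hD, hx2, show ec + e - n * δ + n * δ = ec + e by ring]
      exact G.H_mul hcnH he
  obtain ⟨b1, hb11, hb12, hb13⟩ := hlift _ _ hα (G.H_pow hf α)
  obtain ⟨b2, hb21, hb22, hb23⟩ := hlift _ _ hβ (G.H_pow hg β)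
  have hyH : G.H (ec + α * N + β * N - n * δ) (g ^ β * b1 - f ^ α * b2) := by
    apply G.H_sub
    · have := G.H_mul (G.H_pow hg β) hb13
      rwa [show (β : ℤ) * N + (ec + α * N - n * δ) = ec + α * N + β * N - n * δ by ring] at this
    · have := G.H_mul (G.H_pow hf α) hb23
      rwa [show (α : ℤ) * N + (ec + β * N - n * δ) = ec + α * N + β * N - n * δ by ring] at this
  have hy0 : (⇑D)^[n] (g ^ β * b1 - f ^ α * b2) = 0 := by
    rw [iterate_map_sub, iter_const D hDgp, iter_const D hDfp, hb12, hb22]; ring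
  obtain ⟨lam, hlam1, hlam2⟩ := expand G hD (n := n) (fun i hi => hQ i hi) n le_rfl _ _ hyH hy0
  -- the coefficients lie in `(f ^ α, g ^ β)`
  have hcoef : ∀ i, ∃ μ ν : B, i < n → D μ = 0 ∧ D ν = 0 ∧
      lam i = f ^ α * μ + g ^ β * ν := by
    intro i
    by_cases hi : i < n
    swap
    · exact ⟨0, 0, fun h => absurd h hi⟩
    obtain ⟨j, hj⟩ : ∃ j, i + j + 1 = n := ⟨n - 1 - i, by omega⟩
    obtain ⟨hi1, hi2, hi3, hi4, hi5⟩ := hQ i hi
    obtain ⟨hj1, hj2, hj3, hj4, hj5⟩ := hQ j (by omega)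
    have hPij : P ((d i + i * δ) + (d j + j * δ)) := by
      refine ⟨c i * c j, mul_ne_zero hi3 hj3, ?_, ?_, ?_⟩
      · rw [Derivation.leibniz, hi4, hj4]; simp
      · apply G.H_mul
        · rw [← hi2]; exact G.HD_H hD i hi1
        · rw [← hj2]; exact G.HD_H hD j hj1
      · intro x hx
        rw [← hj]
        exact dvd_gen D hln hi3 hj3 hi4 hj4 hfc i j hi5 hj5 x (by
          rw [show i + j + 2 = n + 1 by omega]; exact hx)
    have h1 := hecmax _ hPij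
    have h2 : Q j ≠ 0 := by
      intro h0
      rw [h0, iterate_map_zero] at hj2
      exact hj3 hj2.symm
    have h3 := G.H_nonneg h2 hj1
    have h4 : (n : ℤ) = i + j + 1 := by rw [← hj]; push_cast; ring
    obtain ⟨hl1, hl2⟩ := hlam1 i hi
    obtain ⟨μ, ν, hμ, hν, hμν⟩ := hpen.soc' hfc hω hl1 hl2 α β (by
      rw [h4]
      linarith)
    exact ⟨μ, ν, fun _ => ⟨hμ, hν, hμν⟩⟩
  choose μ ν hμν using hcoef
  have hsum : g ^ β * (b1 - ∑ i ∈ Finset.range n, ν i * Q i) =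
      f ^ α * (b2 + ∑ i ∈ Finset.range n, μ i * Q i) := by
    have h1 : ∑ i ∈ Finset.range n, lam i * Q i =
        f ^ α * ∑ i ∈ Finset.range n, μ i * Q i + g ^ β * ∑ i ∈ Finset.range n, ν i * Q i := by
      rw [Finset.mul_sum, Finset.mul_sum, ← Finset.sum_add_distrib]
      apply Finset.sum_congr rfl
      intro i hi
      rw [(hμν i (Finset.mem_range.mp hi)).2.2]
      ring
    rw [h1] at hlam2
    linear_combination hlam2
  have hrel' : IsRelPrime (f ^ α) (g ^ β) := IsRelPrime.pow hrel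
  obtain ⟨q, hq⟩ := hrel'.dvd_of_dvd_mul_left (Dvd.intro _ hsum.symm)
  have hzero : (⇑D)^[n] (∑ i ∈ Finset.range n, ν i * Q i) = 0 := by
    rw [iter_sum]
    apply Finset.sum_eq_zero
    intro i hi
    have hi := Finset.mem_range.mp hi
    rw [iter_const D (hμν i hi).2.1]
    obtain ⟨_, hi2, _, hi4, _⟩ := hQ i hi
    have h1 : (⇑D)^[i + 1] (Q i) = 0 := by rw [Function.iterate_succ_apply', hi2, hi4]
    rw [iter_zero_of_le D h1 hi, mul_zero]
  have hqn : (⇑D)^[n] q = cn := by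
    have h1 : f ^ α * (⇑D)^[n] q = f ^ α * cn := by
      rw [← iter_const D hDfp, ← hq, iterate_map_sub, hzero, hb12]; ring
    exact mul_left_cancel₀ (pow_ne_zero α hf0) h1
  refine ⟨G.comp (ec - n * δ) q, cn, ec - n * δ, G.H_comp _ _, ?_, hcn0, hDcn, hcnd⟩
  rw [G.HD_iter hD, hqn, show ec - n * δ + n * δ = ec by ring]
  exact hcnH

end Pool.Agent.LNDHom
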