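import Mathlib
import Pool.Agent.LNDHom.Induct2
import Pool.Agent.LNDHom.Final

set_option autoImplicit false
set_option linter.unusedSectionVars false

open MvPolynomial

namespace Pool.Agent.LNDHom

variable {k : Type*} [Field k]

/-- Euler's identity for integral weights. -/
theorem euler {w : Fin 3 → ℤ} {x : MvPolynomial (Fin 3) k} {n : ℤ}
    (hx : IsWeightedHomogeneous w x n) :
    ∑ i, (w i : MvPolynomial (Fin 3) k) * (X i * pderiv i x) = n * x := by
  classical
  conv_lhs => rw [x.as_sum]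
  conv_rhs => rw [x.as_sum]
  simp only [map_sum, Finset.mul_sum]
  rw [Finset.sum_comm]
  apply Finset.sum_congr rfl
  intro m hm
  have h1 := hx (mem_support_iff.mp hm)
  rw [Finsupp.weight_eq_sum] at h1
  simp only [X_mul_pderiv_monomial, ← h1, nsmul_eq_mul]
  push_cast
  rw [Finset.sum_mul]
  apply Finset.sum_congr rfl
  intro i _
  ring

theorem pencil_jd_ne [CharZero k] {w : Fin 3 → ℤ} (hw : ∀ i, 0 < w i)
    {D : Derivation k (MvPolynomial (Fin 3) k) (MvPolynomial (Fin 3) k)} {N : ℤ}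
    {P Q : MvPolynomial (Fin 3) k} (h : Pencil (mvGr k w hw) D N P Q) :
    ∃ u, jd P Q u ≠ 0 := by
  classical
  by_contra hcon
  push Not at hcon
  have h0 := hcon (X 0)
  have h1 := hcon (X 1)
  have h2 := hcon (X 2)
  rw [jd_apply] at h0 h1 h2
  simp at h0 h1 h2
  have eP := euler (mvGr_H' hw h.HP)
  have eQ := euler (mvGr_H' hw h.HQ)
  simp only [Fin.sum_univ_three] at eP eQ
  have hNpos := h.pos
  have hN0 : (N : MvPolynomial (Fin 3) k) ≠ 0 := by exact_mod_cast hNpos.ne'
  have key : ∀ j, P * pderiv j Q = Q * pderiv j P := by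
    intro j
    apply mul_left_cancel₀ hN0
    rw [← mul_assoc, ← mul_assoc, ← eP, ← eQ]
    fin_cases j
    · simp only [Fin.zero_eta]
      linear_combination (-w 1 * X 1) * h2 + (w 2 * X 2) * h1
    · simp only [Fin.mk_one]
      linear_combination (w 0 * X 0) * h2 - (w 2 * X 2) * h0
    · simp only [Fin.reduceFinMk]
      linear_combination (-w 0 * X 0) * h1 + (w 1 * X 1) * h0
  have hzero : ∀ j, pderiv j Q = 0 := by
    intro j
    by_contra hne
    have hd : Q ∣ pderiv j Q := by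
      have h3 : Q ∣ P * pderiv j Q := by rw [key]; exact dvd_mul_right _ _
      exact h.rel.symm.dvd_of_dvd_mul_left h3
    obtain ⟨z, hz⟩ := hd
    have h4 : (mvGr k w hw).H (N - w j) (pderiv j Q) :=
      mvGr_H hw (IsWeightedHomogeneous.pderiv (mvGr_H' hw h.HQ) (by ring))
    rw [hz] at h4 hne
    have h5 := (mvGr k w hw).H_cancel h.Q_ne h.HQ h4
    have h6 := (mvGr k w hw).H_nonneg (right_ne_zero_of_mul hne) h5
    have := hw j
    omega
  rw [hzero, hzero, hzero] at eQ
  simp only [mul_zero, add_zero] at eQ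
  exact mul_ne_zero hN0 h.Q_ne eQ.symm

/-- Main theorem over an algebraically closed field. -/
theorem main_closed [CharZero k] [IsAlgClosed k] (w : Fin 3 → ℤ) (hw : ∀ i, 0 < w i)
    (D : Derivation k (MvPolynomial (Fin 3) k) (MvPolynomial (Fin 3) k))
    (hln : ∀ x, ∃ n, (⇑D)^[n] x = 0) (hD0 : ∃ x, D x ≠ 0) (δ : ℤ)
    (hhom : ∀ i, IsWeightedHomogeneous w (D (X i)) (w i + δ)) (n : ℕ) :
    ∃ (Q c : MvPolynomial (Fin 3) k) (d : ℤ), Adapted (mvGr k w hw) D n Q c d := by
  classical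
  set G := mvGr k w hw with hG
  have hHD : G.HD D δ := mv_HD hw D δ hhom
  have hfc := fact_closed D hln
  obtain ⟨i, hi⟩ : ∃ i, D (X i) ≠ 0 := by
    by_contra hcon
    push Not at hcon
    obtain ⟨x, hx⟩ := hD0
    apply hx
    have h1 : D = 0 := derivation_ext (fun i => by rw [hcon i]; rfl)
    rw [h1]; rfl
  obtain ⟨N, P, Q, hpen⟩ := exists_pencil G D hfc (spec k i) (by
    intro x n hDx hnx h0
    by_contra hx0
    obtain ⟨y, hy⟩ := spec_dvd hw i (mvGr_H' hw hnx) h0
    apply hi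
    exact hfc (X i) y (by rw [← hy]; exact hDx) (by rw [← hy]; exact hx0))
    (exists_nonprop hw D hln hD0 δ hHD)
  obtain ⟨h, e, D', hh0, hDh, hD'h, hD', hHD', hprim⟩ := reduce G D hln hD0 δ hHD
  have hit := div_iter D D' h hD'h hD'
  have hz : ∀ m x, (⇑D)^[m] x = 0 ↔ (⇑D')^[m] x = 0 := by
    intro m x
    rw [hit]
    constructor
    · intro h1
      rcases mul_eq_zero.mp h1 with h2 | h2
      · exact absurd h2 (pow_ne_zero m hh0)
      · exact h2
    · intro h1
      rw [h1, mul_zero]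
  have hz1 : ∀ x, D x = 0 ↔ D' x = 0 := fun x => by simpa using hz 1 x
  have hln' : ∀ x, ∃ n, (⇑D')^[n] x = 0 := by
    intro x
    obtain ⟨m, hm⟩ := hln x
    exact ⟨m, (hz m x).mp hm⟩
  have hD0' : ∃ x, D' x ≠ 0 := by
    obtain ⟨x, hx⟩ := hD0
    exact ⟨x, fun h0 => hx ((hz1 x).mpr h0)⟩
  have hpen' : Pencil G D' N P Q :=
    { pos := hpen.pos
      HP := hpen.HP
      HQ := hpen.HQ
      DP := (hz1 _).mp hpen.DP
      DQ := (hz1 _).mp hpen.DQ
      rel := hpen.rel
      prim := fun p e hp he hDp => hpen.prim p e hp he ((hz1 _).mpr hDp) }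
  have hfc' := fact_closed D' hln'
  -- the Jacobian derivation of the pencil
  obtain ⟨u0, hu0⟩ := pencil_jd_ne hw hpen
  have hJHD : G.HD (jd P Q) (N + N - (w 0 + w 1 + w 2)) :=
    jd_HD hw (mvGr_H' hw hpen.HP) (mvGr_H' hw hpen.HQ)
  have hJA : ∀ x, D' x = 0 → jd P Q x = 0 := by
    -- homogeneous primes are killed, hence all constants
    have hprimes : ∀ (p : MvPolynomial (Fin 3) k) (e : ℤ), Prime p → G.H e p → D' p = 0 →
        jd P Q p = 0 := by
      intro p e hp he hDp
      obtain ⟨α, β, a, h1, h2⟩ := hpen'.prim p e hp he hDp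
      have ha : a ≠ 0 := by
        rintro rfl
        rw [pow_zero] at h2
        exact G.not_unit_of_H hpen.pos (hpen.member_H α β) (associated_one_iff_isUnit.mp h2)
      obtain ⟨v, hv⟩ := h2
      -- `p ^ a = M * v`
      have hvH : G.H 0 (v : MvPolynomial (Fin 3) k) := by
        obtain ⟨y, hy⟩ := v.isUnit.exists_right_inv
        obtain ⟨d1, hd1⟩ := G.H_of_mul (x := (v : MvPolynomial (Fin 3) k)) (y := y) (e := 0)
          (by rw [hy]; exact G.H_one) (by rw [hy]; exact one_ne_zero)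
        have h3 : ¬ 0 < d1 := fun h4 => G.not_unit_of_H h4 hd1 v.isUnit
        have h5 := G.H_nonneg v.isUnit.ne_zero hd1
        have h6 : d1 = 0 := by omega
        rwa [h6] at hd1
      obtain ⟨r, hr⟩ := G.const_of_H hvH
      have h7 : jd P Q (p ^ a) = 0 := by
        rw [← hv, Derivation.leibniz, hr, Derivation.map_algebraMap, der_member, jd_self1,
          jd_self2]
        simp
      rw [Derivation.leibniz_pow] at h7
      have h8 : ((a : ℕ) : MvPolynomial (Fin 3) k) ≠ 0 := by exact_mod_cast ha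
      rw [nsmul_eq_mul, smul_eq_mul] at h7
      rcases mul_eq_zero.mp h7 with h9 | h9
      · exact absurd h9 h8
      · rcases mul_eq_zero.mp h9 with h10 | h10
        · exact absurd h10 (pow_ne_zero _ hp.ne_zero)
        · exact h10
    have hhomog : ∀ (x : MvPolynomial (Fin 3) k) (e : ℤ), G.H e x → D' x = 0 → jd P Q x = 0 := by
      intro x
      induction x using UniqueFactorizationMonoid.induction_on_prime with
      | h₁ => intro e _ _; exact map_zero _
      | h₂ x hxu =>
        intro e he _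
        have h3 : ¬ 0 < e := fun h4 => G.not_unit_of_H h4 he hxu
        have h5 := G.H_nonneg hxu.ne_zero he
        have h6 : e = 0 := by omega
        rw [h6] at he
        obtain ⟨r, hr⟩ := G.const_of_H he
        rw [hr]
        exact Derivation.map_algebraMap _ r
      | h₃ x q hx0 hq ih =>
        intro e he hDx
        have hne := mul_ne_zero hq.ne_zero hx0
        obtain ⟨eq, heq⟩ := G.H_of_mul he hne
        have hxH := G.H_cancel hq.ne_zero heq he
        have hDq : D' q = 0 := hfc' q x hDx hne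
        have hDx' : D' x = 0 := hfc' x q (by rw [mul_comm]; exact hDx)
          (by rw [mul_comm]; exact hne)
        rw [Derivation.leibniz, ih _ hxH hDx', hprimes q eq hq heq hDq]
        simp
    intro x hx
    obtain ⟨s, _, hs2⟩ := G.fin x
    rw [hs2, map_sum]
    apply Finset.sum_eq_zero
    intro e _
    apply hhomog _ e (G.H_comp e x)
    rw [hHD', hx, map_zero]
  -- the constant of largest degree dividing it
  obtain ⟨E1, hE1, _⟩ := G.exists_top hu0
  have hx1 : jd P Q (G.comp (E1 - (N + N - (w 0 + w 1 + w 2))) u0) = G.comp E1 (jd P Q u0) := by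
    rw [hJHD, sub_add_cancel]
  let S : ℤ → Prop := fun e => ∃ c : MvPolynomial (Fin 3) k, c ≠ 0 ∧ D' c = 0 ∧ G.H e c ∧
    ∀ x, c ∣ jd P Q x
  have hSb : ∀ e, S e → e ≤ E1 := by
    rintro e ⟨c', hc'0, _, hc'H, hc'⟩
    obtain ⟨y, hy⟩ := hc' (G.comp (E1 - (N + N - (w 0 + w 1 + w 2))) u0)
    rw [hx1] at hy
    have h1 : G.H (E1 - e) y := G.H_cancel hc'0 hc'H (by rw [← hy]; exact G.H_comp _ _)
    have h2 : y ≠ 0 := by
      rintro rfl
      rw [mul_zero] at hy
      exact hE1 hy
    have := G.H_nonneg h2 h1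
    omega
  obtain ⟨ω, ⟨W, hW0, hDW, hWH, hWd⟩, hωmax⟩ := Int.exists_greatest_of_bdd
    ⟨E1, hSb⟩ ⟨0, 1, one_ne_zero, by simp, G.H_one, fun x => one_dvd _⟩
  obtain ⟨E', hE'⟩ := exists_div (jd P Q) W hW0 hWd
  have hE'HD : G.HD E' (N + N - (w 0 + w 1 + w 2) - ω) := by
    intro d x
    apply mul_left_cancel₀ hW0
    rw [← hE', hJHD, hE', G.mul_comp ω _ W _ hWH]
    congr 2; ring
  have hδ : δ - e ≤ N + N - (w 0 + w 1 + w 2) - ω := by
    refine deg_bound G D' E' hln' hD0' _ _ hHD' hE'HD hprim ?_ ?_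
    · intro x hx
      have h1 := hJA x hx
      rw [hE'] at h1
      rcases mul_eq_zero.mp h1 with h2 | h2
      · exact absurd h2 hW0
      · exact h2
    · refine ⟨u0, ?_⟩
      intro h1
      rw [hE', h1, mul_zero] at hu0
      exact hu0 rfl
  have hω : ∀ (y : MvPolynomial (Fin 3) k) (e : ℤ), G.H e y → D' y = 0 → y ≠ 0 →
      Pencil.Reduced k P Q y → e ≤ ω := by
    intro y e hy hDy hy0 hred
    apply hωmax
    refine ⟨y, hy0, hDy, hy, ?_⟩
    intro u
    refine hpen'.reduced_dvd hfc' (jd Q u) (jd u P) (jd P Q u) ?_ ?_ ?_ ?_ hy hDy hy0 hred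
    · rw [jd_cyc P Q u]
    · exact jd_self1 Q u
    · exact jd_self2 u P
    · rw [jd_cyc u P Q]
  have hw0' := hw 0
  have hw1' := hw 1
  have hw2' := hw 2
  obtain ⟨Qn, c, d, h1, h2, h3, h4, h5⟩ := pencil_main G D' hln' hD0' (δ - e) hHD' hpen' hω
    (by omega) n
  refine ⟨Qn, h ^ n * c, d, h1, ?_, mul_ne_zero (pow_ne_zero n hh0) h3, ?_, ?_⟩
  · rw [hit, h2]
  · rw [D_pow_mul D hDh, hD', h4, mul_zero, mul_zero]
  · intro x hx
    rw [hit]
    exact mul_dvd_mul_left _ (h5 x ((hz _ x).mp hx))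

end Pool.Agent.LNDHom
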