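import Mathlib
import Pool.Agent.LNDHom.Final2

set_option autoImplicit false
set_option linter.unusedSectionVars false

open MvPolynomial

namespace Pool.Agent.LNDHom

section

variable {k K : Type*} [Field k] [Field K] [Algebra k K] {σ : Type*}

/-- A `k`-linear functional applied to the coefficients. -/
noncomputable def lf (l : K →ₗ[k] k) (x : MvPolynomial σ K) : MvPolynomial σ k :=
  ∑ m ∈ x.support, monomial m (l (coeff m x))

theorem coeff_lf (l : K →ₗ[k] k) (x : MvPolynomial σ K) (m : σ →₀ ℕ) :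
    coeff m (lf l x) = l (coeff m x) := by
  classical
  rw [lf, coeff_sum]
  simp only [coeff_monomial]
  rw [Finset.sum_ite_eq']
  split_ifs with h
  · rfl
  · rw [notMem_support_iff.mp h, map_zero]

theorem lf_add (l : K →ₗ[k] k) (x y : MvPolynomial σ K) : lf l (x + y) = lf l x + lf l y := by
  ext m
  rw [coeff_lf, coeff_add, coeff_add, coeff_lf, coeff_lf, map_add]

theorem lf_zero (l : K →ₗ[k] k) : lf l (0 : MvPolynomial σ K) = 0 := by
  ext m
  rw [coeff_lf, coeff_zero, coeff_zero, map_zero]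

theorem lf_sum (l : K →ₗ[k] k) {ι : Type*} (s : Finset ι) (F : ι → MvPolynomial σ K) :
    lf l (∑ i ∈ s, F i) = ∑ i ∈ s, lf l (F i) := by
  classical
  induction s using Finset.induction_on with
  | empty => simp [lf_zero]
  | insert a s ha ih => rw [Finset.sum_insert ha, Finset.sum_insert ha, lf_add, ih]

theorem lf_monomial (l : K →ₗ[k] k) (m : σ →₀ ℕ) (c : K) :
    lf l (monomial m c) = monomial m (l c) := by
  classical
  ext m'
  rw [coeff_lf, coeff_monomial, coeff_monomial]
  split_ifs
  · rfl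
  · exact map_zero _

theorem lf_map_mul (l : K →ₗ[k] k) (b : MvPolynomial σ k) (y : MvPolynomial σ K) :
    lf l (map (algebraMap k K) b * y) = b * lf l y := by
  classical
  ext m
  rw [coeff_lf, coeff_mul, coeff_mul, map_sum]
  apply Finset.sum_congr rfl
  intro p _
  rw [coeff_map, coeff_lf, ← Algebra.smul_def, map_smul, smul_eq_mul]

theorem lf_map (l : K →ₗ[k] k) (hl : l 1 = 1) (b : MvPolynomial σ k) :
    lf l (map (algebraMap k K) b) = b := by
  ext m
  rw [coeff_lf, coeff_map, Algebra.algebraMap_eq_smul_one, map_smul, hl, smul_eq_mul, mul_one]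

theorem lf_pderiv (l : K →ₗ[k] k) (i : σ) (y : MvPolynomial σ K) :
    lf l (pderiv i y) = pderiv i (lf l y) := by
  classical
  induction y using MvPolynomial.induction_on' with
  | monomial m c =>
    rw [lf_monomial, pderiv_monomial, pderiv_monomial, lf_monomial]
    congr 1
    rw [mul_comm, ← nsmul_eq_mul, map_nsmul, nsmul_eq_mul, mul_comm]
  | add p q hp hq => rw [map_add, lf_add, lf_add, map_add, hp, hq]

variable [Fintype σ]

/-- extension of scalars of a derivation -/
noncomputable def ext (K : Type*) [Field K] [Algebra k K]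
    (D : Derivation k (MvPolynomial σ k) (MvPolynomial σ k)) :
    Derivation K (MvPolynomial σ K) (MvPolynomial σ K) :=
  ∑ i, (map (algebraMap k K) (D (X i))) • pderiv i

theorem ext_apply (D : Derivation k (MvPolynomial σ k) (MvPolynomial σ k))
    (y : MvPolynomial σ K) :
    ext K D y = ∑ i, map (algebraMap k K) (D (X i)) * pderiv i y := by
  rw [ext, der_sum_apply]
  simp

theorem der_eq (D : Derivation k (MvPolynomial σ k) (MvPolynomial σ k))
    (y : MvPolynomial σ k) : D y = ∑ i, D (X i) * pderiv i y := by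
  classical
  have hDsum : D = ∑ i, D (X i) • pderiv i := by
    apply derivation_ext
    intro i
    simp only [der_sum_apply, Derivation.coe_smul, Pi.smul_apply, smul_eq_mul]
    rw [Finset.sum_eq_single i]
    · simp
    · intro j _ hj
      rw [pderiv_X_of_ne (Ne.symm hj), mul_zero]
    · intro h; exact absurd (Finset.mem_univ i) h
  conv_lhs => rw [hDsum]
  rw [der_sum_apply]
  simp

theorem ext_map (D : Derivation k (MvPolynomial σ k) (MvPolynomial σ k))
    (b : MvPolynomial σ k) :
    ext K D (map (algebraMap k K) b) = map (algebraMap k K) (D b) := by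
  rw [ext_apply, der_eq D b, map_sum]
  apply Finset.sum_congr rfl
  intro i _
  rw [map_mul, pderiv_map]

theorem lf_ext (D : Derivation k (MvPolynomial σ k) (MvPolynomial σ k)) (l : K →ₗ[k] k)
    (y : MvPolynomial σ K) : lf l (ext K D y) = D (lf l y) := by
  rw [ext_apply, der_eq D (lf l y), lf_sum]
  apply Finset.sum_congr rfl
  intro i _
  rw [lf_map_mul, lf_pderiv]

theorem ext_map_iter (D : Derivation k (MvPolynomial σ k) (MvPolynomial σ k)) (n : ℕ)
    (b : MvPolynomial σ k) :
    (⇑(ext K D))^[n] (map (algebraMap k K) b) = map (algebraMap k K) ((⇑D)^[n] b) := by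
  induction n with
  | zero => rfl
  | succ n ih => rw [Function.iterate_succ_apply', ih, ext_map, Function.iterate_succ_apply']

theorem lf_ext_iter (D : Derivation k (MvPolynomial σ k) (MvPolynomial σ k)) (l : K →ₗ[k] k)
    (n : ℕ) (y : MvPolynomial σ K) :
    lf l ((⇑(ext K D))^[n] y) = (⇑D)^[n] (lf l y) := by
  induction n with
  | zero => rfl
  | succ n ih => rw [Function.iterate_succ_apply', lf_ext, ih, Function.iterate_succ_apply']

theorem ext_ln (D : Derivation k (MvPolynomial σ k) (MvPolynomial σ k))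
    (hln : ∀ x, ∃ n, (⇑D)^[n] x = 0) (y : MvPolynomial σ K) :
    ∃ n, (⇑(ext K D))^[n] y = 0 := by
  classical
  induction y using MvPolynomial.induction_on' with
  | monomial m c =>
    obtain ⟨n, hn⟩ := hln (monomial m 1)
    refine ⟨n, ?_⟩
    have h1 : (monomial m c : MvPolynomial σ K) = C c * map (algebraMap k K) (monomial m 1) := by
      rw [map_monomial, map_one, C_mul_monomial, mul_one]
    rw [h1, iter_const (ext K D) (by exact Derivation.map_algebraMap (ext K D) c), ext_map_iter,
      hn, map_zero, mul_zero]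
  | add p q hp hq =>
    obtain ⟨a, ha⟩ := hp
    obtain ⟨b, hb⟩ := hq
    refine ⟨a + b, ?_⟩
    rw [iterate_map_add, Function.iterate_add_apply _ a b q, hb, iterate_map_zero, add_zero, add_comm a b,
      Function.iterate_add_apply, ha, iterate_map_zero]

theorem wh_map {w : σ → ℤ} {x : MvPolynomial σ k} {n : ℤ} (hx : IsWeightedHomogeneous w x n) :
    IsWeightedHomogeneous w (map (algebraMap k K) x) n := by
  intro m hm
  apply hx
  intro h0
  rw [coeff_map, h0, map_zero] at hm
  exact hm rfl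

theorem wh_lf {w : σ → ℤ} {x : MvPolynomial σ K} {n : ℤ} (hx : IsWeightedHomogeneous w x n)
    (l : K →ₗ[k] k) : IsWeightedHomogeneous w (lf l x) n := by
  intro m hm
  apply hx
  intro h0
  rw [coeff_lf, h0, map_zero] at hm
  exact hm rfl

end

/-- Main theorem: every positively graded locally nilpotent derivation of `k[x, y, z]` has
homogeneous adapted elements of all degrees. -/
theorem main_all {k : Type*} [Field k] [CharZero k] (w : Fin 3 → ℤ) (hw : ∀ i, 0 < w i)
    (D : Derivation k (MvPolynomial (Fin 3) k) (MvPolynomial (Fin 3) k))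
    (hln : ∀ x, ∃ n, (⇑D)^[n] x = 0) (hD0 : ∃ x, D x ≠ 0) (δ : ℤ)
    (hhom : ∀ i, IsWeightedHomogeneous w (D (X i)) (w i + δ)) (n : ℕ) :
    ∃ (Q c : MvPolynomial (Fin 3) k) (d : ℤ), Adapted (mvGr k w hw) D n Q c d := by
  classical
  let K := AlgebraicClosure k
  let ι : MvPolynomial (Fin 3) k →+* MvPolynomial (Fin 3) K := map (algebraMap k K)
  have hι : Function.Injective ι := map_injective _ (algebraMap k K).injective
  set DK := ext K D with hDK
  have hhomK : ∀ i, IsWeightedHomogeneous w (DK (X i)) (w i + δ) := by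
    intro i
    have h1 : DK (X i) = map (algebraMap k K) (D (X i)) := by
      rw [← ext_map, map_X]
    rw [h1]
    exact wh_map (hhom i)
  obtain ⟨Q, c, d, h1, h2, h3, h4, h5⟩ := main_closed w hw DK (ext_ln D hln) (by
    obtain ⟨x, hx⟩ := hD0
    refine ⟨ι x, ?_⟩
    intro h0
    have h1 : DK (ι x) = ι (D x) := ext_map D x
    rw [h1] at h0
    exact hx ((map_eq_zero_iff ι hι).mp h0)) δ hhomK n
  have hHDK : (mvGr K w hw).HD DK δ := mv_HD hw DK δ hhomK
  have hcH : (mvGr K w hw).H (d + n * δ) c := by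
    rw [← h2]; exact (mvGr K w hw).HD_H hHDK n h1
  -- a functional not killing `c`
  obtain ⟨m, hm⟩ : ∃ m, coeff m c ≠ 0 := by
    by_contra hcon
    push Not at hcon
    apply h3
    ext m
    rw [hcon m, coeff_zero]
  obtain ⟨l, hl⟩ : ∃ l : K →ₗ[k] k, l (coeff m c) ≠ 0 := by
    by_contra hcon
    push Not at hcon
    exact hm ((Module.forall_dual_apply_eq_zero_iff k _).mp hcon)
  obtain ⟨l1, hl1⟩ : ∃ l : K →ₗ[k] k, l 1 = 1 := by
    obtain ⟨l', hl'⟩ : ∃ l : K →ₗ[k] k, l 1 ≠ 0 := by
      by_contra hcon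
      push Not at hcon
      exact one_ne_zero ((Module.forall_dual_apply_eq_zero_iff k _).mp hcon)
    refine ⟨(l' 1)⁻¹ • l', ?_⟩
    rw [LinearMap.smul_apply, smul_eq_mul, inv_mul_cancel₀ hl']
  have hc'0 : lf l c ≠ 0 := by
    intro h0
    have h6 := coeff_lf l c m
    rw [h0, coeff_zero] at h6
    exact hl h6.symm
  have hDQ : (⇑D)^[n] (lf l Q) = lf l c := by
    rw [← lf_ext_iter, h2]
  have hDc : D (lf l c) = 0 := by
    rw [← lf_ext, h4, lf_zero]
  have hQH : IsWeightedHomogeneous w (lf l Q) d := wh_lf (mvGr_H' hw h1) l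
  have hcdvd : c ∣ ι (lf l c) := by
    have h6 := h5 (ι (lf l Q)) (by
      rw [ext_map_iter, Function.iterate_succ_apply', hDQ, hDc, map_zero])
    rwa [ext_map_iter, hDQ] at h6
  obtain ⟨z, hz⟩ := hcdvd
  have hιc0 : ι (lf l c) ≠ 0 := (map_ne_zero_iff ι hι).mpr hc'0
  have hz0 : z ≠ 0 := by rintro rfl; rw [mul_zero] at hz; exact hιc0 hz
  have hιcH : (mvGr K w hw).H (d + n * δ) (ι (lf l c)) :=
    mvGr_H hw (wh_map (wh_lf (mvGr_H' hw hcH) l))
  have hzH : (mvGr K w hw).H 0 z := by
    have h6 := (mvGr K w hw).H_cancel h3 hcH (by rw [← hz]; exact hιcH)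
    rwa [sub_self] at h6
  obtain ⟨r, hr⟩ := (mvGr K w hw).const_of_H hzH
  have hr0 : r ≠ 0 := by rintro rfl; rw [map_zero] at hr; exact hz0 hr
  refine ⟨lf l Q, lf l c, d, mvGr_H hw hQH, hDQ, hc'0, hDc, ?_⟩
  intro x hx
  have h6 := h5 (ι x) (by rw [ext_map_iter, hx, map_zero])
  rw [ext_map_iter] at h6
  obtain ⟨y, hy⟩ := h6
  have h7 : ι ((⇑D)^[n] x) = ι (lf l c) * (r⁻¹ • y) := by
    rw [hz, hr, mul_smul_comm, mul_assoc, mul_left_comm, ← Algebra.smul_def, smul_smul,
      inv_mul_cancel₀ hr0, one_smul]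
    exact hy
  refine ⟨lf l1 (r⁻¹ • y), ?_⟩
  rw [← lf_map_mul]
  change _ = lf l1 (ι (lf l c) * (r⁻¹ • y))
  rw [← h7]
  exact (lf_map l1 hl1 _).symm

end Pool.Agent.LNDHom
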