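import Mathlib
import Pool.Agent.LNDHom.Induct

set_option autoImplicit false
set_option linter.unusedSectionVars false

namespace Pool.Agent.LNDHom

variable {k B : Type*} [Field k] [CommRing B] [IsDomain B] [Algebra k B]

/-- Expansion of an arbitrary element. -/
theorem expand' {D : Derivation k B B} {Q c : ℕ → B}
    (h2 : ∀ i, (⇑D)^[i] (Q i) = c i) (h3 : ∀ i, c i ≠ 0) (h4 : ∀ i, D (c i) = 0)
    (h5 : ∀ i x, (⇑D)^[i + 1] x = 0 → c i ∣ (⇑D)^[i] x) (m : ℕ) : ∀ (y : B), (⇑D)^[m] y = 0 →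
    ∃ lam : ℕ →₀ B, (∀ i, D (lam i) = 0) ∧ (∀ i, m ≤ i → lam i = 0) ∧
      y = lam.sum fun i a => a * Q i := by
  classical
  induction m with
  | zero =>
    intro y hy
    exact ⟨0, by simp, by simp, by simpa using hy⟩
  | succ m ih =>
    intro y hy
    obtain ⟨l, hl⟩ := h5 m y hy
    have hDl : D l = 0 := by
      have h6 : D (c m * l) = 0 := by
        rw [← hl, ← Function.iterate_succ_apply' (⇑D)]; exact hy
      rw [Derivation.leibniz, h4, smul_zero, add_zero, smul_eq_mul] at h6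
      rcases mul_eq_zero.mp h6 with h7 | h7
      · exact absurd h7 (h3 m)
      · exact h7
    obtain ⟨lam, hlam0, hlam1, hlam2⟩ := ih (y - l * Q m) (by
      rw [iterate_map_sub, iter_const D hDl, h2, hl]; ring)
    refine ⟨lam + Finsupp.single m l, ?_, ?_, ?_⟩
    · intro i
      rw [Finsupp.add_apply, map_add, hlam0, zero_add, Finsupp.single_apply]
      split_ifs
      · exact hDl
      · exact map_zero _
    · intro i hi
      rw [Finsupp.add_apply, hlam1 i (by omega), Finsupp.single_eq_of_ne (by omega), add_zero]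
    · rw [Finsupp.sum_add_index' (fun _ => zero_mul _) (fun _ _ _ => add_mul _ _ _), ← hlam2,
        Finsupp.sum_single_index (zero_mul _)]
      ring

/-- A combination of the `Q i` which vanishes is trivial. -/
theorem indep' {D : Derivation k B B} {Q c : ℕ → B}
    (h2 : ∀ i, (⇑D)^[i] (Q i) = c i) (h3 : ∀ i, c i ≠ 0) (h4 : ∀ i, D (c i) = 0)
    (lam : ℕ →₀ B) (hlam : ∀ i, D (lam i) = 0) (h0 : lam.sum (fun i a => a * Q i) = 0) :
    lam = 0 := by
  classical
  by_contra hne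
  have hs : lam.support.Nonempty := Finsupp.support_nonempty_iff.mpr hne
  set m := lam.support.max' hs with hm
  have h1 : (⇑D)^[m] (lam.sum (fun i a => a * Q i)) = lam m * c m := by
    rw [Finsupp.sum, iter_sum, Finset.sum_eq_single m]
    · rw [iter_const D (hlam m), h2]
    · intro i hi him
      have h6 : i < m := lt_of_le_of_ne (lam.support.le_max' i hi) him
      have h7 : (⇑D)^[i + 1] (Q i) = 0 := by rw [Function.iterate_succ_apply', h2, h4]
      rw [iter_const D (hlam i), iter_zero_of_le D h7 h6, mul_zero]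
    · intro h
      exact absurd (lam.support.max'_mem hs) h
  rw [h0, iterate_map_zero] at h1
  have h5 : lam m ≠ 0 := Finsupp.mem_support_iff.mp (lam.support.max'_mem hs)
  exact mul_ne_zero h5 (h3 m) h1.symm

/-- Both forms of the freeness statement. -/
theorem freeness (D : Derivation k B B) (hln : ∀ x, ∃ n, (⇑D)^[n] x = 0) {Q c : ℕ → B}
    (h2 : ∀ i, (⇑D)^[i] (Q i) = c i) (h3 : ∀ i, c i ≠ 0) (h4 : ∀ i, D (c i) = 0)
    (h5 : ∀ i x, (⇑D)^[i + 1] x = 0 → c i ∣ (⇑D)^[i] x) (b : B) :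
    ∃! lam : ℕ →₀ B, (∀ i, D (lam i) = 0) ∧ b = lam.sum fun i a => a * Q i := by
  obtain ⟨m, hm⟩ := hln b
  obtain ⟨lam, hl1, _, hl2⟩ := expand' h2 h3 h4 h5 m b hm
  refine ⟨lam, ⟨hl1, hl2⟩, ?_⟩
  rintro mu ⟨hm1, hm2⟩
  have h : mu - lam = 0 := by
    apply indep' h2 h3 h4 (mu - lam)
    · intro i
      rw [Finsupp.sub_apply, map_sub, hm1, hl1, sub_zero]
    · rw [Finsupp.sum_sub_index (fun _ _ _ => sub_mul _ _ _), ← hm2, ← hl2, sub_self]
  exact sub_eq_zero.mp h

/-- The ideal form of the freeness statement. -/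
theorem principal (D : Derivation k B B) (n : ℕ) {Q c : B}
    (h2 : (⇑D)^[n] Q = c) (h3 : c ≠ 0) (h4 : D c = 0)
    (h5 : ∀ x, (⇑D)^[n + 1] x = 0 → c ∣ (⇑D)^[n] x) :
    ∃ a : B, D a = 0 ∧ ∀ g : B, (∃ f : B, (⇑D)^[n + 1] f = 0 ∧ (⇑D)^[n] f = g) ↔
      (∃ c' : B, D c' = 0 ∧ g = a * c') := by
  refine ⟨c, h4, ?_⟩
  intro g
  constructor
  · rintro ⟨f, hf1, hf2⟩
    obtain ⟨c', hc'⟩ := h5 f hf1
    refine ⟨c', ?_, by rw [← hf2, hc']⟩
    have h6 : D (c * c') = 0 := by
      rw [← hc', ← Function.iterate_succ_apply' (⇑D)]; exact hf1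
    rw [Derivation.leibniz, h4, smul_zero, add_zero, smul_eq_mul] at h6
    rcases mul_eq_zero.mp h6 with h7 | h7
    · exact absurd h7 h3
    · exact h7
  · rintro ⟨c', hc', rfl⟩
    refine ⟨c' * Q, ?_, ?_⟩
    · rw [iter_const D hc', Function.iterate_succ_apply', h2, h4, mul_zero]
    · rw [iter_const D hc', h2]; ring

end Pool.Agent.LNDHom
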